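import Pool.Agent.N310.HR.Iter

/-!
# Complex version of the density theorem
-/

set_option autoImplicit false

open MeasureTheory Complex Set Filter Metric
open scoped ENNReal Topology Real

namespace Pool.Agent.N310.HR

/-- trigonometric polynomial with coefficients `c` multiplied by the symbol `σ` -/
noncomputable def tp (c : Z2 →₀ ℂ) (σ : Z2 → ℂ) (x : T2) : ℂ := c.sum fun m a => a * σ m * e m x

lemma tp_add (c d : Z2 →₀ ℂ) (σ : Z2 → ℂ) (x : T2) : tp (c + d) σ x = tp c σ x + tp d σ x := by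
  unfold tp
  rw [Finsupp.sum_add_index']
  · intro m; ring
  · intro m a b; ring

lemma tp_smul (a : ℂ) (c : Z2 →₀ ℂ) (σ : Z2 → ℂ) (x : T2) : tp (a • c) σ x = a * tp c σ x := by
  unfold tp
  rw [Finsupp.sum_smul_index']
  · rw [Finsupp.sum, Finsupp.sum, Finset.mul_sum]
    refine Finset.sum_congr rfl fun m _ => ?_
    simp only [smul_eq_mul]; ring
  · intro m; ring

lemma tp_single (m : Z2) (a : ℂ) (σ : Z2 → ℂ) (x : T2) :
    tp (Finsupp.single m a) σ x = a * σ m * e m x := by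
  unfold tp
  rw [Finsupp.sum_single_index]
  ring

lemma tp_meas (c : Z2 →₀ ℂ) (σ : Z2 → ℂ) : Measurable (tp c σ) := by
  unfold tp
  simp only [Finsupp.sum]
  exact Finset.measurable_sum _ fun i _ => (e_meas i).const_mul _

/-- symbols of the two Riesz transforms -/
noncomputable def sg (j : Fin 2) (m : Z2) : ℂ := -I * ((m j : ℝ) / ‖cm m‖ : ℝ)

lemma hat_re (m : Z2) : (hat m).re = (m 0 : ℝ) / ‖cm m‖ := by
  rw [hat, Complex.div_ofReal_re, cm_re]
lemma hat_im (m : Z2) : (hat m).im = (m 1 : ℝ) / ‖cm m‖ := by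
  rw [hat, Complex.div_ofReal_im, cm_im]

lemma sg0 (m : Z2) : sg 0 m = -I * ((hat m).re : ℂ) := by rw [hat_re]; rfl
lemma sg1 (m : Z2) : sg 1 m = -I * ((hat m).im : ℂ) := by rw [hat_im]; rfl

lemma cm_neg (m : Z2) : cm (-m) = -cm m := by simp [cm]; ring

lemma hat_neg (m : Z2) : hat (-m) = -hat m := by
  rw [hat, hat, cm_neg, norm_neg, neg_div]

lemma e_neg (m : Z2) (x : T2) : e (-m) x = (starRingEnd ℂ) (e m x) := UnitAddTorus.mFourier_neg

/-- frequency support condition -/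
def Supp (Λ : ℝ) (c : Z2 →₀ ℂ) : Prop := ∀ m ∈ c.support, m ≠ 0 ∧ Λ ≤ ‖cm m‖

lemma Supp_add {Λ : ℝ} {c d : Z2 →₀ ℂ} (hc : Supp Λ c) (hd : Supp Λ d) : Supp Λ (c + d) := by
  classical
  intro m hm
  rcases Finset.mem_union.mp (Finsupp.support_add hm) with h | h
  · exact hc m h
  · exact hd m h

lemma Supp_smul {Λ : ℝ} (a : ℂ) {c : Z2 →₀ ℂ} (hc : Supp Λ c) : Supp Λ (a • c) := by
  intro m hm
  exact hc m (Finsupp.support_smul hm)

lemma Supp_single {Λ : ℝ} {m : Z2} (hm : m ≠ 0) (h : Λ ≤ ‖cm m‖) (a : ℂ) :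
    Supp Λ (Finsupp.single m a) := by
  intro n hn
  have := Finsupp.support_single_subset hn
  rw [Finset.mem_singleton] at this
  rw [this]; exact ⟨hm, h⟩

/-- complex representation of real fields -/
lemma field_rep {Λ : ℝ} {H : T2 → V} (hH : H ∈ 𝓕 Λ) :
    ∃ c : Z2 →₀ ℂ, Supp Λ c ∧ ∀ x, ((H x).1 : ℂ) = tp c 1 x ∧
      (((H x).2.re : ℝ) : ℂ) = tp c (sg 0) x ∧ (((H x).2.im : ℝ) : ℂ) = tp c (sg 1) x := by
  refine Submodule.span_induction ?_ ?_ ?_ ?_ hH
  · rintro F ⟨m, a, hm, hΛ, rfl⟩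
    refine ⟨Finsupp.single m (a / 2) + Finsupp.single (-m) ((starRingEnd ℂ) a / 2),
      Supp_add (Supp_single hm hΛ _) (Supp_single (neg_ne_zero.mpr hm) (by rwa [cm_neg, norm_neg]) _),
      fun x => ?_⟩
    simp only [tp_add, tp_single, sg0, sg1, hat_neg, e_neg, Pi.one_apply, mul_one, wv]
    set ζ := a * e m x with hζ
    have h1 : (starRingEnd ℂ) a / 2 * (starRingEnd ℂ) (e m x) = (starRingEnd ℂ) ζ / 2 := by
      rw [hζ, map_mul]; ring
    have h2 : a / 2 * e m x = ζ / 2 := by rw [hζ]; ring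
    have hre : ((ζ.re : ℝ) : ℂ) = (ζ + (starRingEnd ℂ) ζ) / 2 := Complex.re_eq_add_conj ζ
    have him : ((ζ.im : ℝ) : ℂ) = (ζ - (starRingEnd ℂ) ζ) / (2 * I) := Complex.im_eq_sub_conj ζ
    have him' : ((ζ.im : ℝ) : ℂ) = -I / 2 * ζ + I / 2 * (starRingEnd ℂ) ζ := by
      rw [him]
      field_simp
      rw [Complex.I_sq]; ring
    refine ⟨?_, ?_, ?_⟩
    · rw [h1, h2, hre]; ring
    · rw [Complex.re_mul_ofReal]
      push_cast
      rw [him']
      have : a / 2 * (-I * ((hat m).re : ℂ)) * e m x = (-I * ((hat m).re : ℂ)) * (a / 2 * e m x) := by ring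
      rw [this, h2]
      have : (starRingEnd ℂ) a / 2 * (-I * (((-hat m).re : ℝ) : ℂ)) * (starRingEnd ℂ) (e m x)
        = (-I * (((-hat m).re : ℝ) : ℂ)) * ((starRingEnd ℂ) a / 2 * (starRingEnd ℂ) (e m x)) := by ring
      rw [this, h1, Complex.neg_re]
      push_cast; ring
    · rw [Complex.im_mul_ofReal]
      push_cast
      rw [him']
      have : a / 2 * (-I * ((hat m).im : ℂ)) * e m x = (-I * ((hat m).im : ℂ)) * (a / 2 * e m x) := by ring
      rw [this, h2]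
      have : (starRingEnd ℂ) a / 2 * (-I * (((-hat m).im : ℝ) : ℂ)) * (starRingEnd ℂ) (e m x)
        = (-I * (((-hat m).im : ℝ) : ℂ)) * ((starRingEnd ℂ) a / 2 * (starRingEnd ℂ) (e m x)) := by ring
      rw [this, h1, Complex.neg_im]
      push_cast; ring
  · refine ⟨0, fun m hm => by simp at hm, fun x => ?_⟩
    simp [tp]
  · rintro F G _ _ ⟨c, hc, h1⟩ ⟨d, hd, h2⟩
    refine ⟨c + d, Supp_add hc hd, fun x => ?_⟩
    simp only [tp_add, ← (h1 x).1, ← (h1 x).2.1, ← (h1 x).2.2, ← (h2 x).1, ← (h2 x).2.1,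
      ← (h2 x).2.2, Pi.add_apply]
    refine ⟨?_, ?_, ?_⟩ <;> simp
  · rintro a F _ ⟨c, hc, h1⟩
    refine ⟨(a : ℂ) • c, Supp_smul _ hc, fun x => ?_⟩
    simp only [tp_smul, ← (h1 x).1, ← (h1 x).2.1, ← (h1 x).2.2, Pi.smul_apply]
    refine ⟨?_, ?_, ?_⟩ <;> simp

/-- three complex `p`-norms of a trigonometric polynomial and its Riesz transforms -/
noncomputable def tri (p : ℝ) (c : Z2 →₀ ℂ) (x : T2) : ℝ≥0∞ :=
  ‖tp c 1 x‖ₑ ^ p + ‖tp c (sg 0) x‖ₑ ^ p + ‖tp c (sg 1) x‖ₑ ^ p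

lemma tri_meas (p : ℝ) (c : Z2 →₀ ℂ) : Measurable (tri p c) := by
  unfold tri
  exact (((tp_meas c _).enorm.pow_const p).add ((tp_meas c _).enorm.pow_const p)).add
    ((tp_meas c _).enorm.pow_const p)

theorem density_cplx : ∃ p : ℝ, 0 < p ∧ p < 1 / 2 ∧ ∀ (k : Z2), k ≠ 0 → ∀ (Λ : ℝ) (ε : ℝ≥0∞),
    ε ≠ 0 → ∃ c : Z2 →₀ ℂ, Supp Λ c ∧ ∫⁻ x, tri p (Finsupp.single k 1 + c) x ∂μT ≤ ε := by
  obtain ⟨p, hp, hp2, hden⟩ := density
  refine ⟨p, hp, hp2, fun k hk Λ ε hε => ?_⟩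
  have hε6 : ε / 6 ≠ 0 := (ENNReal.div_pos hε (by simp)).ne'
  have hF : ∀ a : ℂ, Measurable (wv k a) ∧ ∃ B, ∀ x, Nn (wv k a x) ≤ B := fun a =>
    ⟨(wv_cont k a).measurable, ‖a‖, fun x => wv_Nn k a x⟩
  obtain ⟨H1, hH1, h1⟩ := hden (wv k 1) (hF 1).1 (hF 1).2 Λ _ hε6
  obtain ⟨H2, hH2, h2⟩ := hden (wv k (-I)) (hF (-I)).1 (hF (-I)).2 Λ _ hε6
  obtain ⟨d1, hd1, hr1⟩ := field_rep hH1
  obtain ⟨d2, hd2, hr2⟩ := field_rep hH2
  refine ⟨d1 + I • d2, Supp_add hd1 (Supp_smul _ hd2), ?_⟩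
  set W1 : T2 → V := fun x => wv k 1 x + H1 x with hW1
  set W2 : T2 → V := fun x => wv k (-I) x + H2 x with hW2
  have hW1m : Measurable fun x => P p (W1 x) :=
    (P_meas p).comp ((hF 1).1.add (𝓕_cont hH1).measurable)
  have hW2m : Measurable fun x => P p (W2 x) :=
    (P_meas p).comp ((hF (-I)).1.add (𝓕_cont hH2).measurable)
  have key : ∀ (z : ℂ) (α β : ℝ) (v w : V), z = (α : ℂ) + I * (β : ℂ) → |α| ≤ Nn v → |β| ≤ Nn w →
      ‖z‖ₑ ^ p ≤ P p v + P p w := by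
    intro z α β v w hz hα hβ
    have h3 : ‖z‖ ≤ Nn v + Nn w := by
      rw [hz]
      refine (norm_add_le _ _).trans ?_
      rw [norm_mul, Complex.norm_I, one_mul, Complex.norm_real, Complex.norm_real]
      exact add_le_add hα hβ
    calc ‖z‖ₑ ^ p ≤ (ENNReal.ofReal (Nn v) + ENNReal.ofReal (Nn w)) ^ p := by
          gcongr
          rw [← ENNReal.ofReal_add (Nn_nonneg v) (Nn_nonneg w), ← ofReal_norm]
          exact ENNReal.ofReal_le_ofReal h3
      _ ≤ _ := ENNReal.rpow_add_le_add_rpow _ _ hp.le (by linarith)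
  have hpt : ∀ x, tri p (Finsupp.single k 1 + (d1 + I • d2)) x ≤ 3 * P p (W1 x) + 3 * P p (W2 x) := by
    intro x
    have e1 : tp (Finsupp.single k 1 + (d1 + I • d2)) 1 x = ((W1 x).1 : ℂ) + I * ((W2 x).1 : ℂ) := by
      rw [tp_add, tp_add, tp_single, tp_smul, ← (hr1 x).1, ← (hr2 x).1]
      simp only [hW1, hW2, wv, Prod.fst_add, Pi.one_apply]
      push_cast
      have : e k x = ((e k x).re : ℂ) + (e k x).im * I := (Complex.re_add_im _).symm
      have h5 : (-I * e k x).re = (e k x).im := by simp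
      rw [h5, one_mul, one_mul]
      linear_combination this
    have e2 : tp (Finsupp.single k 1 + (d1 + I • d2)) (sg 0) x =
        ((W1 x).2.re : ℂ) + I * ((W2 x).2.re : ℂ) := by
      rw [tp_add, tp_add, tp_single, tp_smul, ← (hr1 x).2.1, ← (hr2 x).2.1, sg0]
      simp only [hW1, hW2, wv, Prod.snd_add, Complex.add_re, Complex.re_mul_ofReal]
      push_cast
      have : e k x = ((e k x).re : ℂ) + (e k x).im * I := (Complex.re_add_im _).symm
      have h5 : (-I * e k x).im = -(e k x).re := by simp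
      rw [h5, one_mul, one_mul]
      nth_rewrite 1 [this]
      push_cast
      linear_combination (-((hat k).re : ℂ) * ((e k x).im : ℂ)) * Complex.I_mul_I
    have e3 : tp (Finsupp.single k 1 + (d1 + I • d2)) (sg 1) x =
        ((W1 x).2.im : ℂ) + I * ((W2 x).2.im : ℂ) := by
      rw [tp_add, tp_add, tp_single, tp_smul, ← (hr1 x).2.2, ← (hr2 x).2.2, sg1]
      simp only [hW1, hW2, wv, Prod.snd_add, Complex.add_im, Complex.im_mul_ofReal]
      push_cast
      have : e k x = ((e k x).re : ℂ) + (e k x).im * I := (Complex.re_add_im _).symm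
      have h5 : (-I * e k x).im = -(e k x).re := by simp
      rw [h5, one_mul, one_mul]
      nth_rewrite 1 [this]
      push_cast
      linear_combination (-((hat k).im : ℂ) * ((e k x).im : ℂ)) * Complex.I_mul_I
    unfold tri
    have k1 := key _ _ _ _ _ e1 (abs_fst_le (W1 x)) (abs_fst_le (W2 x))
    have k2 := key _ _ _ _ _ e2 ((Complex.abs_re_le_norm _).trans (norm_snd_le (W1 x)))
      ((Complex.abs_re_le_norm _).trans (norm_snd_le (W2 x)))
    have k3 := key _ _ _ _ _ e3 ((Complex.abs_im_le_norm _).trans (norm_snd_le (W1 x)))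
      ((Complex.abs_im_le_norm _).trans (norm_snd_le (W2 x)))
    calc _ ≤ (P p (W1 x) + P p (W2 x)) + (P p (W1 x) + P p (W2 x)) + (P p (W1 x) + P p (W2 x)) :=
          add_le_add (add_le_add k1 k2) k3
      _ = _ := by ring
  calc _ ≤ ∫⁻ x, (3 * P p (W1 x) + 3 * P p (W2 x)) ∂μT := lintegral_mono hpt
    _ = 3 * ∫⁻ x, P p (W1 x) ∂μT + 3 * ∫⁻ x, P p (W2 x) ∂μT := by
      rw [lintegral_add_left (hW1m.const_mul _), lintegral_const_mul _ hW1m,
        lintegral_const_mul _ hW2m]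
    _ ≤ 3 * (ε / 6) + 3 * (ε / 6) := by gcongr
    _ = ε := by
      have : 3 * (ε / 6) + 3 * (ε / 6) = 6 * (ε / 6) := by ring
      rw [this]
      exact ENNReal.mul_div_cancel (by norm_num) (by norm_num)

end Pool.Agent.N310.HR
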