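import Pool.Agent.N310.HR.Cplx

/-!
# Schwartz functions with modulated Fourier support
-/

set_option autoImplicit false

open MeasureTheory Complex Set Filter Metric
open scoped ENNReal Topology Real SchwartzMap FourierTransform ContDiff

namespace Pool.Agent.N310.HR

abbrev E2 : Type := EuclideanSpace ℝ (Fin 2)

/-- self-adjointness of the Fourier transform on `L¹` -/
lemma dual_int {u v : E2 → ℂ} (hu : Integrable u) (hv : Integrable v) :
    ∫ ξ, 𝓕 u ξ * v ξ = ∫ x, u x * 𝓕 v x := by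
  simpa using! VectorFourier.integral_bilin_fourierIntegral_eq_flip
    (ContinuousLinearMap.mul ℂ ℂ) (L := innerₗ E2) (μ := volume) (ν := volume)
    (he := Real.continuous_fourierChar) (hL := continuous_inner) hu hv

/-- partial iterated derivatives -/
lemma partial_iter {Ψ : ℝ × E2 → ℂ} (hΨ : ContDiff ℝ ∞ Ψ) (n : ℕ) (s : ℝ) (η : E2) :
    iteratedFDeriv ℝ n (fun η => Ψ (s, η)) η =
      (iteratedFDeriv ℝ n Ψ (s, η)).compContinuousLinearMap
        (fun _ => ContinuousLinearMap.inr ℝ ℝ E2) := by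
  have h1 : (fun η => Ψ (s, η)) = (fun z => Ψ ((s, 0) + z)) ∘ (ContinuousLinearMap.inr ℝ ℝ E2) := by
    funext η; simp
  rw [h1, ContinuousLinearMap.iteratedFDeriv_comp_right (n := ∞) _ _ _ (by exact_mod_cast le_top),
    iteratedFDeriv_comp_add_left]
  · simp
  · exact hΨ.comp (contDiff_const.add contDiff_id)

lemma param_schwartz {Ψ : ℝ × E2 → ℂ} (hΨ : ContDiff ℝ ∞ Ψ) (h0 : ∀ η, Ψ (0, η) = 0)
    (hsupp : ∀ s η, 1 / 2 ≤ ‖η‖ → Ψ (s, η) = 0) {f : ℝ → 𝓢(E2, ℂ)}
    (hf : ∀ s η, f s η = Ψ (s, η)) : Tendsto f (𝓝 0) (𝓝 0) := by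
  rw [(schwartz_withSeminorms ℝ E2 ℂ).tendsto_nhds]
  rintro ⟨k, n⟩ ε hε
  have hfs : ∀ s, (f s : E2 → ℂ) = fun η => Ψ (s, η) := fun s => funext (hf s)
  have hcont : Continuous fun q : ℝ × E2 => (iteratedFDeriv ℝ n Ψ q).compContinuousLinearMap
      (fun _ => ContinuousLinearMap.inr ℝ ℝ E2) :=
    (ContinuousMultilinearMap.compContinuousLinearMapL (𝕜 := ℝ) (F := ℂ)
      (fun _ : Fin n => ContinuousLinearMap.inr ℝ ℝ E2)).continuous.comp
      (hΨ.continuous_iteratedFDeriv (by exact_mod_cast le_top))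
  have hK : CompactSpace (closedBall (0 : E2) (1 / 2)) :=
    isCompact_iff_compactSpace.mp (isCompact_closedBall 0 (1 / 2))
  have hunif := Continuous.tendstoUniformly
    (fun (s : ℝ) (η : closedBall (0 : E2) (1 / 2)) =>
      (iteratedFDeriv ℝ n Ψ (s, (η : E2))).compContinuousLinearMap
      (fun _ => ContinuousLinearMap.inr ℝ ℝ E2))
    (hcont.comp (continuous_fst.prodMk (continuous_subtype_val.comp continuous_snd))) 0
  rw [Metric.tendstoUniformly_iff] at hunif
  filter_upwards [hunif (ε / 2) (by positivity)] with s hs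
  rw [sub_zero]
  refine lt_of_le_of_lt (SchwartzMap.seminorm_le_bound ℝ k n (f s) (M := ε / 2) (by positivity) ?_)
    (by linarith)
  intro x
  by_cases hx : ‖x‖ ≤ 1 / 2
  · have h1 := hs ⟨x, by simpa using hx⟩
    simp only at h1
    rw [← partial_iter hΨ, ← partial_iter hΨ] at h1
    have h2 : (fun η : E2 => Ψ (0, η)) = fun _ => 0 := by funext η; exact h0 η
    rw [h2, iteratedFDeriv_fun_zero, Pi.zero_apply, dist_zero_left, ← hfs s] at h1
    have h3 : ‖x‖ ^ k ≤ 1 := pow_le_one₀ (norm_nonneg _) (by linarith)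
    calc ‖x‖ ^ k * ‖iteratedFDeriv ℝ n (f s) x‖ ≤ 1 * (ε / 2) := by
          gcongr
      _ = ε / 2 := one_mul _
  · have h1 : iteratedFDeriv ℝ n (f s) x = 0 := by
      by_contra hne
      have h2 : x ∈ tsupport (f s) := support_iteratedFDeriv_subset n hne
      have h3 : tsupport (f s) ⊆ closedBall 0 (1 / 2) := by
        apply closure_minimal _ isClosed_closedBall
        intro z hz
        simp only [mem_closedBall, dist_zero_right]
        by_contra hcon
        apply hz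
        rw [hf]
        exact hsupp s z (by linarith)
      have := h3 h2
      simp only [mem_closedBall, dist_zero_right] at this
      exact hx this
    rw [h1, norm_zero, mul_zero]
    positivity

/-- the basic bump -/
noncomputable def bp : ContDiffBump (0 : E2) := ⟨1 / 4, 1 / 2, by norm_num, by norm_num⟩

lemma bp_zero {η : E2} (h : 1 / 2 ≤ ‖η‖) : bp η = 0 := by
  apply bp.zero_of_le_dist
  rw [dist_zero_right]; exact h

/-- Riesz symbols -/
noncomputable def sy (j : Fin 2) (ξ : E2) : ℂ := -I * ((ξ j : ℝ) : ℂ) / ((‖ξ‖ : ℝ) : ℂ)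

/-- smooth version of the Riesz symbols -/
noncomputable def st (j : Fin 2) (ξ : E2) : ℂ := ((1 - bp ξ : ℝ) : ℂ) * sy j ξ

lemma st_eq {j : Fin 2} {ξ : E2} (h : 1 / 2 ≤ ‖ξ‖) : st j ξ = sy j ξ := by
  rw [st, bp_zero h]; simp

lemma st_smooth (j : Fin 2) : ContDiff ℝ ∞ (st j) := by
  rw [contDiff_iff_contDiffAt]
  intro ξ
  by_cases hξ : ξ = 0
  · have h1 : st j =ᶠ[𝓝 ξ] fun _ => 0 := by
      rw [hξ]
      filter_upwards [bp.eventuallyEq_one] with z hz
      rw [st, hz]; simp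
    exact contDiffAt_const.congr_of_eventuallyEq h1
  · unfold st sy
    have h1 : ContDiffAt ℝ ∞ (fun ξ : E2 => ((1 - bp ξ : ℝ) : ℂ)) ξ :=
      Complex.ofRealCLM.contDiff.contDiffAt.comp ξ (contDiffAt_const.sub bp.contDiffAt)
    have h2 : ContDiffAt ℝ ∞ (fun ξ : E2 => ((ξ j : ℝ) : ℂ)) ξ :=
      Complex.ofRealCLM.contDiff.contDiffAt.comp ξ
        (EuclideanSpace.proj (𝕜 := ℝ) j : E2 →L[ℝ] ℝ).contDiff.contDiffAt
    have h3 : ContDiffAt ℝ ∞ (fun ξ : E2 => ((‖ξ‖ : ℝ) : ℂ)) ξ :=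
      Complex.ofRealCLM.contDiff.contDiffAt.comp ξ (contDiffAt_norm ℝ hξ)
    have h4 : ((‖ξ‖ : ℝ) : ℂ) ≠ 0 := by
      have := norm_ne_zero_iff.mpr hξ
      exact_mod_cast this
    simp only [div_eq_mul_inv]
    exact h1.mul ((contDiffAt_const.mul h2).mul (h3.inv h4))

lemma sy_smul (j : Fin 2) {r : ℝ} (hr : 0 < r) (ξ : E2) : sy j (r • ξ) = sy j ξ := by
  unfold sy
  rw [norm_smul, Real.norm_of_nonneg hr.le]
  have h1 : (r • ξ) j = r * ξ j := rfl
  rw [h1]
  push_cast
  have : (r : ℂ) ≠ 0 := by exact_mod_cast hr.ne'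
  rw [show -I * ((r : ℂ) * (ξ j : ℂ)) = (r : ℂ) * (-I * (ξ j : ℂ)) by ring,
    mul_div_mul_left _ _ this]

/-- product of a smooth function with a translated bump, as a Schwartz function -/
noncomputable def mkB (g : E2 → ℂ) (hg : ContDiff ℝ ∞ g) (M : E2) : 𝓢(E2, ℂ) :=
  HasCompactSupport.toSchwartzMap (f := fun ξ => g ξ * ((bp (ξ - M) : ℝ) : ℂ))
    (by
      apply HasCompactSupport.mul_left
      have h1 : HasCompactSupport fun ξ : E2 => bp (ξ - M) := by
        have := bp.hasCompactSupport.comp_homeomorph (Homeomorph.subRight M)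
        exact this
      exact h1.comp_left (g := fun x : ℝ => (x : ℂ)) (by simp))
    (by
      apply hg.mul
      exact Complex.ofRealCLM.contDiff.comp (bp.contDiff.comp (contDiff_id.sub contDiff_const)))

lemma mkB_apply (g : E2 → ℂ) (hg : ContDiff ℝ ∞ g) (M ξ : E2) :
    mkB g hg M ξ = g ξ * ((bp (ξ - M) : ℝ) : ℂ) := rfl

/-- modulation -/
lemma mkB_inv (g : E2 → ℂ) (hg : ContDiff ℝ ∞ g) (M x : E2) :
    (𝓕⁻ (mkB g hg M)) x = Complex.exp (2 * π * I * (inner ℝ M x : ℂ)) *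
      (𝓕⁻ (mkB (fun η => g (M + η)) (hg.comp (contDiff_const.add contDiff_id)) 0)) x := by
  rw [SchwartzMap.fourierInv_coe, SchwartzMap.fourierInv_coe, Real.fourierInv_eq',
    Real.fourierInv_eq', ← integral_const_mul, ← integral_add_left_eq_self _ M]
  congr 1
  funext v
  simp only [mkB_apply, smul_eq_mul, sub_zero, add_sub_cancel_left, inner_add_left]
  rw [← mul_assoc, ← mul_assoc, ← mul_assoc, ← Complex.exp_add]
  congr 3
  push_cast
  ring


/-- the envelope -/
noncomputable def th : 𝓢(E2, ℂ) := 𝓕⁻ (mkB (fun _ => 1) contDiff_const 0)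

/-- the envelope after application of a Riesz transform at frequency `M` -/
noncomputable def thj (j : Fin 2) (M : E2) : 𝓢(E2, ℂ) :=
  𝓕⁻ (mkB (fun η => st j (M + η)) ((st_smooth j).comp (contDiff_const.add contDiff_id)) 0)

lemma fam_smooth (j : Fin 2) (M : E2) (s : ℝ) :
    ContDiff ℝ ∞ (fun η : E2 => st j (M + s • η) - sy j M) := by
  have h1 : ContDiff ℝ ∞ (fun η : E2 => M + s • η) := contDiff_const.add (contDiff_id.const_smul s)
  exact ((st_smooth j).comp h1).sub contDiff_const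

/-- the interpolating family -/
noncomputable def fam (j : Fin 2) (M : E2) (s : ℝ) : 𝓢(E2, ℂ) :=
  mkB (fun η => st j (M + s • η) - sy j M) (fam_smooth j M s) 0

lemma fam_tendsto (j : Fin 2) {M : E2} (hM : 1 ≤ ‖M‖) : Tendsto (fam j M) (𝓝 0) (𝓝 0) := by
  apply param_schwartz (Ψ := fun q => (st j (M + q.1 • q.2) - sy j M) * ((bp q.2 : ℝ) : ℂ))
  · apply ContDiff.mul
    · apply ContDiff.sub _ contDiff_const
      have h1 : ContDiff ℝ ∞ (fun q : ℝ × E2 => M + q.1 • q.2) :=
        contDiff_const.add (contDiff_fst.smul contDiff_snd)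
      exact (st_smooth j).comp h1
    · exact Complex.ofRealCLM.contDiff.comp (bp.contDiff.comp contDiff_snd)
  · intro η
    simp only [zero_smul, add_zero]
    rw [st_eq (by linarith), sub_self, zero_mul]
  · intro s η hη
    simp only
    rw [bp_zero hη]; simp
  · intro s η
    simp only [fam, mkB_apply, sub_zero]

lemma thj_decomp (j : Fin 2) {M : E2} (hM : 1 ≤ ‖M‖) {N : ℕ} (hN : 1 ≤ N) (x : E2) :
    thj j ((N : ℝ) • M) x - sy j M * th x = (𝓕⁻ (fam j M (1 / N))) x := by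
  have hN0 : (0 : ℝ) < N := by exact_mod_cast hN
  have hN1 : (1 : ℝ) ≤ N := by exact_mod_cast hN
  have h1 : mkB (fun η => st j ((N : ℝ) • M + η))
      ((st_smooth j).comp (contDiff_const.add contDiff_id)) 0 =
      fam j M (1 / N) + sy j M • mkB (fun _ => 1) contDiff_const 0 := by
    ext η
    simp only [fam, mkB_apply, sub_zero, add_apply, smul_apply, smul_eq_mul]
    by_cases hη : 1 / 2 ≤ ‖η‖
    · rw [bp_zero hη]; simp
    · push Not at hη
      have h2 : 1 / 2 ≤ ‖(N : ℝ) • M + η‖ := by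
        have h3 := norm_sub_le_norm_add ((N : ℝ) • M) η
        rw [norm_smul, Real.norm_of_nonneg hN0.le] at h3
        nlinarith
      have h4 : 1 / 2 ≤ ‖M + (1 / (N : ℝ)) • η‖ := by
        have h3 := norm_sub_le_norm_add M ((1 / (N : ℝ)) • η)
        rw [norm_smul, Real.norm_of_nonneg (by positivity)] at h3
        have h5 : 1 / (N : ℝ) * ‖η‖ ≤ 1 * (1 / 2) := by
          gcongr
          rw [div_le_one hN0]; exact hN1
        linarith
      rw [st_eq h2, st_eq h4]
      have h5 : (N : ℝ) • M + η = (N : ℝ) • (M + (1 / (N : ℝ)) • η) := by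
        rw [smul_add, smul_smul, mul_one_div_cancel hN0.ne', one_smul]
      rw [h5, sy_smul j hN0]
      ring
  rw [thj, h1, FourierTransform.fourierInv_add, FourierTransform.fourierInv_smul, th]
  simp

lemma thj_tendsto (j : Fin 2) {M : E2} (hM : 1 ≤ ‖M‖) (p : ℝ≥0∞) :
    Tendsto (fun N : ℕ => eLpNorm (fun x => thj j ((N : ℝ) • M) x - sy j M * th x) p volume)
      atTop (𝓝 0) := by
  obtain ⟨k, C, hC⟩ := SchwartzMap.eLpNorm_le_seminorm ℝ ℂ p (volume : Measure E2)
  have h1 : Tendsto (fun N : ℕ => 𝓕⁻ (fam j M (1 / N))) atTop (𝓝 0) := by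
    have h2 : Tendsto (fun N : ℕ => (1 : ℝ) / N) atTop (𝓝 0) := tendsto_one_div_atTop_nhds_zero_nat
    have h3 := (fam_tendsto j hM).comp h2
    have h4 : Continuous (fun f : 𝓢(E2, ℂ) => 𝓕⁻ f) := ContinuousFourierInv.continuous_fourierInv
    have h5 : 𝓕⁻ (0 : 𝓢(E2, ℂ)) = 0 := by simp
    have h6 := (h4.tendsto 0).comp h3
    rw [h5] at h6
    exact h6
  have h2 : Tendsto (fun N : ℕ => (C : ℝ≥0∞) * ENNReal.ofReal
      (((Finset.Iic (k, 0)).sup (schwartzSeminormFamily ℝ E2 ℂ)) (𝓕⁻ (fam j M (1 / N)))))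
      atTop (𝓝 0) := by
    have h3 : Tendsto (fun N : ℕ => ((Finset.Iic (k, 0)).sup (schwartzSeminormFamily ℝ E2 ℂ))
        (𝓕⁻ (fam j M (1 / N)))) atTop (𝓝 0) := by
      rw [Metric.tendsto_nhds]
      intro ε hε
      have h4 := ((schwartz_withSeminorms ℝ E2 ℂ).tendsto_nhds' _ _).mp h1 (Finset.Iic (k, 0)) ε hε
      filter_upwards [h4] with N hN
      rw [sub_zero] at hN
      rw [dist_zero_right, Real.norm_of_nonneg (apply_nonneg _ _)]
      exact hN
    have h5 := ENNReal.Tendsto.const_mul (a := (C : ℝ≥0∞))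
      ((ENNReal.continuous_ofReal.tendsto 0).comp h3) (Or.inr ENNReal.coe_ne_top)
    simpa using h5
  refine tendsto_of_tendsto_of_tendsto_of_le_of_le' tendsto_const_nhds h2
    (Eventually.of_forall fun _ => zero_le) ?_
  filter_upwards [eventually_ge_atTop 1] with N hN
  have h3 : (fun x => thj j ((N : ℝ) • M) x - sy j M * th x) = ⇑(𝓕⁻ (fam j M (1 / N))) := by
    funext x; exact thj_decomp j hM hN x
  rw [h3]
  exact hC _

end Pool.Agent.N310.HR
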