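import Pool.Agent.N310.HR.Hardy

/-!
# The approximating functions on the plane
-/

set_option autoImplicit false

open MeasureTheory Complex Set Filter Metric
open scoped ENNReal Topology Real SchwartzMap FourierTransform ContDiff

namespace Pool.Agent.N310.HR

/-- frequency as a vector -/
noncomputable def mE (m : Z2) : E2 := WithLp.toLp 2 (fun i => (m i : ℝ))

lemma mE_apply (m : Z2) (i : Fin 2) : mE m i = m i := rfl

lemma mE_norm (m : Z2) : ‖mE m‖ = ‖cm m‖ := by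
  rw [EuclideanSpace.norm_eq, Complex.norm_eq_sqrt_sq_add_sq, cm_re, cm_im, Fin.sum_univ_two]
  simp [mE_apply]

lemma sy_mE (j : Fin 2) (m : Z2) : sy j (mE m) = sg j m := by
  rw [sy, sg, mE_norm, mE_apply]
  push_cast
  ring

/-- quotient map onto the torus -/
noncomputable def qm (x : E2) : T2 := fun i => ((x i : ℝ) : UnitAddCircle)

lemma qm_cont : Continuous qm := by
  unfold qm
  refine continuous_pi fun i => ?_
  exact (AddCircle.continuous_mk' 1).comp ((EuclideanSpace.proj (𝕜 := ℝ) i : E2 →L[ℝ] ℝ).continuous)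

lemma e_qm (m : Z2) (x : E2) : e m (qm x) = Complex.exp (2 * π * I * (inner ℝ (mE m) x : ℂ)) := by
  rw [e_eq, qm, qm, fourier_coe_apply, fourier_coe_apply, ← Complex.exp_add]
  congr 1
  rw [PiLp.inner_apply, Fin.sum_univ_two]
  simp only [mE_apply]
  push_cast
  simp
  ring

lemma e_shift (m : Z2) (N : ℕ) (x : E2) (y : T2) :
    e m (qm ((N : ℝ) • x) + y) =
      e m y * Complex.exp (2 * π * I * (inner ℝ ((N : ℝ) • mE m) x : ℂ)) := by
  rw [e_add_right, e_qm, inner_smul_left, inner_smul_right, mul_comm]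
  simp

/-- Schwartz function with Fourier bumps at the frequencies `N m` -/
noncomputable def GS (g : E2 → ℂ) (hg : ContDiff ℝ ∞ g) (N : ℕ) (y : T2) (c : Z2 →₀ ℂ) : 𝓢(E2, ℂ) :=
  ∑ m ∈ c.support, (c m * e m y) • mkB g hg ((N : ℝ) • mE m)

lemma GS_apply (g : E2 → ℂ) (hg : ContDiff ℝ ∞ g) (N : ℕ) (y : T2) (c : Z2 →₀ ℂ) (ξ : E2) :
    GS g hg N y c ξ = ∑ m ∈ c.support, (c m * e m y) * (g ξ * ((bp (ξ - (N : ℝ) • mE m) : ℝ) : ℂ)) := by
  rw [GS]
  simp only [sum_apply, smul_apply, smul_eq_mul, mkB_apply]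

lemma fourierInv_sum' {ι : Type*} (s : Finset ι) (a : ι → ℂ) (B : ι → 𝓢(E2, ℂ)) :
    𝓕⁻ (∑ m ∈ s, a m • B m) = ∑ m ∈ s, a m • 𝓕⁻ (B m) := by
  classical
  induction s using Finset.induction_on with
  | empty => simp
  | insert i s hi ih =>
    rw [Finset.sum_insert hi, Finset.sum_insert hi, FourierTransform.fourierInv_add,
      FourierTransform.fourierInv_smul, ih]

lemma GS_inv (g : E2 → ℂ) (hg : ContDiff ℝ ∞ g) (N : ℕ) (y : T2) (c : Z2 →₀ ℂ) (x : E2) :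
    (𝓕⁻ (GS g hg N y c)) x = ∑ m ∈ c.support, c m * e m (qm ((N : ℝ) • x) + y) *
      (𝓕⁻ (mkB (fun η => g ((N : ℝ) • mE m + η))
        (hg.comp (contDiff_const.add contDiff_id)) 0)) x := by
  rw [GS, fourierInv_sum']
  simp only [sum_apply, smul_apply, smul_eq_mul]
  refine Finset.sum_congr rfl fun m _ => ?_
  rw [mkB_inv, e_shift]
  ring

/-- the function -/
noncomputable def ff (N : ℕ) (y : T2) (c : Z2 →₀ ℂ) : 𝓢(E2, ℂ) :=
  𝓕⁻ (GS (fun _ => 1) contDiff_const N y c)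
/-- its Riesz transforms -/
noncomputable def rr (j : Fin 2) (N : ℕ) (y : T2) (c : Z2 →₀ ℂ) : 𝓢(E2, ℂ) :=
  𝓕⁻ (GS (st j) (st_smooth j) N y c)

lemma ff_apply (N : ℕ) (y : T2) (c : Z2 →₀ ℂ) (x : E2) :
    ff N y c x = tp c 1 (qm ((N : ℝ) • x) + y) * th x := by
  rw [ff, GS_inv, tp, Finsupp.sum, Finset.sum_mul]
  refine Finset.sum_congr rfl fun m _ => ?_
  simp only [Pi.one_apply, mul_one]
  rfl

lemma rr_apply (j : Fin 2) (N : ℕ) (y : T2) (c : Z2 →₀ ℂ) (x : E2) :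
    rr j N y c x = tp c (sg j) (qm ((N : ℝ) • x) + y) * th x +
      ∑ m ∈ c.support, c m * e m (qm ((N : ℝ) • x) + y) *
        (thj j ((N : ℝ) • mE m) x - sy j (mE m) * th x) := by
  rw [rr, GS_inv, tp, Finsupp.sum, Finset.sum_mul, ← Finset.sum_add_distrib]
  refine Finset.sum_congr rfl fun m _ => ?_
  rw [sy_mE, thj]
  ring

/-- the Fourier side vanishes near the origin -/
lemma GS_zero {g : E2 → ℂ} {hg : ContDiff ℝ ∞ g} {N : ℕ} (hN : 1 ≤ N) {y : T2} {c : Z2 →₀ ℂ}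
    (hc : Supp 1 c) {ξ : E2} (hξ : ‖ξ‖ < 1 / 2) : GS g hg N y c ξ = 0 := by
  rw [GS_apply]
  refine Finset.sum_eq_zero fun m hm => ?_
  have h1 := (hc m hm).2
  rw [← mE_norm] at h1
  have hN1 : (1 : ℝ) ≤ N := by exact_mod_cast hN
  have h2 : 1 / 2 ≤ ‖ξ - (N : ℝ) • mE m‖ := by
    have h3 := norm_sub_norm_le ((N : ℝ) • mE m) ξ
    rw [norm_smul, Real.norm_of_nonneg (by linarith), norm_sub_rev] at h3
    nlinarith
  rw [bp_zero h2]; simp

lemma GS_st {j : Fin 2} {N : ℕ} (hN : 1 ≤ N) {y : T2} {c : Z2 →₀ ℂ} (hc : Supp 1 c) (ξ : E2) :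
    GS (st j) (st_smooth j) N y c ξ = sy j ξ * GS (fun _ => 1) contDiff_const N y c ξ := by
  by_cases hξ : ‖ξ‖ < 1 / 2
  · rw [GS_zero hN hc hξ, GS_zero hN hc hξ, mul_zero]
  · rw [GS_apply, GS_apply, st_eq (by linarith), Finset.mul_sum]
    refine Finset.sum_congr rfl fun m _ => ?_
    ring

lemma sy_norm (j : Fin 2) (ξ : E2) : ‖sy j ξ‖ ≤ 1 := by
  unfold sy
  rw [norm_div, norm_mul, norm_neg, Complex.norm_I, one_mul, Complex.norm_real, Complex.norm_real,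
    norm_norm]
  apply div_le_one_of_le₀ _ (norm_nonneg _)
  exact PiLp.norm_apply_le ξ j

lemma sy_meas (j : Fin 2) : Measurable (sy j) := by
  unfold sy
  have h1 : Measurable fun ξ : E2 => ((ξ j : ℝ) : ℂ) :=
    Complex.measurable_ofReal.comp
      (EuclideanSpace.proj (𝕜 := ℝ) j : E2 →L[ℝ] ℝ).continuous.measurable
  have h2 : Measurable fun ξ : E2 => ((‖ξ‖ : ℝ) : ℂ) :=
    Complex.measurable_ofReal.comp measurable_norm
  exact (h1.const_mul _).div h2

/-- the pair `(ff, rr j)` satisfies the defining duality relation of the Riesz transform -/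
lemma riesz_rel (j : Fin 2) {N : ℕ} (hN : 1 ≤ N) (y : T2) {c : Z2 →₀ ℂ} (hc : Supp 1 c)
    (ψ : 𝓢(E2, ℂ)) :
    ∫ x, rr j N y c x * (∫ ξ, Complex.exp (-(2 * (π : ℂ) * I * (inner ℝ x ξ : ℂ))) * ψ ξ)
      = ∫ x, ff N y c x * (∫ ξ, Complex.exp (-(2 * (π : ℂ) * I * (inner ℝ x ξ : ℂ)))
        * ((-I * (inner ℝ ξ (EuclideanSpace.single j (1 : ℝ)) : ℂ) / (‖ξ‖ : ℂ)) * ψ ξ)) := by
  have hF : ∀ (u : E2 → ℂ) (x : E2),
      ∫ ξ, Complex.exp (-(2 * (π : ℂ) * I * (inner ℝ x ξ : ℂ))) * u ξ = 𝓕 u x := by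
    intro u x
    rw [Real.fourier_eq']
    congr 1
    funext ξ
    rw [smul_eq_mul, real_inner_comm]
    congr 2
    push_cast
    ring
  have hsy : ∀ ξ : E2, (-I * (inner ℝ ξ (EuclideanSpace.single j (1 : ℝ)) : ℂ) / (‖ξ‖ : ℂ)) = sy j ξ := by
    intro ξ
    rw [sy, EuclideanSpace.inner_single_right]
    simp
  simp_rw [hF, hsy]
  have hint : Integrable fun ξ => sy j ξ * ψ ξ := by
    refine ψ.integrable.bdd_mul (sy_meas j).aestronglyMeasurable (c := 1) ?_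
    exact Eventually.of_forall fun ξ => sy_norm j ξ
  have h1 : ∫ x, ff N y c x * 𝓕 (fun ξ => sy j ξ * ψ ξ) x =
      ∫ ξ, 𝓕 (ff N y c) ξ * (sy j ξ * ψ ξ) := (dual_int (ff N y c).integrable hint).symm
  have h2 : (𝓕 (ff N y c) : 𝓢(E2, ℂ)) = GS (fun _ => 1) contDiff_const N y c := by
    rw [ff, FourierTransform.fourier_fourierInv_eq]
  have h3 : ∫ x, rr j N y c x * 𝓕 (ψ : E2 → ℂ) x =
      ∫ ξ, 𝓕 (rr j N y c) ξ * ψ ξ := (dual_int (rr j N y c).integrable ψ.integrable).symm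
  have h4 : (𝓕 (rr j N y c) : 𝓢(E2, ℂ)) = GS (st j) (st_smooth j) N y c := by
    rw [rr, FourierTransform.fourier_fourierInv_eq]
  rw [h1, h3, h2, h4]
  congr 1
  funext ξ
  rw [GS_st hN hc]
  ring

/-- base frequency -/
def k0 : Z2 := ![1, 0]

lemma cm_k0 : cm k0 = 1 := by simp [cm, k0]
lemma k0_ne : k0 ≠ 0 := by
  intro h; have := congrFun h 0; simp [k0] at this

lemma GS_add (g : E2 → ℂ) (hg : ContDiff ℝ ∞ g) (N : ℕ) (y : T2) (c d : Z2 →₀ ℂ) :
    GS g hg N y (c + d) = GS g hg N y c + GS g hg N y d := by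
  have h : ∀ c : Z2 →₀ ℂ, GS g hg N y c = c.sum fun m a => (a * e m y) • mkB g hg ((N : ℝ) • mE m) :=
    fun c => rfl
  rw [h, h, h]
  apply Finsupp.sum_add_index'
  · intro m; simp
  · intro m a b; rw [add_mul, add_smul]

/-- lower bound of the maximal function -/
lemma HM_lower {N : ℕ} (hN : 1 ≤ N) (y : T2) {d : Z2 →₀ ℂ} (hd : Supp 4 d) (x : E2) :
    ‖th x‖ₑ ≤ HM ph (ff N y (Finsupp.single k0 1 + d)) x := by
  have hN0 : (0 : ℝ) < N := by exact_mod_cast hN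
  have hN1 : (1 : ℝ) ≤ N := by exact_mod_cast hN
  have ht : (0 : ℝ) < (N : ℝ)⁻¹ := inv_pos.mpr hN0
  have hle : ‖∫ z, ((((N : ℝ)⁻¹ ^ 2)⁻¹ : ℝ) : ℂ) * ph (((N : ℝ)⁻¹)⁻¹ • (x - z)) *
      ff N y (Finsupp.single k0 1 + d) z‖ₑ ≤ HM ph (ff N y (Finsupp.single k0 1 + d)) x := by
    rw [HM]
    exact le_iSup₂_of_le ((N : ℝ)⁻¹) ht le_rfl
  refine le_trans (le_of_eq ?_) hle
  rw [ff, conv_formula ht]
  have h1 : ∀ ξ : E2, (Complex.exp (2 * π * I * (inner ℝ ξ x : ℂ)) * BS ((N : ℝ)⁻¹ • ξ)) *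
      GS (fun _ => 1) contDiff_const N y (Finsupp.single k0 1 + d) ξ =
      Complex.exp (↑(2 * π * inner ℝ ξ x) * I) • (GS (fun _ => 1) contDiff_const N y (Finsupp.single k0 1)) ξ := by
    intro ξ
    have hexp : Complex.exp (2 * π * I * (inner ℝ ξ x : ℂ)) = Complex.exp (↑(2 * π * inner ℝ ξ x) * I) := by
      congr 1; push_cast; ring
    rw [hexp, smul_eq_mul, mul_assoc, GS_add, add_apply, mul_add]
    congr 1
    have hnN : ‖(N : ℝ)⁻¹ • ξ‖ = (N : ℝ)⁻¹ * ‖ξ‖ := by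
      rw [norm_smul, Real.norm_of_nonneg ht.le]
    -- high frequencies vanish
    have hz : BS ((N : ℝ)⁻¹ • ξ) * GS (fun _ => 1) contDiff_const N y d ξ = 0 := by
      by_cases h3 : 3 ≤ ‖(N : ℝ)⁻¹ • ξ‖
      · rw [BS_zero h3, zero_mul]
      · push Not at h3
        have h4 : ‖ξ‖ < 3 * N := by
          rw [hnN, inv_mul_lt_iff₀ hN0] at h3; linarith
        rw [GS_apply, Finset.sum_eq_zero, mul_zero]
        intro m hm
        have h5 := (hd m hm).2
        rw [← mE_norm] at h5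
        have h6 : 1 / 2 ≤ ‖ξ - (N : ℝ) • mE m‖ := by
          have h7 := norm_sub_norm_le ((N : ℝ) • mE m) ξ
          rw [norm_smul, Real.norm_of_nonneg hN0.le, norm_sub_rev] at h7
          nlinarith
        rw [bp_zero h6]; simp
    have ho : BS ((N : ℝ)⁻¹ • ξ) * GS (fun _ => 1) contDiff_const N y (Finsupp.single k0 1) ξ =
        GS (fun _ => 1) contDiff_const N y (Finsupp.single k0 1) ξ := by
      by_cases h3 : ‖(N : ℝ)⁻¹ • ξ‖ ≤ 2
      · rw [BS_one h3, one_mul]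
      · push Not at h3
        have h4 : 2 * N < ‖ξ‖ := by
          rw [hnN, lt_inv_mul_iff₀ hN0] at h3; linarith
        have h8 : GS (fun _ => 1) contDiff_const N y (Finsupp.single k0 1) ξ = 0 := by
          rw [GS_apply]
          refine Finset.sum_eq_zero fun m hm => ?_
          have h9 : m = k0 := by
            have := Finsupp.support_single_subset hm
            simpa using this
          have h6 : 1 / 2 ≤ ‖ξ - (N : ℝ) • mE m‖ := by
            have h7 := norm_sub_norm_le ξ ((N : ℝ) • mE m)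
            rw [norm_smul, Real.norm_of_nonneg hN0.le, h9, mE_norm, cm_k0, norm_one] at h7
            rw [h9]
            linarith
          rw [bp_zero h6]; simp
        rw [h8, mul_zero]
    rw [ho, hz, add_zero]
  simp_rw [h1]
  have h2 := ff_apply N y (Finsupp.single k0 1) x
  rw [ff, SchwartzMap.fourierInv_coe, Real.fourierInv_eq'] at h2
  rw [h2, tp_single, Pi.one_apply, enorm_mul, enorm_mul]
  have h3 : ‖e k0 (qm ((N : ℝ) • x) + y)‖ₑ = 1 := by
    rw [← ofReal_norm, e_norm]; simp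
  rw [h3]
  simp

end Pool.Agent.N310.HR
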