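import Pool.Agent.N310.HR.Fin1

/-!
# Final assembly: the first order Riesz transforms do not characterise `H^p(ℝ²)` for small `p`
-/

set_option autoImplicit false

open MeasureTheory Complex Set Filter Metric
open scoped ENNReal Topology Real SchwartzMap FourierTransform ContDiff

namespace Pool.Agent.N310.HR

/-- error term -/
noncomputable def Er (p : ℝ) (j : Fin 2) (c : Z2 →₀ ℂ) (N : ℕ) : ℝ≥0∞ :=
  ∑ m ∈ c.support, ‖c m‖ₑ ^ p * ∫⁻ x, ‖thj j ((N : ℝ) • mE m) x - sy j (mE m) * th x‖ₑ ^ p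

lemma Er_tendsto {p : ℝ} (hp : 0 < p) (j : Fin 2) {c : Z2 →₀ ℂ} (hc : Supp 1 c) :
    Tendsto (Er p j c) atTop (𝓝 0) := by
  unfold Er
  rw [show (0 : ℝ≥0∞) = ∑ m ∈ c.support, (0 : ℝ≥0∞) by simp]
  refine tendsto_finsetSum _ fun m hm => ?_
  have h1 := thj_tendsto j (M := mE m) (by rw [mE_norm]; exact (hc m hm).2) (ENNReal.ofReal p)
  have h2 : ∀ N : ℕ, ∫⁻ x, ‖thj j ((N : ℝ) • mE m) x - sy j (mE m) * th x‖ₑ ^ p =
      (eLpNorm (fun x => thj j ((N : ℝ) • mE m) x - sy j (mE m) * th x) (ENNReal.ofReal p) volume) ^ p := by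
    intro N
    rw [eLpNorm_eq_lintegral_rpow_enorm_toReal (by simpa using hp) (by simp),
      ENNReal.toReal_ofReal hp.le, ← ENNReal.rpow_mul, one_div, inv_mul_cancel₀ hp.ne',
      ENNReal.rpow_one]
  simp_rw [h2]
  have h3 := ((ENNReal.continuous_rpow_const (y := p)).tendsto 0).comp h1
  rw [ENNReal.zero_rpow_of_pos hp] at h3
  have h4 := ENNReal.Tendsto.const_mul (a := ‖c m‖ₑ ^ p) h3
    (Or.inr (ENNReal.rpow_ne_top_of_nonneg hp.le (by simp)))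
  rw [mul_zero] at h4
  exact h4

lemma enorm_e (m : Z2) (x : T2) : ‖e m x‖ₑ = 1 := by
  rw [← ofReal_norm, e_norm]; simp

lemma sum_rpow_le {p : ℝ} (hp : 0 < p) (hp1 : p ≤ 1) {ι : Type*} (s : Finset ι) (v : ι → ℝ≥0∞) :
    (∑ i ∈ s, v i) ^ p ≤ ∑ i ∈ s, v i ^ p := by
  classical
  induction s using Finset.induction_on with
  | empty => simp [hp]
  | insert a s ha ih =>
    rw [Finset.sum_insert ha, Finset.sum_insert ha]
    exact (ENNReal.rpow_add_le_add_rpow _ _ hp.le hp1).trans (add_le_add le_rfl ih)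

lemma rr_bound {p : ℝ} (hp : 0 < p) (hp1 : p ≤ 1) (j : Fin 2) (N : ℕ) (y : T2) (c : Z2 →₀ ℂ) (x : E2) :
    ‖rr j N y c x‖ₑ ^ p ≤ ‖tp c (sg j) (qm ((N : ℝ) • x) + y)‖ₑ ^ p * ‖th x‖ₑ ^ p +
      ∑ m ∈ c.support, ‖c m‖ₑ ^ p * ‖thj j ((N : ℝ) • mE m) x - sy j (mE m) * th x‖ₑ ^ p := by
  rw [rr_apply]
  calc _ ≤ (‖tp c (sg j) (qm ((N : ℝ) • x) + y) * th x‖ₑ +
        ∑ m ∈ c.support, ‖c m‖ₑ * ‖thj j ((N : ℝ) • mE m) x - sy j (mE m) * th x‖ₑ) ^ p := by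
        apply ENNReal.rpow_le_rpow _ hp.le
        refine (enorm_add_le _ _).trans (add_le_add le_rfl ?_)
        refine (enorm_sum_le _ _).trans (Finset.sum_le_sum fun m _ => ?_)
        rw [enorm_mul, enorm_mul, enorm_e, mul_one]
    _ ≤ _ := by
        refine (ENNReal.rpow_add_le_add_rpow _ _ hp.le hp1).trans (add_le_add ?_ ?_)
        · rw [enorm_mul, ENNReal.mul_rpow_of_nonneg _ _ hp.le]
        · refine (sum_rpow_le hp hp1 _ _).trans (Finset.sum_le_sum fun m _ => ?_)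
          rw [ENNReal.mul_rpow_of_nonneg _ _ hp.le]

/-- total `p`-energy -/
noncomputable def Tot (p : ℝ) (N : ℕ) (y : T2) (c : Z2 →₀ ℂ) : ℝ≥0∞ :=
  (∫⁻ x, ‖ff N y c x‖ₑ ^ p) + (∫⁻ x, ‖rr 0 N y c x‖ₑ ^ p) + (∫⁻ x, ‖rr 1 N y c x‖ₑ ^ p)

lemma Tot_le {p : ℝ} (hp : 0 < p) (hp1 : p ≤ 1) (N : ℕ) (y : T2) (c : Z2 →₀ ℂ) :
    Tot p N y c ≤ (∫⁻ x, tri p c (qm ((N : ℝ) • x) + y) * ‖th x‖ₑ ^ p) +
      (Er p 0 c N + Er p 1 c N) := by
  have hqm : Measurable fun x : E2 => qm ((N : ℝ) • x) + y :=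
    ((qm_cont.comp (continuous_const_smul (N : ℝ))).add continuous_const).measurable
  have hth : Measurable fun x => ‖th x‖ₑ ^ p := (th.continuous.measurable.enorm).pow_const p
  have hm : ∀ σ : Z2 → ℂ, Measurable fun x : E2 => ‖tp c σ (qm ((N : ℝ) • x) + y)‖ₑ ^ p * ‖th x‖ₑ ^ p :=
    fun σ => ((((tp_meas c σ).comp hqm).enorm).pow_const p).mul hth
  have hr : ∀ j : Fin 2, ∫⁻ x, ‖rr j N y c x‖ₑ ^ p ≤
      (∫⁻ x, ‖tp c (sg j) (qm ((N : ℝ) • x) + y)‖ₑ ^ p * ‖th x‖ₑ ^ p) + Er p j c N := by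
    intro j
    have hd : ∀ m : Z2, Measurable fun x : E2 => ‖thj j ((N : ℝ) • mE m) x - sy j (mE m) * th x‖ₑ ^ p :=
      fun m => ((thj j ((N : ℝ) • mE m)).continuous.measurable.sub
        (th.continuous.measurable.const_mul _)).enorm.pow_const p
    calc ∫⁻ x, ‖rr j N y c x‖ₑ ^ p
        ≤ ∫⁻ x, (‖tp c (sg j) (qm ((N : ℝ) • x) + y)‖ₑ ^ p * ‖th x‖ₑ ^ p +
      ∑ m ∈ c.support, ‖c m‖ₑ ^ p * ‖thj j ((N : ℝ) • mE m) x - sy j (mE m) * th x‖ₑ ^ p) :=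
          lintegral_mono fun x => rr_bound hp hp1 j N y c x
      _ = _ := by
        rw [lintegral_add_left (hm _), lintegral_finsetSum _ fun m _ => (hd m).const_mul _, Er]
        congr 1
        refine Finset.sum_congr rfl fun m _ => ?_
        rw [lintegral_const_mul _ (hd m)]
  have hf : ∫⁻ x, ‖ff N y c x‖ₑ ^ p = ∫⁻ x, ‖tp c 1 (qm ((N : ℝ) • x) + y)‖ₑ ^ p * ‖th x‖ₑ ^ p := by
    congr 1
    funext x
    rw [ff_apply, enorm_mul, ENNReal.mul_rpow_of_nonneg _ _ hp.le]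
  have hsum : ∫⁻ x, tri p c (qm ((N : ℝ) • x) + y) * ‖th x‖ₑ ^ p =
      (∫⁻ x, ‖tp c 1 (qm ((N : ℝ) • x) + y)‖ₑ ^ p * ‖th x‖ₑ ^ p) +
      (∫⁻ x, ‖tp c (sg 0) (qm ((N : ℝ) • x) + y)‖ₑ ^ p * ‖th x‖ₑ ^ p) +
      (∫⁻ x, ‖tp c (sg 1) (qm ((N : ℝ) • x) + y)‖ₑ ^ p * ‖th x‖ₑ ^ p) := by
    have h12 : Measurable fun x : E2 => ‖tp c 1 (qm ((N : ℝ) • x) + y)‖ₑ ^ p * ‖th x‖ₑ ^ p +
        ‖tp c (sg 0) (qm ((N : ℝ) • x) + y)‖ₑ ^ p * ‖th x‖ₑ ^ p := (hm 1).add (hm (sg 0))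
    rw [← lintegral_add_left (hm 1), ← lintegral_add_left h12]
    refine lintegral_congr fun x => ?_
    rw [tri]; ring
  rw [Tot, hf, hsum]
  calc _ ≤ _ := add_le_add (add_le_add le_rfl (hr 0)) (hr 1)
    _ = _ := by ring

lemma exists_shift {p : ℝ} (c : Z2 →₀ ℂ) (N : ℕ) :
    ∃ y : T2, ∫⁻ x, tri p c (qm ((N : ℝ) • x) + y) * ‖th x‖ₑ ^ p ≤
      (∫⁻ x, ‖th x‖ₑ ^ p) * ∫⁻ z, tri p c z ∂μT := by
  have hmeas : Measurable fun q : T2 × E2 => tri p c (qm ((N : ℝ) • q.2) + q.1) * ‖th q.2‖ₑ ^ p := by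
    have h1 : Measurable fun q : T2 × E2 => qm ((N : ℝ) • q.2) + q.1 :=
      ((qm_cont.comp ((continuous_const_smul (N : ℝ)).comp continuous_snd)).add continuous_fst).measurable
    have h2 : Measurable fun q : T2 × E2 => ‖th q.2‖ₑ ^ p :=
      ((th.continuous.measurable.comp measurable_snd).enorm).pow_const p
    exact ((tri_meas p c).comp h1).mul h2
  obtain ⟨y, hy⟩ := exists_le_lintegral (μ := μT)
    (f := fun y => ∫⁻ x, tri p c (qm ((N : ℝ) • x) + y) * ‖th x‖ₑ ^ p)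
    (hmeas.lintegral_prod_right').aemeasurable
  refine ⟨y, hy.trans (le_of_eq ?_)⟩
  rw [lintegral_lintegral_swap hmeas.aemeasurable]
  have h3 : ∀ x : E2, ∫⁻ y, tri p c (qm ((N : ℝ) • x) + y) * ‖th x‖ₑ ^ p ∂μT =
      ‖th x‖ₑ ^ p * ∫⁻ z, tri p c z ∂μT := by
    intro x
    rw [lintegral_mul_const (f := fun y => tri p c (qm ((N : ℝ) • x) + y)) _
      ((tri_meas p c).comp (measurable_id.const_add (qm ((N : ℝ) • x)))),
      lintegral_add_left_eq_self (μ := μT) (tri p c) (qm ((N : ℝ) • x)), mul_comm]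
  simp_rw [h3]
  rw [lintegral_mul_const _ ((th.continuous.measurable.enorm).pow_const p)]

lemma th_pos {p : ℝ} : ∫⁻ x, ‖th x‖ₑ ^ p ≠ 0 := by
  intro h
  rw [lintegral_eq_zero_iff ((th.continuous.measurable.enorm).pow_const p)] at h
  have h1 : (th : E2 → ℂ) =ᵐ[volume] fun _ => 0 := by
    filter_upwards [h] with x hx
    simp only [Pi.zero_apply, ENNReal.rpow_eq_zero_iff] at hx
    rcases hx with ⟨h2, _⟩ | ⟨h2, _⟩
    · simpa using h2
    · simp at h2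
  have h2 : (th : E2 → ℂ) = fun _ => 0 :=
    (Continuous.ae_eq_iff_eq volume th.continuous continuous_const).mp h1
  have h3 : (𝓕 th : 𝓢(E2, ℂ)) 0 = 0 := by
    rw [SchwartzMap.fourier_coe, Real.fourier_eq', h2]
    simp
  rw [th, FourierTransform.fourier_fourierInv_eq, mkB_apply, sub_zero] at h3
  have h4 : bp (0 : E2) = 1 := bp.one_of_mem_closedBall (by simp [bp.rIn_pos.le])
  rw [h4] at h3
  simp at h3

lemma th_fin {p : ℝ} (hp : 0 < p) : ∫⁻ x, ‖th x‖ₑ ^ p ≠ ⊤ := by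
  have h1 := th.eLpNorm_lt_top (ENNReal.ofReal p) (volume : Measure E2)
  rw [eLpNorm_eq_lintegral_rpow_enorm_toReal (by simpa using hp) (by simp),
    ENNReal.toReal_ofReal hp.le] at h1
  intro h
  rw [h, ENNReal.top_rpow_of_pos (by positivity)] at h1
  exact absurd h1 (lt_irrefl _)

/-- for small `p` the total energy can be made arbitrarily small while the maximal function
stays bounded below -/
theorem small_energy : ∃ p : ℝ, 0 < p ∧ p < 1 / 2 ∧ ∀ τ : ℝ≥0∞, τ ≠ 0 →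
    ∃ (N : ℕ) (y : T2) (d : Z2 →₀ ℂ), 1 ≤ N ∧ Supp 4 d ∧
      Tot p N y (Finsupp.single k0 1 + d) ≤ τ := by
  obtain ⟨p, hp, hp2, hden⟩ := density_cplx
  refine ⟨p, hp, hp2, fun τ hτ => ?_⟩
  have hτ4 : τ / 4 ≠ 0 := (ENNReal.div_pos hτ (by simp)).ne'
  obtain ⟨ε, hε0, hε⟩ := ENNReal.exists_nnreal_pos_mul_lt (a := ∫⁻ x, ‖th x‖ₑ ^ p) (b := τ / 4)
    (th_fin hp) hτ4
  obtain ⟨d, hd, hle⟩ := hden k0 k0_ne 4 ε (by exact_mod_cast hε0.ne')
  set c := Finsupp.single k0 (1 : ℂ) + d with hc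
  have hc1 : Supp 1 c := Supp_add (Supp_single k0_ne (by rw [cm_k0, norm_one]) _)
    (fun m hm => ⟨(hd m hm).1, by linarith [(hd m hm).2]⟩)
  obtain ⟨N, h0, h1, hN⟩ := (((Er_tendsto hp 0 hc1).eventually_le_const (pos_iff_ne_zero.mpr hτ4)).and
    (((Er_tendsto hp 1 hc1).eventually_le_const (pos_iff_ne_zero.mpr hτ4)).and
      (eventually_ge_atTop 1))).exists
  obtain ⟨y, hy⟩ := exists_shift (p := p) c N
  refine ⟨N, y, d, hN, hd, ?_⟩
  calc Tot p N y c ≤ _ := Tot_le hp (by linarith) N y c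
    _ ≤ τ / 4 + (τ / 4 + τ / 4) := by
      gcongr
      refine hy.trans ?_
      calc _ ≤ (∫⁻ x, ‖th x‖ₑ ^ p) * ε := by gcongr
        _ ≤ τ / 4 := by rw [mul_comm]; exact hε.le
    _ ≤ τ / 4 + (τ / 4 + τ / 4) + τ / 4 := le_self_add
    _ = τ := by
      have : τ / 4 + (τ / 4 + τ / 4) + τ / 4 = 4 * (τ / 4) := by ring
      rw [this]
      exact ENNReal.mul_div_cancel (by norm_num) (by norm_num)

/-- the failure of the Riesz transform characterisation -/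
theorem failure : ∃ p : ℝ, 0 < p ∧ p < 1 / 2 ∧ ∀ c : ℝ, 0 < c →
    ∃ (f : 𝓢(E2, ℂ)) (R : Fin 2 → 𝓢(E2, ℂ)),
      eLpNorm (HM ph f) (ENNReal.ofReal p) volume < ⊤ ∧
      (∀ j, ∀ ψ : 𝓢(E2, ℂ),
        ∫ x, R j x * (∫ ξ, Complex.exp (-(2 * (π : ℂ) * I * (inner ℝ x ξ : ℂ))) * ψ ξ)
          = ∫ x, f x * (∫ ξ, Complex.exp (-(2 * (π : ℂ) * I * (inner ℝ x ξ : ℂ)))
              * ((-I * (inner ℝ ξ (EuclideanSpace.single j (1 : ℝ)) : ℂ) / (‖ξ‖ : ℂ)) * ψ ξ))) ∧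
      eLpNorm f (ENNReal.ofReal p) volume + ∑ j, eLpNorm (R j) (ENNReal.ofReal p) volume <
        ENNReal.ofReal c * eLpNorm (HM ph f) (ENNReal.ofReal p) volume := by
  obtain ⟨p, hp, hp2, hsm⟩ := small_energy
  refine ⟨p, hp, hp2, fun c hc => ?_⟩
  have hpe : ∀ g : E2 → ℂ, eLpNorm g (ENNReal.ofReal p) volume = (∫⁻ x, ‖g x‖ₑ ^ p) ^ (1 / p) := by
    intro g
    rw [eLpNorm_eq_lintegral_rpow_enorm_toReal (by simpa using hp) (by simp),
      ENNReal.toReal_ofReal hp.le]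
  set A : ℝ≥0∞ := ENNReal.ofReal c * (∫⁻ x, ‖th x‖ₑ ^ p) ^ (1 / p) with hA
  have hA0 : A ≠ 0 := by
    rw [hA]
    apply mul_ne_zero
    · simp [hc]
    · intro h
      rw [ENNReal.rpow_eq_zero_iff] at h
      rcases h with ⟨h, _⟩ | ⟨h, _⟩
      · exact th_pos h
      · exact th_fin hp h
  have hAt : A ≠ ⊤ := by
    rw [hA]
    exact ENNReal.mul_ne_top ENNReal.ofReal_ne_top
      (ENNReal.rpow_ne_top_of_nonneg (by positivity) (th_fin hp))
  have hA6 : A / 6 ≠ 0 := (ENNReal.div_pos hA0 (by simp)).ne'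
  have hA6t : A / 6 ≠ ⊤ := ENNReal.div_ne_top hAt (by simp)
  obtain ⟨N, y, d, hN, hd, hT⟩ := hsm ((A / 6) ^ p) (by
    intro h
    rw [ENNReal.rpow_eq_zero_iff] at h
    rcases h with ⟨h, _⟩ | ⟨h, _⟩
    · exact hA6 h
    · exact hA6t h)
  set c' := Finsupp.single k0 (1 : ℂ) + d with hc'
  have hc1 : Supp 1 c' := Supp_add (Supp_single k0_ne (by rw [cm_k0, norm_one]) _)
    (fun m hm => ⟨(hd m hm).1, by linarith [(hd m hm).2]⟩)
  refine ⟨ff N y c', fun j => rr j N y c', ?_, fun j ψ => riesz_rel j hN y hc1 ψ, ?_⟩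
  · exact HM_finite (fun ξ hξ => GS_zero hN hc1 hξ) _
  · have hroot : ∀ g : E2 → ℂ, ∫⁻ x, ‖g x‖ₑ ^ p ≤ (A / 6) ^ p →
        eLpNorm g (ENNReal.ofReal p) volume ≤ A / 6 := by
      intro g hg
      rw [hpe]
      calc _ ≤ ((A / 6) ^ p) ^ (1 / p) := by gcongr
        _ = A / 6 := by
          rw [← ENNReal.rpow_mul, mul_one_div_cancel hp.ne', ENNReal.rpow_one]
    have b1 : ∫⁻ x, ‖ff N y c' x‖ₑ ^ p ≤ (A / 6) ^ p := by
      refine le_trans ?_ hT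
      unfold Tot
      exact le_self_add.trans le_self_add
    have b2 : ∫⁻ x, ‖rr 0 N y c' x‖ₑ ^ p ≤ (A / 6) ^ p := by
      refine le_trans ?_ hT
      unfold Tot
      exact le_add_self.trans le_self_add
    have b3 : ∫⁻ x, ‖rr 1 N y c' x‖ₑ ^ p ≤ (A / 6) ^ p := by
      refine le_trans ?_ hT
      unfold Tot
      exact le_add_self
    rw [Fin.sum_univ_two]
    calc _ ≤ A / 6 + (A / 6 + A / 6) := by
          gcongr
          · exact hroot _ b1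
          · exact hroot _ b2
          · exact hroot _ b3
      _ = A / 2 := by
          have h1 : A / 6 + (A / 6 + A / 6) = 3 * (A / 6) := by ring
          rw [h1, ← ENNReal.toReal_eq_toReal_iff' (by finiteness) (by finiteness)]
          simp [ENNReal.toReal_mul, ENNReal.toReal_div]
          ring
      _ < A := ENNReal.half_lt_self hA0 hAt
      _ ≤ _ := by
          rw [hA, ← hpe]
          gcongr
          apply eLpNorm_mono_enorm
          intro x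
          rw [enorm_eq_self]
          exact HM_lower hN y hd x

end Pool.Agent.N310.HR
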