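import Pool.Agent.N310.HR.Euc

/-!
# The radial maximal function of band limited functions
-/

set_option autoImplicit false

open MeasureTheory Complex Set Filter Metric
open scoped ENNReal Topology Real SchwartzMap FourierTransform ContDiff

namespace Pool.Agent.N310.HR

/-- low pass bump -/
noncomputable def bq : ContDiffBump (0 : E2) := ⟨2, 3, by norm_num, by norm_num⟩

noncomputable def BS : 𝓢(E2, ℂ) :=
  HasCompactSupport.toSchwartzMap (f := fun ξ : E2 => ((bq ξ : ℝ) : ℂ))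
    (bq.hasCompactSupport.comp_left (g := fun x : ℝ => (x : ℂ)) (by simp))
    (Complex.ofRealCLM.contDiff.comp bq.contDiff)

lemma BS_apply (ξ : E2) : BS ξ = ((bq ξ : ℝ) : ℂ) := rfl

lemma BS_one {ξ : E2} (h : ‖ξ‖ ≤ 2) : BS ξ = 1 := by
  rw [BS_apply, bq.one_of_mem_closedBall (by rw [mem_closedBall, dist_zero_right]; exact h)]; simp

lemma BS_zero {ξ : E2} (h : 3 ≤ ‖ξ‖) : BS ξ = 0 := by
  rw [BS_apply, bq.zero_of_le_dist (by rw [dist_zero_right]; exact h)]; simp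

/-- the mollifier -/
noncomputable def ph : 𝓢(E2, ℂ) := 𝓕⁻ BS

lemma ph_int : ∫ x, ph x = 1 := by
  have h1 : (𝓕 ph) 0 = ∫ x, ph x := by
    rw [SchwartzMap.fourier_coe, Real.fourier_eq']
    simp
  rw [← h1, ph, FourierTransform.fourier_fourierInv_eq]
  exact BS_one (by simp)

lemma conv_formula {t : ℝ} (ht : 0 < t) (G : 𝓢(E2, ℂ)) (x : E2) :
    ∫ y, (((t ^ 2)⁻¹ : ℝ) : ℂ) * ph (t⁻¹ • (x - y)) * (𝓕⁻ G) y =
      ∫ ξ, (Complex.exp (2 * π * I * (inner ℝ ξ x : ℂ)) * BS (t • ξ)) * G ξ := by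
  set u : E2 → ℂ := fun ξ => Complex.exp (2 * π * I * (inner ℝ ξ x : ℂ)) * BS (t • ξ) with hu
  have hnorm : ∀ ξ : E2, ‖Complex.exp (2 * π * I * (inner ℝ ξ x : ℂ))‖ = 1 := by
    intro ξ
    have : (2 * π * I * (inner ℝ ξ x : ℂ) : ℂ) = ((2 * π * inner ℝ ξ x : ℝ) : ℂ) * I := by
      push_cast; ring
    rw [this, Complex.norm_exp_ofReal_mul_I]
  have hui : Integrable u := by
    have h1 : Integrable fun ξ : E2 => BS (t • ξ) := BS.integrable.comp_smul ht.ne'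
    refine h1.mono ?_ (Eventually.of_forall fun ξ => ?_)
    · apply Continuous.aestronglyMeasurable
      have := BS.continuous
      fun_prop
    · rw [hu]; simp only [norm_mul, hnorm, one_mul]; exact le_rfl
  have hF : ∀ y, 𝓕 u y = (((t ^ 2)⁻¹ : ℝ) : ℂ) * ph (t⁻¹ • (x - y)) := by
    intro y
    rw [Real.fourier_eq', ph, SchwartzMap.fourierInv_coe, Real.fourierInv_eq']
    have h1 := Measure.integral_comp_smul (volume : Measure E2)
      (fun w => Complex.exp (↑(2 * π * inner ℝ w (t⁻¹ • (x - y))) * I) • BS w) t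
    have h2 : |(t ^ Module.finrank ℝ E2)⁻¹| = (t ^ 2)⁻¹ := by
      rw [finrank_euclideanSpace, Fintype.card_fin, abs_of_pos (by positivity)]
    rw [h2] at h1
    have h3 : (((t ^ 2)⁻¹ : ℝ) : ℂ) * ∫ w, Complex.exp (↑(2 * π * inner ℝ w (t⁻¹ • (x - y))) * I) • BS w
      = (t ^ 2)⁻¹ • ∫ w, Complex.exp (↑(2 * π * inner ℝ w (t⁻¹ • (x - y))) * I) • BS w := by
      rw [Complex.real_smul]
    rw [h3, ← h1]
    congr 1
    funext v
    simp only [hu, smul_eq_mul]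
    rw [← mul_assoc, ← Complex.exp_add]
    congr 2
    rw [inner_smul_left, inner_smul_right, inner_sub_right]
    simp only [conj_trivial]
    rw [← mul_assoc t, mul_inv_cancel₀ ht.ne', one_mul]
    push_cast
    ring
  have h1 := dual_int hui (𝓕⁻ G : 𝓢(E2, ℂ)).integrable
  have h2 : (𝓕 (⇑(𝓕⁻ G : 𝓢(E2, ℂ))) : E2 → ℂ) = G := by
    rw [← SchwartzMap.fourier_coe, FourierTransform.fourier_fourierInv_eq]
  rw [h2] at h1
  rw [← h1]
  congr 1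
  funext y
  rw [hF y]

/-- radial maximal function -/
noncomputable def HM (φ f : E2 → ℂ) (x : E2) : ℝ≥0∞ :=
  ⨆ (t : ℝ) (_ : 0 < t), ‖∫ y, (((t ^ 2)⁻¹ : ℝ) : ℂ) * φ (t⁻¹ • (x - y)) * f y‖ₑ

lemma conv_zero {G : 𝓢(E2, ℂ)} (hG : ∀ ξ, ‖ξ‖ < 1 / 2 → G ξ = 0) {t : ℝ} (ht : 6 ≤ t) (x : E2) :
    ∫ y, (((t ^ 2)⁻¹ : ℝ) : ℂ) * ph (t⁻¹ • (x - y)) * (𝓕⁻ G) y = 0 := by
  rw [conv_formula (by linarith)]
  apply integral_eq_zero_of_ae
  refine Eventually.of_forall fun ξ => ?_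
  simp only [Pi.zero_apply]
  by_cases h : ‖ξ‖ < 1 / 2
  · rw [hG ξ h, mul_zero]
  · push Not at h
    rw [BS_zero]
    · simp
    · rw [norm_smul, Real.norm_of_nonneg (by linarith)]
      nlinarith

lemma conv_bound (f : 𝓢(E2, ℂ)) (L : ℕ) : ∃ C : ℝ, 0 ≤ C ∧ ∀ t : ℝ, 0 < t → t ≤ 6 → ∀ x : E2,
    ‖∫ y, (((t ^ 2)⁻¹ : ℝ) : ℂ) * ph (t⁻¹ • (x - y)) * f y‖ ≤ C * ((1 + ‖x‖) ^ L)⁻¹ := by
  obtain ⟨Cf, hCf⟩ : ∃ Cf : ℝ, ∀ y, (1 + ‖y‖) ^ L * ‖f y‖ ≤ Cf := by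
    refine ⟨2 ^ L * (((Finset.Iic (L, 0)).sup fun m => SchwartzMap.seminorm ℝ m.1 m.2) f),
      fun y => ?_⟩
    have := SchwartzMap.one_add_le_sup_seminorm_apply (𝕜 := ℝ) (m := (L, 0)) (k := L) (n := 0)
      le_rfl le_rfl f y
    simpa using this
  have hCf0 : 0 ≤ Cf := le_trans (by positivity) (hCf 0)
  set ψ : E2 → ℝ := fun w => ‖ph w‖ * (1 + 6 * ‖w‖) ^ L with hψ
  have hψi : Integrable ψ := by
    have h1 : Integrable fun w : E2 => 2 ^ (L - 1) * (‖ph w‖ + 6 ^ L * (‖w‖ ^ L * ‖ph w‖)) :=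
      (ph.integrable.norm.add ((ph.integrable_pow_mul volume L).const_mul _)).const_mul _
    refine h1.mono ?_ (Eventually.of_forall fun w => ?_)
    · apply Continuous.aestronglyMeasurable
      have := ph.continuous
      fun_prop
    · rw [Real.norm_of_nonneg (by positivity), Real.norm_of_nonneg (by positivity), hψ]
      have h2 := add_pow_le (zero_le_one (α := ℝ)) (by positivity : 0 ≤ 6 * ‖w‖) L
      rw [one_pow, mul_pow] at h2
      calc ‖ph w‖ * (1 + 6 * ‖w‖) ^ L ≤ ‖ph w‖ * (2 ^ (L - 1) * (1 + 6 ^ L * ‖w‖ ^ L)) := by gcongr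
        _ = _ := by ring
  refine ⟨Cf * ∫ w, ψ w, mul_nonneg hCf0 (integral_nonneg fun w => by positivity), ?_⟩
  intro t ht ht6 x
  have hx : 0 < (1 + ‖x‖) ^ L := by positivity
  rw [← div_eq_mul_inv, le_div_iff₀ hx]
  have hI : ∫ y, ψ (t⁻¹ • (x - y)) = t ^ 2 * ∫ w, ψ w := by
    rw [integral_sub_left_eq_self (fun y => ψ (t⁻¹ • y)) volume x,
      Measure.integral_comp_smul]
    rw [finrank_euclideanSpace, Fintype.card_fin, abs_of_pos (by positivity)]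
    simp
  have hψi' : Integrable fun y => ψ (t⁻¹ • (x - y)) :=
    (hψi.comp_smul (inv_ne_zero ht.ne')).comp_sub_left x
  calc ‖∫ y, (((t ^ 2)⁻¹ : ℝ) : ℂ) * ph (t⁻¹ • (x - y)) * f y‖ * (1 + ‖x‖) ^ L
      ≤ (∫ y, ‖(((t ^ 2)⁻¹ : ℝ) : ℂ) * ph (t⁻¹ • (x - y)) * f y‖) * (1 + ‖x‖) ^ L := by
        gcongr
        exact norm_integral_le_integral_norm _
    _ = ∫ y, ‖(((t ^ 2)⁻¹ : ℝ) : ℂ) * ph (t⁻¹ • (x - y)) * f y‖ * (1 + ‖x‖) ^ L := by
        rw [integral_mul_const]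
    _ ≤ ∫ y, (t ^ 2)⁻¹ * Cf * ψ (t⁻¹ • (x - y)) := by
        apply integral_mono_of_nonneg (Eventually.of_forall fun y => by positivity)
          (hψi'.const_mul _)
        refine Eventually.of_forall fun y => ?_
        simp only
        rw [norm_mul, norm_mul, Complex.norm_real, Real.norm_of_nonneg (by positivity)]
        set w := t⁻¹ • (x - y) with hw
        have h1 : ‖x - y‖ ≤ 6 * ‖w‖ := by
          rw [hw, norm_smul, norm_inv, Real.norm_of_nonneg ht.le]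
          have : ‖x - y‖ = t * (t⁻¹ * ‖x - y‖) := by
            rw [← mul_assoc, mul_inv_cancel₀ ht.ne', one_mul]
          calc ‖x - y‖ = t * (t⁻¹ * ‖x - y‖) := this
            _ ≤ 6 * (t⁻¹ * ‖x - y‖) := by gcongr
        have h2 : 1 + ‖x‖ ≤ (1 + 6 * ‖w‖) * (1 + ‖y‖) := by
          have h3 : ‖x‖ ≤ ‖x - y‖ + ‖y‖ := by
            have := norm_add_le (x - y) y
            rwa [sub_add_cancel] at this
          nlinarith [norm_nonneg y, norm_nonneg w, mul_nonneg (norm_nonneg w) (norm_nonneg y)]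
        have h4 : (1 + ‖x‖) ^ L ≤ (1 + 6 * ‖w‖) ^ L * (1 + ‖y‖) ^ L := by
          rw [← mul_pow]; gcongr
        calc (t ^ 2)⁻¹ * ‖ph w‖ * ‖f y‖ * (1 + ‖x‖) ^ L
            ≤ (t ^ 2)⁻¹ * ‖ph w‖ * ‖f y‖ * ((1 + 6 * ‖w‖) ^ L * (1 + ‖y‖) ^ L) := by gcongr
          _ = (t ^ 2)⁻¹ * ((1 + ‖y‖) ^ L * ‖f y‖) * (‖ph w‖ * (1 + 6 * ‖w‖) ^ L) := by ring
          _ ≤ (t ^ 2)⁻¹ * Cf * (‖ph w‖ * (1 + 6 * ‖w‖) ^ L) := by
            gcongr
            exact hCf y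
    _ = Cf * ∫ w, ψ w := by
        rw [integral_const_mul, hI]
        field_simp

lemma HM_finite {G : 𝓢(E2, ℂ)} (hG : ∀ ξ, ‖ξ‖ < 1 / 2 → G ξ = 0) (p : ℝ≥0∞) :
    eLpNorm (HM ph (𝓕⁻ G : 𝓢(E2, ℂ))) p volume < ⊤ := by
  obtain ⟨k, hk⟩ := (inferInstance : (volume : Measure E2).HasTemperateGrowth).exists_eLpNorm_lt_top p
  obtain ⟨C, hC0, hC⟩ := conv_bound (𝓕⁻ G : 𝓢(E2, ℂ)) k
  have hpt : ∀ x, ‖HM ph (𝓕⁻ G : 𝓢(E2, ℂ)) x‖ₑ ≤ ‖C • ((1 + ‖x‖) ^ (-(k : ℝ)))‖ₑ := by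
    intro x
    rw [enorm_eq_self, HM]
    refine iSup₂_le fun t ht => ?_
    have h1 : (1 + ‖x‖) ^ (-(k : ℝ)) = ((1 + ‖x‖) ^ k)⁻¹ := by
      rw [Real.rpow_neg (by positivity), Real.rpow_natCast]
    rw [h1]
    by_cases ht6 : t ≤ 6
    · rw [← ofReal_norm, ← ofReal_norm]
      apply ENNReal.ofReal_le_ofReal
      refine (hC t ht ht6 x).trans (le_of_eq ?_)
      rw [smul_eq_mul, Real.norm_of_nonneg (by positivity)]
    · rw [conv_zero hG (by linarith)]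
      simp
  refine lt_of_le_of_lt (eLpNorm_mono_enorm hpt) ?_
  have h2 := eLpNorm_const_smul_le (c := C) (f := fun x : E2 => (1 + ‖x‖) ^ (-(k : ℝ))) (p := p)
    (μ := volume)
  refine lt_of_le_of_lt h2 ?_
  exact ENNReal.mul_lt_top (by simp) hk

end Pool.Agent.N310.HR
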