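import Pool.Agent.N310.HR.Torus

/-!
# Kolmogorov's inequality along characters of the torus
-/

set_option autoImplicit false

open MeasureTheory Complex Set Filter Metric
open scoped ENNReal Topology Real

namespace Pool.Agent.N310.HR

/-- the linear form of a frequency -/
noncomputable def lin (m : Z2) : T2 →+ UnitAddCircle where
  toFun x := m 0 • x 0 + m 1 • x 1
  map_zero' := by simp
  map_add' x y := by simp only [Pi.add_apply, smul_add]; abel

lemma lin_apply (m : Z2) (x : T2) : lin m x = m 0 • x 0 + m 1 • x 1 := rfl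

lemma e_lin (m : Z2) (x : T2) : e m x = fourier 1 (lin m x) := by
  rw [e_eq, lin_apply]
  simp only [fourier_apply, one_smul, AddCircle.toCircle_add, Circle.coe_mul]

lemma lin_cont (m : Z2) : Continuous (lin m) := by
  have : (lin m : T2 → UnitAddCircle) = fun x => m 0 • x 0 + m 1 • x 1 := rfl
  rw [this]; fun_prop

lemma lin_surj {m : Z2} (hm : m ≠ 0) : Function.Surjective (lin m) := by
  intro t
  by_cases h0 : m 0 = 0
  · have h1 : m 1 ≠ 0 := by
      intro h1; apply hm; funext i; fin_cases i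
      · exact h0
      · exact h1
    refine ⟨![0, DivisibleBy.div t (m 1)], ?_⟩
    rw [lin_apply]
    simp [DivisibleBy.div_cancel t h1]
  · refine ⟨![DivisibleBy.div t (m 0), 0], ?_⟩
    rw [lin_apply]
    simp [DivisibleBy.div_cancel t h0]

lemma lin_mp {m : Z2} (hm : m ≠ 0) : MeasurePreserving (lin m) μT μC :=
  AddMonoidHom.measurePreserving (lin_cont m) (lin_surj hm) (by simp)

lemma circ_int (H : ℂ → ℂ) : ∫ t, H (fourier 1 t) ∂μC = Real.circleAverage H 0 1 := by
  have hvol : (volume : Measure UnitAddCircle) = μC := by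
    rw [AddCircle.volume_eq_smul_haarAddCircle]; simp
  rw [← hvol, ← UnitAddCircle.intervalIntegral_preimage 0, Real.circleAverage_def]
  have h1 : ∀ a : ℝ, H (fourier 1 (a : UnitAddCircle)) = (fun θ => H (circleMap 0 1 θ)) (2 * π * a) := by
    intro a
    simp only [circleMap, fourier_coe_apply]
    congr 1
    push_cast
    rw [zero_add, one_mul]
    congr 1
    ring
  simp_rw [h1]
  have h2 := intervalIntegral.integral_comp_mul_left (a := 0) (b := 0 + 1)
    (fun θ => H (circleMap 0 1 θ)) (c := 2 * π) (by positivity)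
  rw [h2]
  simp

lemma mean_value {m : Z2} (hm : m ≠ 0) {H : ℂ → ℂ} {R : ℝ} (hR : 1 < R)
    (hH : DifferentiableOn ℂ H (ball 0 R)) : ∫ y, H (e m y) ∂μT = H 0 := by
  have h1 : ∫ y, H (e m y) ∂μT = ∫ t, H (fourier 1 t) ∂μC := by
    have hc : ContinuousOn H (sphere 0 1) := hH.continuousOn.mono (fun z hz => by
      simp only [mem_sphere_iff_norm, sub_zero] at hz
      simp [hz, hR])
    have hcont : Continuous fun t : UnitAddCircle => H (fourier 1 t) := by
      apply hc.comp_continuous (fourier 1).continuous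
      intro t; simp [fourier_apply, Circle.norm_coe]
    have := (lin_mp hm).map_eq
    rw [← this, integral_map (lin_cont m).aemeasurable]
    · simp_rw [e_lin]
    · exact hcont.aestronglyMeasurable
  rw [h1, circ_int]
  have h2 : DiffContOnCl ℂ H (ball 0 |1|) := by
    apply hH.diffContOnCl_ball
    intro z hz
    simp only [abs_one, mem_closedBall, dist_zero_right, mem_ball] at hz ⊢
    linarith
  exact h2.circleAverage

lemma re_cpow_ge {w : ℂ} (hw : 0 < w.re) {q : ℝ} (hq : 0 < q) (hq1 : q < 1) :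
    ‖w‖ ^ q * Real.cos (π * q / 2) ≤ (w ^ (q : ℂ)).re := by
  have hw0 : w ≠ 0 := by rintro rfl; simp at hw
  have hn : 0 < ‖w‖ := norm_pos_iff.mpr hw0
  rw [Complex.cpow_def_of_ne_zero hw0, Complex.exp_re]
  have h1 : (Complex.log w * (q : ℂ)).re = Real.log ‖w‖ * q := by simp [Complex.log_re]
  have h2 : (Complex.log w * (q : ℂ)).im = w.arg * q := by simp [Complex.log_im]
  rw [h1, h2, Real.rpow_def_of_pos hn]
  apply mul_le_mul_of_nonneg_left _ (Real.exp_pos _).le
  rw [← Real.cos_abs (w.arg * q)]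
  have harg := Complex.abs_arg_lt_pi_div_two_iff.mpr (Or.inl hw)
  apply Real.cos_le_cos_of_nonneg_of_le_pi (abs_nonneg _)
  · nlinarith [Real.pi_pos]
  · rw [abs_mul, abs_of_pos hq]
    nlinarith [Real.pi_pos]

theorem kol {m : Z2} (hm : m ≠ 0) {h : ℂ → ℂ} {R : ℝ} (hR : 1 < R)
    (hd : DifferentiableOn ℂ h (ball 0 R)) (hpos : ∀ z ∈ ball (0 : ℂ) R, 0 < (h z).re)
    {q : ℝ} (hq : 0 < q) (hq1 : q < 1) :
    ∫⁻ y, (ENNReal.ofReal ‖h (e m y)‖) ^ q ∂μT ≤
      ENNReal.ofReal (‖h 0‖ ^ q / Real.cos (π * q / 2)) := by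
  have hcos : 0 < Real.cos (π * q / 2) := by
    apply Real.cos_pos_of_mem_Ioo
    constructor <;> nlinarith [Real.pi_pos]
  have hball : ∀ y, e m y ∈ ball (0 : ℂ) R := by
    intro y; simp [e_norm, hR]
  have hHd : DifferentiableOn ℂ (fun z => (h z) ^ (q : ℂ)) (ball 0 R) := by
    intro z hz
    exact ((hd z hz).cpow (differentiableWithinAt_const _) (Or.inl (hpos z hz)))
  have hcont : Continuous fun y => h (e m y) :=
    hd.continuousOn.comp_continuous (e_cont m) hball
  have hcont2 : Continuous fun y => (h (e m y)) ^ (q : ℂ) :=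
    hHd.continuousOn.comp_continuous (e_cont m) hball
  have hmv := mean_value hm hR hHd
  have hint2 : Integrable (fun y => (h (e m y)) ^ (q : ℂ)) μT :=
    hcont2.integrable_of_hasCompactSupport (HasCompactSupport.of_compactSpace _)
  have hint : Integrable (fun y => ‖h (e m y)‖ ^ q) μT :=
    (hcont.norm.rpow_const (fun _ => Or.inr hq.le)).integrable_of_hasCompactSupport
      (HasCompactSupport.of_compactSpace _)
  have h1 : (∫ y, ‖h (e m y)‖ ^ q ∂μT) * Real.cos (π * q / 2) ≤ ‖h 0‖ ^ q := by
    rw [← integral_mul_const]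
    calc ∫ y, ‖h (e m y)‖ ^ q * Real.cos (π * q / 2) ∂μT
        ≤ ∫ y, ((h (e m y)) ^ (q : ℂ)).re ∂μT := by
          apply integral_mono (hint.mul_const _) hint2.re
          intro y
          exact re_cpow_ge (hpos _ (hball y)) hq hq1
      _ = ((h 0) ^ (q : ℂ)).re := by
          have := integral_re hint2
          simp only [RCLike.re_to_complex] at this
          rw [this, hmv]
      _ ≤ ‖(h 0) ^ (q : ℂ)‖ := Complex.re_le_norm _
      _ = ‖h 0‖ ^ q := by
          have h0 : h 0 ≠ 0 := by
            intro h0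
            have := hpos 0 (by simp; linarith)
            rw [h0] at this; simp at this
          exact Complex.norm_cpow_real _ _
  have h2 : ∀ y, (ENNReal.ofReal ‖h (e m y)‖) ^ q = ENNReal.ofReal (‖h (e m y)‖ ^ q) := by
    intro y
    rw [ENNReal.ofReal_rpow_of_nonneg (norm_nonneg _) hq.le]
  simp_rw [h2]
  rw [← ofReal_integral_eq_lintegral_ofReal hint (Eventually.of_forall fun y => by positivity)]
  apply ENNReal.ofReal_le_ofReal
  rwa [le_div_iff₀ hcos]

end Pool.Agent.N310.HR
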