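import Pool.Agent.N310.HR.OneStep
import Pool.Agent.N310.HR.Kol

/-!
# The Poisson step: turning a field into an almost purely normal one
-/

set_option autoImplicit false

open MeasureTheory Complex Set Filter Metric
open scoped ENNReal Topology Real

namespace Pool.Agent.N310.HR

/-- cost function penalising the tangential part -/
noncomputable def cost (p : ℝ) (M : ℝ≥0∞) (v : V) : ℝ≥0∞ := P p v + M * P p (0, v.2)

lemma P_snd_le {p : ℝ} (hp : 0 ≤ p) (w : V) : P p (0, w.2) ≤ P p w := by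
  unfold P
  apply ENNReal.rpow_le_rpow _ hp
  apply ENNReal.ofReal_le_ofReal
  rw [Nn_snd]; exact norm_snd_le w

lemma cost_meas (p : ℝ) (M : ℝ≥0∞) : Measurable (cost p M) := by
  unfold cost
  exact (P_meas p).add (((P_meas p).comp (measurable_const.prodMk measurable_snd)).const_mul _)

lemma cost_add {p : ℝ} (hp : 0 ≤ p) (hp1 : p ≤ 1) (M : ℝ≥0∞) (v w : V) :
    cost p M (v + w) ≤ cost p M v + (1 + M) * P p w := by
  unfold cost
  have h1 := P_add hp hp1 v w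
  have h2 : P p (0, (v + w).2) ≤ P p (0, v.2) + P p w := by
    have h3 := P_add hp hp1 ((0, v.2) : V) (0, w.2)
    simp only [Prod.mk_add_mk, add_zero] at h3
    exact h3.trans (add_le_add le_rfl (P_snd_le hp w))
  calc P p (v + w) + M * P p (0, (v + w).2)
      ≤ (P p v + P p w) + M * (P p (0, v.2) + P p w) := by gcongr
    _ = _ := by ring

/-- integer direction -/
noncomputable def dir (K : ℕ) (t : ℂ) : Z2 :=
  ![⌊(K : ℝ) * (t.re / ‖t‖)⌋, ⌊(K : ℝ) * (t.im / ‖t‖)⌋]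

lemma dir_meas (K : ℕ) (m : Z2) : MeasurableSet {t : ℂ | dir K t = m} := by
  have h0 : Measurable fun t : ℂ => ⌊(K : ℝ) * (t.re / ‖t‖)⌋ :=
    Int.measurable_floor.comp ((Complex.measurable_re.div measurable_norm).const_mul _)
  have h1 : Measurable fun t : ℂ => ⌊(K : ℝ) * (t.im / ‖t‖)⌋ :=
    Int.measurable_floor.comp ((Complex.measurable_im.div measurable_norm).const_mul _)
  have : {t : ℂ | dir K t = m} =
      {t | ⌊(K : ℝ) * (t.re / ‖t‖)⌋ = m 0} ∩ {t | ⌊(K : ℝ) * (t.im / ‖t‖)⌋ = m 1} := by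
    ext t
    simp only [dir, mem_ofPred_eq, mem_inter_iff, funext_iff, Fin.forall_fin_two]
    simp
  rw [this]
  exact (h0 (measurableSet_singleton _)).inter (h1 (measurableSet_singleton _))

lemma dir_zero (K : ℕ) : dir K 0 = 0 := by
  funext i; fin_cases i <;> simp [dir]

lemma cm_dir (K : ℕ) (t : ℂ) : ‖cm (dir K t) - (K : ℂ) * (t / ‖t‖)‖ ≤ 2 := by
  have h0 := Int.floor_le ((K : ℝ) * (t.re / ‖t‖))
  have h1 := Int.lt_floor_add_one ((K : ℝ) * (t.re / ‖t‖))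
  have h2 := Int.floor_le ((K : ℝ) * (t.im / ‖t‖))
  have h3 := Int.lt_floor_add_one ((K : ℝ) * (t.im / ‖t‖))
  have hre : (cm (dir K t) - (K : ℂ) * (t / ‖t‖)).re
      = ⌊(K : ℝ) * (t.re / ‖t‖)⌋ - (K : ℝ) * (t.re / ‖t‖) := by
    rw [Complex.sub_re, cm_re]
    have : ((K : ℂ) * (t / ‖t‖)).re = (K : ℝ) * (t.re / ‖t‖) := by
      rw [← Complex.ofReal_natCast, Complex.re_ofReal_mul, Complex.div_ofReal_re]
    rw [this]; simp [dir]
  have him : (cm (dir K t) - (K : ℂ) * (t / ‖t‖)).im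
      = ⌊(K : ℝ) * (t.im / ‖t‖)⌋ - (K : ℝ) * (t.im / ‖t‖) := by
    rw [Complex.sub_im, cm_im]
    have : ((K : ℂ) * (t / ‖t‖)).im = (K : ℝ) * (t.im / ‖t‖) := by
      rw [← Complex.ofReal_natCast, Complex.im_ofReal_mul, Complex.div_ofReal_im]
    rw [this]; simp [dir]
  refine (Complex.norm_le_abs_re_add_abs_im _).trans ?_
  rw [hre, him]
  have : |(⌊(K : ℝ) * (t.re / ‖t‖)⌋ : ℝ) - (K : ℝ) * (t.re / ‖t‖)| ≤ 1 := by
    rw [abs_le]; constructor <;> linarith
  have : |(⌊(K : ℝ) * (t.im / ‖t‖)⌋ : ℝ) - (K : ℝ) * (t.im / ‖t‖)| ≤ 1 := by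
    rw [abs_le]; constructor <;> linarith
  linarith

lemma unit_norm {t : ℂ} (ht : t ≠ 0) : ‖t / (‖t‖ : ℂ)‖ = 1 := by
  have := norm_ne_zero_iff.mpr ht
  rw [norm_div]; simp [this]

lemma dir_norm_ge {K : ℕ} {t : ℂ} (ht : t ≠ 0) : (K : ℝ) - 2 ≤ ‖cm (dir K t)‖ := by
  have h1 := cm_dir K t
  have h2 : ‖(K : ℂ) * (t / ‖t‖)‖ = K := by rw [norm_mul, unit_norm ht]; simp
  have h3 := norm_sub_norm_le ((K : ℂ) * (t / ‖t‖)) (cm (dir K t))
  rw [h2, norm_sub_rev] at h3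
  linarith

lemma dir_ne_zero {K : ℕ} (hK : 3 ≤ K) {t : ℂ} (ht : t ≠ 0) : dir K t ≠ 0 := by
  intro h
  have h1 := dir_norm_ge (K := K) ht
  rw [h] at h1
  have : cm 0 = 0 := by simp [cm]
  rw [this, norm_zero] at h1
  have : (3 : ℝ) ≤ K := by exact_mod_cast hK
  linarith

lemma hat_dir {K : ℕ} (hK : 4 ≤ K) {t : ℂ} (ht : t ≠ 0) :
    ‖t / (‖t‖ : ℂ) - hat (dir K t)‖ ≤ 8 / K := by
  have hK' : (4 : ℝ) ≤ K := by exact_mod_cast hK
  have h1 := cm_dir K t
  have h2 := dir_norm_ge (K := K) ht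
  set z := cm (dir K t) with hz
  set u := t / (‖t‖ : ℂ) with hu
  have hun : ‖u‖ = 1 := unit_norm ht
  have hpos : 0 < ‖z‖ := by linarith
  have h3 : ‖(K : ℂ) * u‖ = K := by rw [norm_mul, hun]; simp
  have h4 : |‖z‖ - K| ≤ 2 := by
    have := abs_norm_sub_norm_le z ((K : ℂ) * u)
    rw [h3] at this
    linarith
  have h5 : u - hat (dir K t) = ((‖z‖ : ℂ) * u - z) / (‖z‖ : ℂ) := by
    have : (‖z‖ : ℂ) ≠ 0 := by exact_mod_cast hpos.ne'
    rw [hat, ← hz]
    field_simp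
  rw [h5, norm_div, Complex.norm_real, norm_norm]
  have h6 : ‖(‖z‖ : ℂ) * u - z‖ ≤ 4 := by
    have h7 : (‖z‖ : ℂ) * u - z = (((‖z‖ - K : ℝ)) : ℂ) * u - (z - (K : ℂ) * u) := by
      push_cast; ring
    rw [h7]
    refine (norm_sub_le _ _).trans ?_
    rw [norm_mul, hun, Complex.norm_real, Real.norm_eq_abs]
    linarith
  rw [div_le_div_iff₀ hpos (by linarith)]
  nlinarith

/-- the (rotated) Poisson-type function -/
noncomputable def hh (u s r : ℝ) (z : ℂ) : ℂ := (s : ℂ) * ((1 + r * z) / (1 - r * z)) - I * u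

lemma one_sub_ne {r : ℝ} (hr : 0 < r) {z : ℂ} (hz : z ∈ ball (0 : ℂ) (1 / r)) :
    ‖(r : ℂ) * z‖ < 1 := by
  simp only [mem_ball, dist_zero_right] at hz
  rw [norm_mul, Complex.norm_real, Real.norm_of_nonneg hr.le]
  rw [lt_div_iff₀ hr] at hz
  linarith

lemma re_pos_aux {w : ℂ} (hw : ‖w‖ < 1) : ((1 + w) / (1 - w)).re = (1 - ‖w‖ ^ 2) / ‖1 - w‖ ^ 2 := by
  rw [Complex.div_re, ← Complex.normSq_eq_norm_sq (1 - w), ← Complex.normSq_eq_norm_sq w,
    ← add_div]
  congr 1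
  rw [Complex.normSq_apply]
  simp
  ring

lemma one_sub_pos {w : ℂ} (hw : ‖w‖ < 1) : 0 < ‖1 - w‖ := by
  have := norm_sub_norm_le (1 : ℂ) w
  rw [norm_one] at this
  linarith

lemma hh_re {u s r : ℝ} (hr : 0 < r) {z : ℂ} (hz : z ∈ ball (0 : ℂ) (1 / r)) :
    (hh u s r z).re = s * ((1 - ‖(r : ℂ) * z‖ ^ 2) / ‖1 - (r : ℂ) * z‖ ^ 2) := by
  unfold hh
  rw [Complex.sub_re, Complex.re_ofReal_mul, re_pos_aux (one_sub_ne hr hz)]
  simp

lemma hh_diff {u s r : ℝ} (hr : 0 < r) : DifferentiableOn ℂ (hh u s r) (ball 0 (1 / r)) := by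
  unfold hh
  intro z hz
  have h1 := one_sub_pos (one_sub_ne hr hz)
  have h2 : 1 - (r : ℂ) * z ≠ 0 := norm_pos_iff.mp h1
  apply DifferentiableAt.differentiableWithinAt
  fun_prop (disch := exact h2)

lemma hh_pos {u s r : ℝ} (hs : 0 < s) (hr : 0 < r) :
    ∀ z ∈ ball (0 : ℂ) (1 / r), 0 < (hh u s r z).re := by
  intro z hz
  rw [hh_re hr hz]
  have h1 := one_sub_ne hr hz
  have h2 := one_sub_pos h1
  have h3 : 0 < 1 - ‖(r : ℂ) * z‖ ^ 2 := by nlinarith [norm_nonneg ((r : ℂ) * z)]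
  positivity

lemma hh_zero (u s r : ℝ) : ‖hh u s r 0‖ = √(u ^ 2 + s ^ 2) := by
  have : hh u s r 0 = (s : ℂ) - I * u := by simp [hh]
  rw [this, Complex.norm_eq_sqrt_sq_add_sq]
  congr 1
  simp
  ring

/-- main integral of the Poisson step -/
lemma kolB {p : ℝ} (hp : 0 < p) (hp1 : p < 1) {m : Z2} (hm : m ≠ 0) {u s r : ℝ} (hs : 0 < s)
    (hr : 0 < r) (hr1 : r < 1) :
    ∫⁻ y, (ENNReal.ofReal ‖hh u s r (e m y)‖) ^ p ∂μT ≤
      ENNReal.ofReal (√(u ^ 2 + s ^ 2) ^ p / Real.cos (π * p / 2)) := by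
  have := kol hm (R := 1 / r) (by rw [lt_div_iff₀ hr]; linarith) (hh_diff (u := u) (s := s) hr)
    (hh_pos hs hr) hp hp1
  rwa [hh_zero] at this

lemma kolP {p : ℝ} (hp : 0 < p) (hp1 : p < 1 / 2) {m : Z2} (hm : m ≠ 0) {u s r : ℝ} (hs : 0 < s)
    (hr : 0 < r) (hr1 : r < 1) :
    ∫⁻ y, (ENNReal.ofReal |(hh u s r (e m y)).re|) ^ p ∂μT ≤
      ENNReal.ofReal (s ^ p * (1 - r ^ 2) ^ p / Real.cos (π * p)) := by
  have hR : 1 < 1 / r := by rw [lt_div_iff₀ hr]; linarith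
  have hne : ∀ z ∈ ball (0 : ℂ) (1 / r), 1 - (r : ℂ) * z ≠ 0 := fun z hz =>
    norm_pos_iff.mp (one_sub_pos (one_sub_ne hr hz))
  have h1 : DifferentiableOn ℂ (fun z : ℂ => 1 / (1 - (r : ℂ) * z)) (ball 0 (1 / r)) := by
    intro z hz
    have h2 := hne z hz
    apply DifferentiableAt.differentiableWithinAt
    fun_prop (disch := exact h2)
  have h2 : ∀ z ∈ ball (0 : ℂ) (1 / r), 0 < (1 / (1 - (r : ℂ) * z)).re := by
    intro z hz
    have h3 := one_sub_ne hr hz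
    have h4 : 0 < (1 - (r : ℂ) * z).re := by
      have := Complex.re_le_norm ((r : ℂ) * z)
      simp only [Complex.sub_re, Complex.one_re]; linarith
    rw [one_div, Complex.inv_re]
    exact div_pos h4 (Complex.normSq_pos.mpr (hne z hz))
  have h3 := kol hm hR h1 h2 (q := 2 * p) (by linarith) (by linarith)
  have h0 : ‖(1 : ℂ) / (1 - (r : ℂ) * 0)‖ = 1 := by simp
  rw [h0, Real.one_rpow, show π * (2 * p) / 2 = π * p by ring] at h3
  have hr2 : 0 < 1 - r ^ 2 := by nlinarith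
  have hcos : 0 < Real.cos (π * p) := by
    apply Real.cos_pos_of_mem_Ioo
    constructor <;> nlinarith [Real.pi_pos]
  have hpt : ∀ y, (ENNReal.ofReal |(hh u s r (e m y)).re|) ^ p =
      ENNReal.ofReal (s ^ p * (1 - r ^ 2) ^ p) *
        (ENNReal.ofReal ‖(1 : ℂ) / (1 - (r : ℂ) * e m y)‖) ^ (2 * p) := by
    intro y
    have hz : e m y ∈ ball (0 : ℂ) (1 / r) := by
      rw [mem_ball, dist_zero_right, e_norm]; exact hR
    have hw : ‖(r : ℂ) * e m y‖ = r := by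
      rw [norm_mul, e_norm, Complex.norm_real, Real.norm_of_nonneg hr.le, mul_one]
    have hd := one_sub_pos (one_sub_ne hr hz)
    rw [hh_re hr hz, hw, abs_of_pos (by positivity),
      ENNReal.ofReal_rpow_of_nonneg (by positivity) hp.le,
      ENNReal.ofReal_rpow_of_nonneg (norm_nonneg _) (by linarith),
      ← ENNReal.ofReal_mul (by positivity)]
    congr 1
    rw [norm_div, norm_one, Real.rpow_mul (by positivity), ← Real.mul_rpow hs.le hr2.le,
      ← Real.mul_rpow (by positivity) (by positivity)]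
    congr 1
    rw [show (2 : ℝ) = ((2 : ℕ) : ℝ) by norm_num, Real.rpow_natCast]
    field_simp
  simp_rw [hpt]
  rw [lintegral_const_mul]
  · calc _ ≤ ENNReal.ofReal (s ^ p * (1 - r ^ 2) ^ p) * ENNReal.ofReal (1 / Real.cos (π * p)) := by
          gcongr
      _ = _ := by
          rw [← ENNReal.ofReal_mul (by positivity)]
          congr 1
          ring
  · apply Measurable.pow_const
    apply Measurable.ennreal_ofReal
    apply Measurable.norm
    exact measurable_const.div (measurable_const.sub ((e_meas m).const_mul _))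


/-- coefficients of the truncated Poisson-type function -/
noncomputable def cf (s r : ℝ) (j : ℕ) : ℂ := 2 * I * s * (r : ℂ) ^ (j + 1)

lemma e_succ (j : ℕ) (m : Z2) (y : T2) : e ((j + 1) • m) y = (e m y) ^ (j + 1) := by
  induction j with
  | zero => simp
  | succ k ih => rw [succ_nsmul, e_add_left, ih]; ring

lemma pattern_sum {J : ℕ} (m : Z2) (s r : ℝ) (y : T2) :
    ∑ j : Fin J, wv ((j.1 + 1) • m) (cf s r j) y =
      ((∑ j : Fin J, cf s r j * (e m y) ^ (j.1 + 1)).re,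
        hat m * (((∑ j : Fin J, cf s r j * (e m y) ^ (j.1 + 1)).im : ℝ) : ℂ)) := by
  have h : ∀ j : Fin J, wv ((j.1 + 1) • m) (cf s r j) y
      = ((cf s r j * (e m y) ^ (j.1 + 1)).re,
        hat m * (((cf s r j * (e m y) ^ (j.1 + 1)).im : ℝ) : ℂ)) := by
    intro j
    simp only [wv, hat_nsmul (Nat.succ_pos _), e_succ]
  simp_rw [h]
  ext
  · simp [Prod.fst_sum]
  · simp only [Prod.snd_sum, ← Finset.mul_sum, ← Complex.ofReal_sum, Complex.im_sum]

lemma trunc_bound {J : ℕ} {s r : ℝ} (hs : 0 ≤ s) (hr : 0 < r) (hr1 : r < 1) (u : ℝ) {z : ℂ}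
    (hz : ‖z‖ = 1) :
    ‖((u : ℂ) + I * s + ∑ j : Fin J, cf s r j * z ^ (j.1 + 1)) - I * hh u s r z‖
      ≤ s * (2 * r ^ (J + 1) / (1 - r)) := by
  have hw : ‖(r : ℂ) * z‖ = r := by
    rw [norm_mul, hz, Complex.norm_real, Real.norm_of_nonneg hr.le, mul_one]
  have hne : 1 - (r : ℂ) * z ≠ 0 := norm_pos_iff.mp (one_sub_pos (by rw [hw]; exact hr1))
  have hsum : ∑ j : Fin J, cf s r j * z ^ (j.1 + 1) =
      2 * I * s * (((r : ℂ) * z) * ((1 - ((r : ℂ) * z) ^ J) / (1 - (r : ℂ) * z))) := by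
    rw [Fin.sum_univ_eq_sum_range (fun j => cf s r j * z ^ (j + 1)) J]
    have hg := mul_neg_geom_sum ((r : ℂ) * z) J
    have : ∑ i ∈ Finset.range J, ((r : ℂ) * z) ^ i
        = (1 - ((r : ℂ) * z) ^ J) / (1 - (r : ℂ) * z) := by
      rw [eq_div_iff hne, mul_comm]; exact hg
    rw [← this, Finset.mul_sum, Finset.mul_sum]
    refine Finset.sum_congr rfl fun j _ => ?_
    rw [cf]; ring
  have hdiff : ((u : ℂ) + I * s + ∑ j : Fin J, cf s r j * z ^ (j.1 + 1)) - I * hh u s r z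
      = -(2 * I * s * (((r : ℂ) * z) ^ (J + 1) / (1 - (r : ℂ) * z))) := by
    rw [hsum, hh]
    field_simp
    ring_nf
    rw [Complex.I_sq]
    ring
  rw [hdiff, norm_neg, norm_mul, norm_mul, norm_mul, norm_div, norm_pow, hw]
  simp only [Complex.norm_ofNat, Complex.norm_I, Complex.norm_real, Real.norm_of_nonneg hs]
  have h1 : 1 - r ≤ ‖1 - (r : ℂ) * z‖ := by
    have := norm_sub_norm_le (1 : ℂ) ((r : ℂ) * z)
    rw [norm_one, hw] at this
    exact this
  have h2 : 0 < 1 - r := by linarith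
  calc 2 * 1 * s * (r ^ (J + 1) / ‖1 - (r : ℂ) * z‖)
      ≤ 2 * 1 * s * (r ^ (J + 1) / (1 - r)) := by gcongr
    _ = _ := by ring

/-- pointwise estimate for the Poisson pattern -/
lemma cost_pattern {p : ℝ} (hp : 0 < p) (hp1 : p ≤ 1) (M : ℝ≥0∞) {K J : ℕ} (hK : 4 ≤ K)
    {u r B : ℝ} {t : ℂ} (ht : t ≠ 0) (hB : ‖t‖ ≤ B) (hr : 0 < r) (hr1 : r < 1) (y : T2) :
    cost p M ((u, t) + ∑ j : Fin J, wv ((j.1 + 1) • dir K t) (cf ‖t‖ r j) y) ≤
      (ENNReal.ofReal ‖hh u ‖t‖ r (e (dir K t) y)‖) ^ p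
      + M * (ENNReal.ofReal |(hh u ‖t‖ r (e (dir K t) y)).re|) ^ p
      + (1 + M) * ((ENNReal.ofReal (B * (2 * r ^ (J + 1) / (1 - r)))) ^ p
        + (ENNReal.ofReal (B * (8 / K))) ^ p) := by
  set m := dir K t with hm
  set s := ‖t‖ with hs
  have hs0 : 0 < s := norm_pos_iff.mpr ht
  have hB0 : 0 ≤ B := hs0.le.trans hB
  have hm0 : m ≠ 0 := dir_ne_zero (by omega) ht
  set z := e m y with hz
  have hzn : ‖z‖ = 1 := e_norm _ _
  set Z1 := I * hh u s r z with hZ1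
  set D := ((u : ℂ) + I * s + ∑ j : Fin J, cf s r j * z ^ (j.1 + 1)) - Z1 with hD
  have hDn : ‖D‖ ≤ B * (2 * r ^ (J + 1) / (1 - r)) := by
    refine (trunc_bound hs0.le hr hr1 u hzn).trans ?_
    have : 0 < 1 - r := by linarith
    gcongr
  have hS : ∑ j : Fin J, cf s r j * z ^ (j.1 + 1) = Z1 + D - u - I * s := by
    rw [hD]; ring
  have hre : (Z1 + D - u - I * s).re = Z1.re + D.re - u := by simp
  have him : (Z1 + D - u - I * s).im = Z1.im + D.im - s := by simp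
  have hsplit : ((u, t) : V) + ∑ j : Fin J, wv ((j.1 + 1) • m) (cf s r j) y =
      (Z1.re, hat m * ((Z1.im : ℝ) : ℂ)) +
        ((D.re, hat m * ((D.im : ℝ) : ℂ)) + (0, (s : ℂ) * (t / s - hat m))) := by
    rw [pattern_sum, ← hz, hS, hre, him]
    have hs' : (s : ℂ) ≠ 0 := by exact_mod_cast hs0.ne'
    refine Prod.ext ?_ ?_
    · simp
    · simp only [Prod.mk_add_mk]
      push_cast
      field_simp
      ring
  have hN1 : ∀ W : ℂ, Nn (W.re, hat m * ((W.im : ℝ) : ℂ)) = ‖W‖ := by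
    intro W
    simp only [Nn, norm_mul, hat_norm hm0, Complex.norm_real, one_mul]
    rw [Complex.norm_eq_sqrt_sq_add_sq, Real.norm_eq_abs, sq_abs]
  have hZn : ‖Z1‖ = ‖hh u s r z‖ := by rw [hZ1, norm_mul, Complex.norm_I, one_mul]
  have hZi : Z1.im = (hh u s r z).re := by rw [hZ1]; simp
  have hN2 : Nn (0, (s : ℂ) * (t / s - hat m)) ≤ B * (8 / K) := by
    rw [Nn_snd, norm_mul, Complex.norm_real, Real.norm_of_nonneg hs0.le]
    gcongr
    exact hat_dir hK ht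
  rw [hsplit]
  refine (cost_add hp.le hp1 M _ _).trans ?_
  gcongr
  · unfold cost
    gcongr
    · rw [P, hN1, hZn]
    · simp only
      rw [P, Nn_snd, norm_mul, hat_norm hm0, one_mul, Complex.norm_real, hZi, Real.norm_eq_abs]
  · refine (P_add hp.le hp1 _ _).trans ?_
    gcongr
    · exact P_mono hp.le (by rw [hN1]; exact hDn)
    · exact P_mono hp.le hN2


lemma hh_meas (u s r : ℝ) (m : Z2) : Measurable fun y => hh u s r (e m y) := by
  unfold hh
  have := e_meas m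
  exact (((measurable_const.add (this.const_mul _)).div
    (measurable_const.sub (this.const_mul _))).const_mul _).sub measurable_const

/-- the error of the Poisson step -/
noncomputable def errB (p : ℝ) (M : ℝ≥0∞) (B r : ℝ) (J K : ℕ) : ℝ≥0∞ :=
  M * ENNReal.ofReal (B ^ p * (1 - r ^ 2) ^ p / Real.cos (π * p))
      + (1 + M) * ((ENNReal.ofReal (B * (2 * r ^ (J + 1) / (1 - r)))) ^ p
        + (ENNReal.ofReal (B * (8 / K))) ^ p)

lemma int_pattern {p : ℝ} (hp : 0 < p) (hp2 : p < 1 / 2) (M : ℝ≥0∞) {K J : ℕ} (hK : 4 ≤ K)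
    {u r B : ℝ} {t : ℂ} (ht : t ≠ 0) (hB : ‖t‖ ≤ B) (hr : 0 < r) (hr1 : r < 1) :
    ∫⁻ y, cost p M ((u, t) + ∑ j : Fin J, wv ((j.1 + 1) • dir K t) (cf ‖t‖ r j) y) ∂μT ≤
      ENNReal.ofReal (1 / Real.cos (π * p / 2)) * P p (u, t) + errB p M B r J K := by
  have hs0 : 0 < ‖t‖ := norm_pos_iff.mpr ht
  have hm0 : dir K t ≠ 0 := dir_ne_zero (by omega) ht
  have hcos : 0 < Real.cos (π * p) := by
    apply Real.cos_pos_of_mem_Ioo
    constructor <;> nlinarith [Real.pi_pos]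
  have hcos2 : 0 < Real.cos (π * p / 2) := by
    apply Real.cos_pos_of_mem_Ioo
    constructor <;> nlinarith [Real.pi_pos]
  have hr2 : 0 < 1 - r ^ 2 := by nlinarith
  have hm1 : Measurable fun y => (ENNReal.ofReal ‖hh u ‖t‖ r (e (dir K t) y)‖) ^ p :=
    ((hh_meas u ‖t‖ r (dir K t)).norm.ennreal_ofReal).pow_const p
  have hm2 : Measurable fun y => (ENNReal.ofReal |(hh u ‖t‖ r (e (dir K t) y)).re|) ^ p :=
    ((Complex.measurable_re.comp (hh_meas u ‖t‖ r (dir K t))).abs.ennreal_ofReal).pow_const p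
  calc _ ≤ ∫⁻ y, ((ENNReal.ofReal ‖hh u ‖t‖ r (e (dir K t) y)‖) ^ p
      + M * (ENNReal.ofReal |(hh u ‖t‖ r (e (dir K t) y)).re|) ^ p
      + (1 + M) * ((ENNReal.ofReal (B * (2 * r ^ (J + 1) / (1 - r)))) ^ p
        + (ENNReal.ofReal (B * (8 / K))) ^ p)) ∂μT :=
        lintegral_mono fun y => cost_pattern hp (by linarith) M hK ht hB hr hr1 y
    _ = ∫⁻ y, (ENNReal.ofReal ‖hh u ‖t‖ r (e (dir K t) y)‖) ^ p ∂μT
      + M * ∫⁻ y, (ENNReal.ofReal |(hh u ‖t‖ r (e (dir K t) y)).re|) ^ p ∂μT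
      + (1 + M) * ((ENNReal.ofReal (B * (2 * r ^ (J + 1) / (1 - r)))) ^ p
        + (ENNReal.ofReal (B * (8 / K))) ^ p) := by
        rw [lintegral_add_right _ measurable_const, lintegral_add_left hm1,
          lintegral_const_mul _ hm2]
        simp
    _ ≤ ENNReal.ofReal (√(u ^ 2 + ‖t‖ ^ 2) ^ p / Real.cos (π * p / 2))
      + M * ENNReal.ofReal (B ^ p * (1 - r ^ 2) ^ p / Real.cos (π * p))
      + (1 + M) * ((ENNReal.ofReal (B * (2 * r ^ (J + 1) / (1 - r)))) ^ p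
        + (ENNReal.ofReal (B * (8 / K))) ^ p) := by
        gcongr
        · exact kolB hp (by linarith) hm0 hs0 hr hr1
        · refine (kolP hp hp2 hm0 hs0 hr hr1).trans ?_
          apply ENNReal.ofReal_le_ofReal
          gcongr
    _ = _ := by
        rw [errB, ← add_assoc]
        congr 2
        rw [P, Nn, ENNReal.ofReal_rpow_of_nonneg (Real.sqrt_nonneg _) hp.le,
          ← ENNReal.ofReal_mul (by positivity)]
        congr 1
        simp only
        ring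

/-- box of nonzero frequencies -/
noncomputable def Sbox (K : ℕ) : Finset Z2 :=
  (Finset.Icc (fun _ => -(K : ℤ)) (fun _ => (K : ℤ))).filter (· ≠ 0)

lemma dir_mem {K : ℕ} (hK : 3 ≤ K) {t : ℂ} (ht : t ≠ 0) : dir K t ∈ Sbox K := by
  have hs0 : 0 < ‖t‖ := norm_pos_iff.mpr ht
  have key : ∀ x : ℝ, |x| ≤ ‖t‖ → -(K : ℤ) ≤ ⌊(K : ℝ) * (x / ‖t‖)⌋ ∧
      ⌊(K : ℝ) * (x / ‖t‖)⌋ ≤ (K : ℤ) := by
    intro x hx
    have h1 : |x / ‖t‖| ≤ 1 := by
      rw [abs_div, abs_of_pos hs0, div_le_one hs0]; exact hx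
    have h2 := abs_le.mp h1
    have hK0 : (0 : ℝ) ≤ K := Nat.cast_nonneg K
    constructor
    · rw [Int.le_floor]
      push_cast
      nlinarith
    · have h3 : (K : ℝ) * (x / ‖t‖) ≤ ((K : ℤ) : ℝ) := by
        push_cast; nlinarith
      calc ⌊(K : ℝ) * (x / ‖t‖)⌋ ≤ ⌊((K : ℤ) : ℝ)⌋ := Int.floor_le_floor h3
        _ = K := by simp
  rw [Sbox, Finset.mem_filter, Finset.mem_Icc]
  refine ⟨⟨?_, ?_⟩, dir_ne_zero hK ht⟩
  · intro i
    fin_cases i
    · exact (key _ (Complex.abs_re_le_norm t)).1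
    · exact (key _ (Complex.abs_im_le_norm t)).1
  · intro i
    fin_cases i
    · exact (key _ (Complex.abs_re_le_norm t)).2
    · exact (key _ (Complex.abs_im_le_norm t)).2

/-- coefficient functions of the Poisson step -/
noncomputable def aB (F : T2 → V) (r : ℝ) (J K : ℕ) (i : Fin J × {m : Z2 // m ∈ Sbox K}) (x : T2) :
    ℂ :=
  open Classical in if dir K (F x).2 = i.2.1 then cf ‖(F x).2‖ r i.1 else 0

lemma wv_zero (m : Z2) (y : T2) : wv m 0 y = 0 := by simp [wv]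

lemma aB_sum (F : T2 → V) (r : ℝ) (J K : ℕ) (hK : 3 ≤ K) (x y : T2) :
    ∑ i : Fin J × {m : Z2 // m ∈ Sbox K}, wv ((i.1.1 + 1) • i.2.1) (aB F r J K i x) y =
      if (F x).2 = 0 then 0 else
        ∑ j : Fin J, wv ((j.1 + 1) • dir K (F x).2) (cf ‖(F x).2‖ r j) y := by
  classical
  rw [Fintype.sum_prod_type]
  split_ifs with h0
  · refine Finset.sum_eq_zero fun j _ => Finset.sum_eq_zero fun m _ => ?_
    rw [aB]
    split_ifs
    · rw [h0]; simp [cf, wv_zero]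
    · exact wv_zero _ _
  · refine Finset.sum_congr rfl fun j _ => ?_
    rw [Finset.sum_eq_single (⟨dir K (F x).2, dir_mem hK h0⟩ : {m : Z2 // m ∈ Sbox K})]
    · simp [aB]
    · intro m _ hne
      rw [aB, if_neg, wv_zero]
      intro heq
      exact hne (Subtype.ext heq.symm)
    · intro h; exact absurd (Finset.mem_univ _) h

lemma errB_small {p : ℝ} (hp : 0 < p) (hp2 : p < 1 / 2) {M : ℝ≥0∞} (hM : M ≠ ⊤) {B : ℝ}
    (hB : 0 ≤ B) {ε : ℝ≥0∞} (hε : ε ≠ 0) :
    ∃ (r : ℝ) (J K : ℕ), 0 < r ∧ r < 1 ∧ 4 ≤ K ∧ errB p M B r J K ≤ ε := by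
  have hε4 : ε / 4 ≠ 0 := (ENNReal.div_pos hε (by simp)).ne'
  have hMM : 1 + M ≠ ⊤ := by finiteness
  have cont : Continuous fun x : ℝ≥0∞ => x ^ p := ENNReal.continuous_rpow_const
  -- radius
  have h1 : Tendsto (fun n : ℕ => M * ENNReal.ofReal
      (B ^ p * (1 - (1 - 1 / ((n : ℝ) + 2)) ^ 2) ^ p / Real.cos (π * p))) atTop (𝓝 0) := by
    have ha : Tendsto (fun n : ℕ => 1 / ((n : ℝ) + 2)) atTop (𝓝 0) := by
      have h := tendsto_one_div_add_atTop_nhds_zero_nat (𝕜 := ℝ)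
      have h' := (tendsto_add_atTop_iff_nat (f := fun n : ℕ => 1 / ((n : ℝ) + 1)) 1).mpr h
      refine h'.congr fun n => ?_
      push_cast; ring
    have hb : Tendsto (fun n : ℕ =>
        B ^ p * (1 - (1 - 1 / ((n : ℝ) + 2)) ^ 2) ^ p / Real.cos (π * p)) atTop (𝓝 0) := by
      have hc : Continuous fun x : ℝ => B ^ p * (1 - (1 - x) ^ 2) ^ p / Real.cos (π * p) := by
        apply Continuous.div_const
        apply Continuous.mul continuous_const
        exact Continuous.rpow_const (by fun_prop) (fun _ => Or.inr hp.le)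
      exact (hc.tendsto' 0 0 (by simp [hp.ne'])).comp ha
    have hd := ENNReal.Tendsto.const_mul (a := M) ((ENNReal.continuous_ofReal.tendsto 0).comp hb)
      (Or.inr hM)
    simpa using hd
  obtain ⟨n, hn⟩ := (h1.eventually_le_const (pos_iff_ne_zero.mpr hε4)).exists
  set r : ℝ := 1 - 1 / ((n : ℝ) + 2) with hr
  have hr0 : 0 < r := by
    rw [hr, sub_pos, div_lt_one (by positivity)]; linarith [Nat.cast_nonneg (α := ℝ) n]
  have hr1 : r < 1 := by
    rw [hr]; have : 0 < 1 / ((n : ℝ) + 2) := by positivity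
    linarith
  -- J
  have h2 : Tendsto (fun J : ℕ => (1 + M) *
      (ENNReal.ofReal (B * (2 * r ^ (J + 1) / (1 - r)))) ^ p) atTop (𝓝 0) := by
    have ha : Tendsto (fun J : ℕ => r ^ (J + 1)) atTop (𝓝 0) :=
      (tendsto_add_atTop_iff_nat 1).mpr (tendsto_pow_atTop_nhds_zero_of_lt_one hr0.le hr1)
    have hb : Tendsto (fun J : ℕ => B * (2 * r ^ (J + 1) / (1 - r))) atTop (𝓝 0) := by
      have := ((ha.const_mul 2).div_const (1 - r)).const_mul B
      simpa using this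
    have hd := ENNReal.Tendsto.const_mul (a := 1 + M)
      ((cont.tendsto _).comp ((ENNReal.continuous_ofReal.tendsto 0).comp hb)) (Or.inr hMM)
    simpa [hp, ENNReal.zero_rpow_of_pos hp] using hd
  obtain ⟨J, hJ⟩ := (h2.eventually_le_const (pos_iff_ne_zero.mpr hε4)).exists
  have h3 : Tendsto (fun K : ℕ => (1 + M) *
      (ENNReal.ofReal (B * (8 / (K : ℝ)))) ^ p) atTop (𝓝 0) := by
    have ha : Tendsto (fun K : ℕ => (8 : ℝ) / (K : ℝ)) atTop (𝓝 0) :=
      tendsto_const_div_atTop_nhds_zero_nat 8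
    have hb : Tendsto (fun K : ℕ => B * (8 / (K : ℝ))) atTop (𝓝 0) := by
      simpa using ha.const_mul B
    have hd := ENNReal.Tendsto.const_mul (a := 1 + M)
      ((cont.tendsto _).comp ((ENNReal.continuous_ofReal.tendsto 0).comp hb)) (Or.inr hMM)
    simpa [hp, ENNReal.zero_rpow_of_pos hp] using hd
  obtain ⟨K, hK, hK4⟩ := ((h3.eventually_le_const (pos_iff_ne_zero.mpr hε4)).and
    (eventually_ge_atTop 4)).exists
  refine ⟨r, J, K, hr0, hr1, hK4, ?_⟩
  rw [errB, mul_add]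
  calc _ ≤ ε / 4 + (ε / 4 + ε / 4) := by gcongr
    _ ≤ ε / 4 + (ε / 4 + ε / 4) + ε / 4 := le_self_add
    _ = ε := by
      have : ε / 4 + (ε / 4 + ε / 4) + ε / 4 = 4 * (ε / 4) := by ring
      rw [this]
      exact ENNReal.mul_div_cancel (by norm_num) (by norm_num)

theorem stepB {p : ℝ} (hp : 0 < p) (hp2 : p < 1 / 2) {M : ℝ≥0∞} (hM : M ≠ ⊤) {F : T2 → V}
    (hF : Measurable F) {B : ℝ} (hB : ∀ x, Nn (F x) ≤ B) (Λ : ℝ) {ε : ℝ≥0∞} (hε : ε ≠ 0) :
    ∃ H ∈ 𝓕 Λ, ∫⁻ x, cost p M (F x + H x) ∂μT ≤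
      ENNReal.ofReal (1 / Real.cos (π * p / 2)) * ∫⁻ x, P p (F x) ∂μT + ε := by
  classical
  have hB0 : 0 ≤ B := (Nn_nonneg _).trans (hB 0)
  have hε2 : ε / 2 ≠ 0 := (ENNReal.div_pos hε (by simp)).ne'
  obtain ⟨r, J, K, hr0, hr1, hK, herr⟩ := errB_small hp hp2 hM hB0 hε2
  have hcos2 : 0 < Real.cos (π * p / 2) := by
    apply Real.cos_pos_of_mem_Ioo
    constructor <;> nlinarith [Real.pi_pos]
  have hsn : ∀ x, ‖(F x).2‖ ≤ B := fun x => (norm_snd_le _).trans (hB x)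
  obtain ⟨H, hH, hle⟩ := one_step hp (by linarith) (cost_meas p M) (C := 1 + M) (by finiteness)
    (cost_add hp.le (by linarith) M) hF
    (fun i : Fin J × {m : Z2 // m ∈ Sbox K} => (i.1.1 + 1) • i.2.1)
    (by
      intro i h
      have h1 : i.2.1 ≠ 0 := (Finset.mem_filter.mp i.2.2).2
      apply h1
      funext k
      have := congrFun h k
      simp only [Pi.smul_apply, Pi.zero_apply, nsmul_eq_mul, mul_eq_zero] at this
      rcases this with h2 | h2
      · exfalso; push_cast at h2; omega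
      · exact h2)
    (aB F r J K)
    (by
      intro i
      unfold aB
      refine Measurable.ite ?_ ?_ measurable_const
      · exact (measurable_snd.comp hF) (dir_meas K i.2.1)
      · unfold cf
        have : Measurable fun x => ((‖(F x).2‖ : ℝ) : ℂ) :=
          Complex.measurable_ofReal.comp (measurable_snd.comp hF).norm
        exact (this.const_mul _).mul_const _)
    (B := 2 * B)
    (by
      intro i x
      unfold aB
      split_ifs
      · unfold cf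
        simp only [norm_mul, Complex.norm_ofNat, Complex.norm_I, Complex.norm_real, norm_norm,
          norm_pow, Real.norm_of_nonneg hr0.le, mul_one]
        have h1 : r ^ (i.1.1 + 1) ≤ 1 := pow_le_one₀ hr0.le hr1.le
        have h2 := hsn x
        have h3 : 0 ≤ r ^ (i.1.1 + 1) := by positivity
        nlinarith [norm_nonneg (F x).2]
      · simp; exact hB0)
    Λ hε2
  refine ⟨H, hH, hle.trans ?_⟩
  have hpt : ∀ x, ∫⁻ y, cost p M (F x + ∑ i : Fin J × {m : Z2 // m ∈ Sbox K},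
      wv ((i.1.1 + 1) • i.2.1) (aB F r J K i x) y) ∂μT ≤
      ENNReal.ofReal (1 / Real.cos (π * p / 2)) * P p (F x) + ε / 2 := by
    intro x
    simp_rw [aB_sum F r J K (by omega) x]
    by_cases h0 : (F x).2 = 0
    · simp only [h0, if_true, add_zero, lintegral_const, measure_univ, mul_one]
      have h1 : cost p M (F x) = P p (F x) := by
        unfold cost
        rw [h0]
        have : P p ((0 : ℝ), (0 : ℂ)) = 0 := by simp [P, Nn, hp]
        rw [this, mul_zero, add_zero]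
      rw [h1]
      refine le_add_right ?_
      have h2 : (1 : ℝ≥0∞) ≤ ENNReal.ofReal (1 / Real.cos (π * p / 2)) := by
        rw [ENNReal.one_le_ofReal, le_div_iff₀ hcos2, one_mul]
        exact Real.cos_le_one _
      calc P p (F x) = 1 * P p (F x) := (one_mul _).symm
        _ ≤ _ := by gcongr
    · simp only [h0, if_false]
      exact (int_pattern (u := (F x).1) (t := (F x).2) hp hp2 M hK h0 (hsn x) hr0 hr1).trans
        (add_le_add le_rfl herr)
  calc _ ≤ ∫⁻ x, (ENNReal.ofReal (1 / Real.cos (π * p / 2)) * P p (F x) + ε / 2) ∂μT + ε / 2 := by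
        gcongr with x
        exact hpt x
    _ = _ := by
        rw [lintegral_add_right _ measurable_const,
          lintegral_const_mul (f := fun x => P p (F x)) _ ((P_meas p).comp hF)]
        simp only [lintegral_const, measure_univ, mul_one]
        rw [add_assoc, ENNReal.add_halves]

end Pool.Agent.N310.HR
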