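import Pool.Agent.N310.HR.StepA
import Pool.Agent.N310.HR.StepB

/-!
# Iteration: bounded fields are `L^p`-limits of high frequency Riesz fields for small `p`
-/

set_option autoImplicit false

open MeasureTheory Complex Set Filter Metric
open scoped ENNReal Topology Real

namespace Pool.Agent.N310.HR

/-- the three frequencies -/
def kk : Fin 3 → Z2 := ![![1, 0], ![0, 1], ![-1, -1]]

lemma kk_ne (i : Fin 3) : kk i ≠ 0 := by
  fin_cases i
  · intro h; have := congrFun h 0; simp [kk] at this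
  · intro h; have := congrFun h 1; simp [kk] at this
  · intro h; have := congrFun h 0; simp [kk] at this

lemma e_kk0 (y : T2) : e (kk 0) y = (c1 y : ℂ) + s1 y * I := by
  rw [e_eq]
  simp only [kk, Matrix.cons_val_zero, Matrix.cons_val_one, fourier_zero, mul_one, c1, s1]
  exact (Complex.re_add_im _).symm

lemma e_kk1 (y : T2) : e (kk 1) y = (c2 y : ℂ) + s2 y * I := by
  rw [e_eq]
  simp only [kk, Matrix.cons_val_zero, Matrix.cons_val_one, fourier_zero, one_mul, c2, s2]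
  exact (Complex.re_add_im _).symm

lemma e_kk2 (y : T2) : e (kk 2) y = ((c1 y : ℂ) - s1 y * I) * ((c2 y : ℂ) - s2 y * I) := by
  have h : e (kk 2) y = (starRingEnd ℂ) (e (kk 0) y) * (starRingEnd ℂ) (e (kk 1) y) := by
    rw [e_eq, e_eq, e_eq]
    change fourier (-1) (y 0) * fourier (-1) (y 1) =
      (starRingEnd ℂ) (fourier 1 (y 0) * fourier 0 (y 1)) *
        (starRingEnd ℂ) (fourier 0 (y 0) * fourier 1 (y 1))
    rw [fourier_neg, fourier_neg, fourier_zero, fourier_zero, mul_one, one_mul]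
  rw [h, e_kk0, e_kk1]
  simp [sub_eq_add_neg]

lemma hat_kk0 : hat (kk 0) = 1 := by simp [hat, cm, kk]
lemma hat_kk1 : hat (kk 1) = I := by simp [hat, cm, kk]
lemma hat_kk2 : hat (kk 2) = -((√2 / 2 : ℝ) : ℂ) * (1 + I) := by
  have h1 : cm (kk 2) = -1 - I := by simp [cm, kk, sub_eq_add_neg]
  have h2 : ‖(-1 - I : ℂ)‖ = √2 := by
    rw [Complex.norm_eq_sqrt_sq_add_sq]; norm_num
  rw [hat, h1, h2]
  have h3 : (√2 : ℂ) ≠ 0 := by
    have : √2 ≠ 0 := by positivity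
    exact_mod_cast this
  have h4 : ((√2 : ℝ) : ℂ) * ((√2 : ℝ) : ℂ) = 2 := by
    rw [← Complex.ofReal_mul, Real.mul_self_sqrt (by norm_num)]; norm_num
  push_cast
  field_simp
  rw [pow_two, h4]; ring

/-- value of the perturbed unit normal field -/
lemma GA_val (h : ℝ) (y : T2) :
    ((1 : ℝ), (0 : ℂ)) + ∑ i : Fin 3, wv (kk i) (h : ℂ) y =
      (1 + h * fw (c1 y) (s1 y) (c2 y) (s2 y),
        ((h * (s1 y + √2 / 2 * (s1 y * c2 y + c1 y * s2 y)) : ℝ) : ℂ) +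
        ((h * (s2 y + √2 / 2 * (s1 y * c2 y + c1 y * s2 y)) : ℝ) : ℂ) * I) := by
  rw [Fin.sum_univ_three]
  simp only [wv, hat_kk0, hat_kk1, hat_kk2, e_kk0, e_kk1, e_kk2, Prod.mk_add_mk]
  refine Prod.ext ?_ ?_
  · simp [fw]; ring
  · simp
    ring

lemma GA_P {p h : ℝ} (hp : 0 < p) (y : T2) :
    P p (((1 : ℝ), (0 : ℂ)) + ∑ i : Fin 3, wv (kk i) (h : ℂ) y) =
      ENNReal.ofReal ((1 + tw h (√2 / 2) (c1 y) (s1 y) (c2 y) (s2 y)) ^ (p / 2)) := by
  rw [GA_val, P]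
  have h1 : Nn (1 + h * fw (c1 y) (s1 y) (c2 y) (s2 y),
        ((h * (s1 y + √2 / 2 * (s1 y * c2 y + c1 y * s2 y)) : ℝ) : ℂ) +
        ((h * (s2 y + √2 / 2 * (s1 y * c2 y + c1 y * s2 y)) : ℝ) : ℂ) * I)
      = √(1 + tw h (√2 / 2) (c1 y) (s1 y) (c2 y) (s2 y)) := by
    unfold Nn
    congr 1
    simp only
    rw [← Complex.normSq_eq_norm_sq, Complex.normSq_add_mul_I]
    unfold tw rw' fw
    ring
  rw [h1, ENNReal.ofReal_rpow_of_nonneg (Real.sqrt_nonneg _) hp.le]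
  congr 1
  by_cases h2 : 0 ≤ 1 + tw h (√2 / 2) (c1 y) (s1 y) (c2 y) (s2 y)
  · rw [Real.sqrt_eq_rpow, ← Real.rpow_mul h2]
    congr 1; ring
  · exfalso
    apply h2
    have : 1 + tw h (√2 / 2) (c1 y) (s1 y) (c2 y) (s2 y) =
      (1 + h * fw (c1 y) (s1 y) (c2 y) (s2 y)) ^ 2 + h ^ 2 * rw' (√2 / 2) (c1 y) (s1 y) (c2 y) (s2 y) := by
      unfold tw; ring
    rw [this]
    have := rw_nonneg (√2 / 2) (c1 y) (s1 y) (c2 y) (s2 y)
    positivity

lemma sqrt2_sq : (√2 / 2) ^ 2 = (1 : ℝ) / 2 := by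
  rw [div_pow, Real.sq_sqrt (by norm_num)]; norm_num

theorem stepA_const : ∃ (h p q : ℝ), 0 < p ∧ p < 1 / 2 ∧ 0 < q ∧ q < Real.cos (π * p / 2) ∧
    ∫⁻ y, P p (((1 : ℝ), (0 : ℂ)) + ∑ i : Fin 3, wv (kk i) (h : ℂ) y) ∂μT ≤ ENNReal.ofReal q := by
  obtain ⟨h, hh⟩ : ∃ h : ℝ, h = 1 / 30000 := ⟨_, rfl⟩
  have hh0 : 0 < h := by rw [hh]; norm_num
  have hh1 : h ≤ 1 / 1000 := by rw [hh]; norm_num
  obtain ⟨δ, hδ⟩ : ∃ δ : ℝ, δ = h ^ 3 / 5 := ⟨_, rfl⟩
  have hδ0 : 0 < δ := by rw [hδ]; positivity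
  have hδ1 : δ ≤ 1 := by rw [hδ, hh]; norm_num
  obtain ⟨p, hp⟩ : ∃ p : ℝ, p = δ / 4 := ⟨_, rfl⟩
  have hp0 : 0 < p := by rw [hp]; positivity
  have hp1 : p ≤ 1 / 4 := by rw [hp]; linarith
  refine ⟨h, p, 1 - p / 2 * δ + p ^ 2 / 4, hp0, by linarith, by nlinarith, ?_, ?_⟩
  · have h1 := Real.one_sub_sq_div_two_le_cos (x := π * p / 2)
    have h2 : π ^ 2 ≤ 10 := by
      have := Real.pi_lt_d2
      nlinarith [Real.pi_pos]
    have h3 : (π * p / 2) ^ 2 / 2 ≤ 10 / 8 * p ^ 2 := by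
      have : (π * p / 2) ^ 2 / 2 = π ^ 2 / 8 * p ^ 2 := by ring
      rw [this]
      have := sq_nonneg p
      nlinarith
    have h4 : δ = 4 * p := by rw [hp]; ring
    have h5 : 0 < p ^ 2 := by positivity
    rw [h4]
    nlinarith
  · have hw := sqrt2_sq
    set w : ℝ := √2 / 2 with hwdef
    have hJA : Jc (Aw h w) := by unfold Jc Aw fw rw'; fun_prop
    simp_rw [GA_P hp0]
    have hpt : ∀ y, (1 + tw h w (c1 y) (s1 y) (c2 y) (s2 y)) ^ (p / 2) ≤
        1 + p / 2 * (ev (Aw h w) y + 6000 * h ^ 4) + p ^ 2 / 4 := by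
      intro y
      have hb := tw_bound hh0 hh1 hw (cs1 y) (cs2 y)
      have h1 := rpow_bound (hb.trans (by rw [hh]; norm_num)) hp0 (by linarith only [hp1])
      have h2 := tw_log hh0 hh1 hw (cs1 y) (cs2 y)
      refine h1.trans ?_
      unfold ev
      gcongr
    have hint : Integrable (fun y => 1 + p / 2 * (ev (Aw h w) y + 6000 * h ^ 4) + p ^ 2 / 4) μT :=
      (((integrable_const _).add (((ev_int hJA).add (integrable_const _)).const_mul _)).add
        (integrable_const _))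
    calc ∫⁻ y, ENNReal.ofReal ((1 + tw h w (c1 y) (s1 y) (c2 y) (s2 y)) ^ (p / 2)) ∂μT
        ≤ ∫⁻ y, ENNReal.ofReal (1 + p / 2 * (ev (Aw h w) y + 6000 * h ^ 4) + p ^ 2 / 4) ∂μT := by
          apply lintegral_mono
          intro y
          exact ENNReal.ofReal_le_ofReal (hpt y)
      _ = ENNReal.ofReal (∫ y, (1 + p / 2 * (ev (Aw h w) y + 6000 * h ^ 4) + p ^ 2 / 4) ∂μT) := by
          rw [ofReal_integral_eq_lintegral_ofReal hint]
          refine Eventually.of_forall fun y => ?_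
          simp only [Pi.zero_apply]
          refine le_trans ?_ (hpt y)
          apply Real.rpow_nonneg
          have := (abs_le.mp (tw_bound hh0 hh1 hw (cs1 y) (cs2 y))).1
          linarith only [this, hh1, hh0]
      _ ≤ _ := by
          apply ENNReal.ofReal_le_ofReal
          have hI : ∫ y, (1 + p / 2 * (ev (Aw h w) y + 6000 * h ^ 4) + p ^ 2 / 4) ∂μT
              = 1 + p / 2 * (h ^ 3 * (1 - 2 * w) + 6000 * h ^ 4) + p ^ 2 / 4 := by
            have e1 : (fun y => 1 + p / 2 * (ev (Aw h w) y + 6000 * h ^ 4) + p ^ 2 / 4) =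
              fun y => p / 2 * ev (Aw h w) y + (1 + p / 2 * (6000 * h ^ 4) + p ^ 2 / 4) := by
              funext y; ring
            rw [e1, integral_add ((ev_int hJA).const_mul _) (integrable_const _),
              integral_const_mul, Aw_int h hw]
            simp only [integral_const, probReal_univ, one_smul]
            ring
          rw [hI]
          have h2w : 1 - 2 * w ≤ -(2 / 5) := by
            have : (1.4 : ℝ) ≤ √2 := by
              apply Real.le_sqrt_of_sq_le; norm_num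
            rw [hwdef]; linarith
          have h3 : h ^ 3 * (1 - 2 * w) + 6000 * h ^ 4 ≤ -δ := by
            have h5 : 6000 * h ^ 4 = h ^ 3 / 5 := by rw [hh]; norm_num
            have h6 : 0 < h ^ 3 := by positivity
            rw [h5, hδ]
            nlinarith
          nlinarith

theorem stepA {h p q : ℝ} (hp : 0 < p) (hp1 : p ≤ 1)
    (hq : ∫⁻ y, P p (((1 : ℝ), (0 : ℂ)) + ∑ i : Fin 3, wv (kk i) (h : ℂ) y) ∂μT ≤ ENNReal.ofReal q)
    {F : T2 → V} (hF : Measurable F) {B : ℝ} (hB : ∀ x, Nn (F x) ≤ B) (Λ : ℝ) {ε : ℝ≥0∞}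
    (hε : ε ≠ 0) :
    ∃ H ∈ 𝓕 Λ, ∫⁻ x, P p (F x + H x) ∂μT ≤
      ∫⁻ x, (ENNReal.ofReal q * P p (F x) + P p (0, (F x).2)) ∂μT + ε := by
  obtain ⟨H, hH, hle⟩ := one_step hp hp1 (P_meas p) (C := 1) (by simp)
    (fun v w => by rw [one_mul]; exact P_add hp.le hp1 v w) hF kk kk_ne
    (fun _ x => ((h * (F x).1 : ℝ) : ℂ))
    (fun _ => Complex.measurable_ofReal.comp ((measurable_fst.comp hF).const_mul _))
    (B := |h| * B)
    (fun _ x => by
      rw [Complex.norm_real, Real.norm_eq_abs, abs_mul]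
      gcongr
      exact (abs_fst_le _).trans (hB x)) Λ hε
  refine ⟨H, hH, hle.trans ?_⟩
  gcongr with x
  set u := (F x).1 with hu
  have hsplit : ∀ y, F x + ∑ i : Fin 3, wv (kk i) ((h * u : ℝ) : ℂ) y =
      u • (((1 : ℝ), (0 : ℂ)) + ∑ i : Fin 3, wv (kk i) (h : ℂ) y) + (0, (F x).2) := by
    intro y
    have h1 : ∀ i, wv (kk i) ((h * u : ℝ) : ℂ) y = u • wv (kk i) (h : ℂ) y := by
      intro i
      simp only [wv, Prod.smul_mk, smul_eq_mul, Complex.real_smul]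
      have : ((h * u : ℝ) : ℂ) * e (kk i) y = (u : ℂ) * ((h : ℂ) * e (kk i) y) := by
        push_cast; ring
      rw [this, Complex.re_ofReal_mul, Complex.im_ofReal_mul]
      refine Prod.ext rfl ?_
      simp only
      push_cast; ring
    simp_rw [h1, smul_add, Finset.smul_sum]
    refine Prod.ext ?_ ?_
    · simp [hu]
    · simp; ring
  have hPu : ∀ v : V, P p (u • v) = (ENNReal.ofReal |u|) ^ p * P p v := by
    intro v
    rw [P, P, Nn_smul, ENNReal.ofReal_mul (abs_nonneg _), ENNReal.mul_rpow_of_nonneg _ _ hp.le]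
  have hGm : Measurable fun y => P p (((1 : ℝ), (0 : ℂ)) + ∑ i : Fin 3, wv (kk i) (h : ℂ) y) := by
    apply (P_meas p).comp
    exact measurable_const.add (Finset.measurable_sum _ fun i _ => (wv_cont _ _).measurable)
  calc ∫⁻ y, P p (F x + ∑ i : Fin 3, wv (kk i) ((h * u : ℝ) : ℂ) y) ∂μT
      ≤ ∫⁻ y, ((ENNReal.ofReal |u|) ^ p *
          P p (((1 : ℝ), (0 : ℂ)) + ∑ i : Fin 3, wv (kk i) (h : ℂ) y) + P p (0, (F x).2)) ∂μT := by
        apply lintegral_mono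
        intro y
        simp only
        rw [hsplit y, ← hPu]
        exact P_add hp.le hp1 _ _
    _ = (ENNReal.ofReal |u|) ^ p *
          ∫⁻ y, P p (((1 : ℝ), (0 : ℂ)) + ∑ i : Fin 3, wv (kk i) (h : ℂ) y) ∂μT
          + P p (0, (F x).2) := by
        rw [lintegral_add_right _ measurable_const, lintegral_const_mul _ hGm]
        simp
    _ ≤ _ := by
        rw [mul_comm (ENNReal.ofReal q)]
        gcongr
        unfold P
        gcongr
        exact abs_fst_le _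

lemma bdd_P_fin {p : ℝ} (hp : 0 < p) {F : T2 → V} {B : ℝ} (hB : ∀ x, Nn (F x) ≤ B) :
    ∫⁻ x, P p (F x) ∂μT ≠ ⊤ := by
  have h1 : ∫⁻ x, P p (F x) ∂μT ≤ ∫⁻ _, (ENNReal.ofReal B) ^ p ∂μT :=
    lintegral_mono fun x => P_mono hp.le (hB x)
  refine ne_top_of_le_ne_top ?_ h1
  simp only [lintegral_const, measure_univ, mul_one]
  exact ENNReal.rpow_ne_top_of_nonneg hp.le ENNReal.ofReal_ne_top

lemma field_bdd {Λ : ℝ} {H : T2 → V} (hH : H ∈ 𝓕 Λ) : ∃ B, ∀ x, Nn (H x) ≤ B := by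
  have hc : Continuous fun x => Nn (H x) := Nn_cont.comp (𝓕_cont hH)
  obtain ⟨B, hB⟩ := (isCompact_range hc).bddAbove
  exact ⟨B, fun x => hB ⟨x, rfl⟩⟩

/-- **Density theorem.** For some `p ∈ (0, 1/2)`, every bounded measurable field can be cancelled
in `L^p` by a real trigonometric Riesz field of arbitrarily high frequency. -/
theorem density : ∃ p : ℝ, 0 < p ∧ p < 1 / 2 ∧ ∀ (F : T2 → V), Measurable F →
    (∃ B, ∀ x, Nn (F x) ≤ B) → ∀ (Λ : ℝ) (ε : ℝ≥0∞), ε ≠ 0 →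
      ∃ H ∈ 𝓕 Λ, ∫⁻ x, P p (F x + H x) ∂μT ≤ ε := by
  obtain ⟨h, p, q, hp, hp2, hq0, hq1, hq⟩ := stepA_const
  refine ⟨p, hp, hp2, ?_⟩
  rintro F hF ⟨B, hB⟩ Λ ε hε
  have hcos : 0 < Real.cos (π * p / 2) := hq0.trans hq1
  -- one round
  have round : ∀ H ∈ 𝓕 Λ, ∀ δ : ℝ≥0∞, δ ≠ 0 → ∃ H' ∈ 𝓕 Λ, ∫⁻ x, P p (F x + H' x) ∂μT ≤
      ENNReal.ofReal (q / Real.cos (π * p / 2)) * ∫⁻ x, P p (F x + H x) ∂μT +
        (ENNReal.ofReal q * δ + δ) := by
    intro H hH δ hδ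
    obtain ⟨BH, hBH⟩ := field_bdd hH
    have hFH : Measurable fun x => F x + H x := hF.add (𝓕_cont hH).measurable
    have hM : ENNReal.ofReal (1 / q) ≠ ⊤ := ENNReal.ofReal_ne_top
    obtain ⟨H1, hH1, h1⟩ := stepB hp hp2 hM hFH (B := B + BH)
      (fun x => (Nn_add _ _).trans (add_le_add (hB x) (hBH x))) Λ hδ
    obtain ⟨BH1, hBH1⟩ := field_bdd hH1
    have hFH1 : Measurable fun x => F x + H x + H1 x := hFH.add (𝓕_cont hH1).measurable
    obtain ⟨H2, hH2, h2⟩ := stepA hp (by linarith) hq hFH1 (B := B + BH + BH1)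
      (fun x => (Nn_add _ _).trans (add_le_add ((Nn_add _ _).trans (add_le_add (hB x) (hBH x)))
        (hBH1 x))) Λ hδ
    refine ⟨H + H1 + H2, Submodule.add_mem _ (Submodule.add_mem _ hH hH1) hH2, ?_⟩
    have h3 : ∀ x, F x + (H + H1 + H2) x = F x + H x + H1 x + H2 x := by
      intro x; simp only [Pi.add_apply]; abel
    simp_rw [h3]
    refine h2.trans ?_
    have h4 : ∀ x, ENNReal.ofReal q * P p (F x + H x + H1 x) + P p (0, (F x + H x + H1 x).2) =
        ENNReal.ofReal q * cost p (ENNReal.ofReal (1 / q)) (F x + H x + H1 x) := by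
      intro x
      rw [cost, mul_add, ← mul_assoc, ← ENNReal.ofReal_mul hq0.le, mul_one_div_cancel hq0.ne',
        ENNReal.ofReal_one, one_mul]
    simp_rw [h4]
    rw [lintegral_const_mul (f := fun x => cost p (ENNReal.ofReal (1 / q)) (F x + H x + H1 x)) _
      ((cost_meas p _).comp hFH1), ← add_assoc]
    gcongr
    calc _ ≤ ENNReal.ofReal q * (ENNReal.ofReal (1 / Real.cos (π * p / 2)) *
          ∫⁻ x, P p (F x + H x) ∂μT + δ) := by gcongr
      _ = _ := by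
        rw [mul_add, ← mul_assoc, ← ENNReal.ofReal_mul hq0.le, mul_one_div]
  -- the infimum
  set κ : ℝ≥0∞ := ENNReal.ofReal (q / Real.cos (π * p / 2)) with hκ
  have hκ1 : κ < 1 := by
    rw [hκ, ENNReal.ofReal_lt_one, div_lt_one hcos]; exact hq1
  set J : ℝ≥0∞ := ⨅ H : 𝓕 Λ, ∫⁻ x, P p (F x + H.1 x) ∂μT with hJ
  have hJtop : J ≠ ⊤ := by
    refine ne_top_of_le_ne_top (bdd_P_fin hp hB) ?_
    refine (iInf_le _ (0 : 𝓕 Λ)).trans (le_of_eq ?_)
    simp
  have hJle : J ≤ κ * J := by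
    have hK : ∀ H : 𝓕 Λ, J ≤ κ * ∫⁻ x, P p (F x + H.1 x) ∂μT := by
      intro H
      refine ENNReal.le_of_forall_pos_le_add fun δ hδ _ => ?_
      obtain ⟨δ', hδ', hlt⟩ := ENNReal.exists_nnreal_pos_mul_lt
        (a := ENNReal.ofReal q + 1) (b := (δ : ℝ≥0∞)) (by finiteness)
        (by exact_mod_cast hδ.ne')
      obtain ⟨H', hH', hle⟩ := round H.1 H.2 δ' (by exact_mod_cast hδ'.ne')
      calc J ≤ ∫⁻ x, P p (F x + H' x) ∂μT := iInf_le _ (⟨H', hH'⟩ : 𝓕 Λ)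
        _ ≤ κ * ∫⁻ x, P p (F x + H.1 x) ∂μT + (ENNReal.ofReal q * δ' + δ') := hle
        _ ≤ _ := by
          gcongr
          refine le_trans (le_of_eq ?_) hlt.le
          ring
    have hne : Nonempty (𝓕 Λ) := ⟨0⟩
    rw [hJ, ENNReal.mul_iInf_of_ne] 
    · exact le_iInf fun H => hK H
    · rw [hκ]
      simp only [ne_eq, ENNReal.ofReal_eq_zero, not_le]
      positivity
    · exact ENNReal.ofReal_ne_top
  have hJ0 : J = 0 := by
    by_contra hne
    have : κ * J < 1 * J := ENNReal.mul_lt_mul_left hne hJtop hκ1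
    rw [one_mul] at this
    exact absurd hJle (not_le.mpr this)
  have : J < ε := by rw [hJ0]; exact pos_iff_ne_zero.mpr hε
  rw [hJ, iInf_lt_iff] at this
  obtain ⟨H, hH⟩ := this
  exact ⟨H.1, H.2, hH.le⟩

end Pool.Agent.N310.HR
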