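import Pool.Agent.N310.HR.Torus

/-!
# The one-step lemma: inserting high frequency patterns with measurable coefficients
-/

set_option autoImplicit false

open MeasureTheory Complex Set Filter
open scoped ENNReal Topology

namespace Pool.Agent.N310.HR

lemma cm_tendsto {m : Z2} (l : Z2) :
    Tendsto (fun N : ℕ => cm m + cm l / (N : ℂ)) atTop (𝓝 (cm m)) := by
  have h : Tendsto (fun N : ℕ => cm l / (N : ℂ)) atTop (𝓝 0) := by
    have := tendsto_const_div_atTop_nhds_zero_nat (1 : ℝ)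
    rw [tendsto_zero_iff_norm_tendsto_zero]
    have h2 : (fun N : ℕ => ‖cm l / (N : ℂ)‖) = fun N : ℕ => ‖cm l‖ / (N : ℝ) := by
      funext N; simp
    rw [h2]
    exact tendsto_const_div_atTop_nhds_zero_nat _
  simpa using tendsto_const_nhds.add h

lemma hat_tendsto {m : Z2} (hm : m ≠ 0) (l : Z2) :
    Tendsto (fun N : ℕ => hat (N • m + l)) atTop (𝓝 (hat m)) := by
  have hc : ContinuousAt (fun z : ℂ => z / (‖z‖ : ℂ)) (cm m) := by
    apply ContinuousAt.div continuousAt_id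
    · exact (Complex.continuous_ofReal.comp continuous_norm).continuousAt
    · have := norm_ne_zero_iff.mpr (cm_ne_zero hm)
      exact_mod_cast this
  have h1 := hc.tendsto.comp (cm_tendsto (m := m) l)
  refine h1.congr' ?_
  filter_upwards [eventually_gt_atTop 0] with N hN
  have hN' : (N : ℂ) ≠ 0 := by exact_mod_cast hN.ne'
  simp only [Function.comp, hat, cm_add, cm_nsmul]
  have h2 : (N : ℂ) * cm m + cm l = (N : ℂ) * (cm m + cm l / N) := by
    field_simp
  rw [h2, norm_mul, show ‖(N : ℂ)‖ = (N : ℝ) by simp]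
  push_cast
  rw [mul_div_mul_left _ _ hN']

lemma large_freq {m : Z2} (hm : m ≠ 0) (l : Z2) (Λ : ℝ) :
    ∀ᶠ N : ℕ in atTop, Λ ≤ ‖cm (N • m + l)‖ := by
  have hpos : 0 < ‖cm m‖ := norm_pos_iff.mpr (cm_ne_zero hm)
  have h1 : Tendsto (fun N : ℕ => (N : ℝ) * ‖cm m‖) atTop atTop :=
    tendsto_natCast_atTop_atTop.atTop_mul_const hpos
  filter_upwards [h1.eventually_ge_atTop (Λ + ‖cm l‖)] with N hN
  rw [cm_add, cm_nsmul]
  have h2 : ‖(N : ℂ) * cm m‖ = (N : ℝ) * ‖cm m‖ := by simp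
  have h3 := norm_sub_le_norm_add ((N : ℂ) * cm m) (cm l)
  rw [h2] at h3
  linarith

lemma approx {p : ℝ} (hp : 0 < p) (hp1 : p ≤ 1) {a : T2 → ℂ} (ha : Measurable a) {B : ℝ}
    (hB : ∀ x, ‖a x‖ ≤ B) {δ : ℝ≥0∞} (hδ : δ ≠ 0) :
    ∃ b : Z2 →₀ ℂ, ∫⁻ x, ‖a x - b.sum (fun l c => c * e l x)‖ₑ ^ p ∂μT ≤ δ := by
  -- choose a radius
  obtain ⟨r, hr0, hr⟩ : ∃ r : ℝ, 0 < r ∧ (ENNReal.ofReal r) ^ p ≤ δ := by
    by_cases htop : δ = ⊤
    · exact ⟨1, one_pos, by simp [htop]⟩
    · refine ⟨δ.toReal ^ (1 / p), Real.rpow_pos_of_pos (ENNReal.toReal_pos hδ htop) _, ?_⟩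
      rw [ENNReal.ofReal_rpow_of_pos (Real.rpow_pos_of_pos (ENNReal.toReal_pos hδ htop) _),
        ← Real.rpow_mul ENNReal.toReal_nonneg, one_div, inv_mul_cancel₀ hp.ne', Real.rpow_one,
        ENNReal.ofReal_toReal htop]
  have hmem : MemLp a 2 μT := MemLp.of_bound ha.aestronglyMeasurable B (Eventually.of_forall hB)
  have hdense : (Submodule.span ℂ (Set.range (fun n : Z2 =>
      (ContinuousMap.toLp (E := ℂ) 2 μT ℂ (UnitAddTorus.mFourier n))))).topologicalClosure = ⊤ :=
    UnitAddTorus.span_mFourierLp_closure_eq_top (d := Fin 2) (p := 2) (by simp)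
  have hf : hmem.toLp a ∈ (Submodule.span ℂ (Set.range (fun n : Z2 =>
      (ContinuousMap.toLp (E := ℂ) 2 μT ℂ (UnitAddTorus.mFourier n))))).topologicalClosure := by
    rw [hdense]; trivial
  obtain ⟨g, hg, hgr⟩ := Metric.mem_closure_iff.mp hf r hr0
  obtain ⟨c, hc⟩ := Finsupp.mem_span_range_iff_exists_finsupp.mp hg
  refine ⟨c, ?_⟩
  have hg' : (g : T2 → ℂ) =ᵐ[μT] fun x => c.sum (fun l c => c * e l x) := by
    have h1 : g = ContinuousMap.toLp (E := ℂ) 2 μT ℂ (c.sum fun l a => a • UnitAddTorus.mFourier l) := by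
      rw [← hc, map_finsuppSum]
      simp
    rw [h1]
    refine (ContinuousMap.coeFn_toLp μT _).trans (Eventually.of_forall fun x => ?_)
    simp only [Finsupp.sum, ContinuousMap.coe_sum, Finset.sum_apply, ContinuousMap.coe_smul,
      Pi.smul_apply, smul_eq_mul, e]
  have h2 : eLpNorm (fun x => a x - c.sum (fun l c => c * e l x)) 2 μT ≤ ENNReal.ofReal r := by
    rw [dist_eq_norm, Lp.norm_def] at hgr
    have h3 : eLpNorm (fun x => a x - c.sum (fun l c => c * e l x)) 2 μT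
        = eLpNorm (⇑(hmem.toLp a - g)) 2 μT := by
      apply eLpNorm_congr_ae
      filter_upwards [Lp.coeFn_sub (hmem.toLp a) g, hmem.coeFn_toLp, hg'] with x h4 h5 h6
      rw [h4, Pi.sub_apply, h5, h6]
    rw [h3, ← ENNReal.ofReal_toReal (Lp.eLpNorm_ne_top (hmem.toLp a - g))]
    exact ENNReal.ofReal_le_ofReal hgr.le
  have hms : AEStronglyMeasurable (fun x => a x - c.sum (fun l c => c * e l x)) μT := by
    apply Measurable.aestronglyMeasurable
    apply ha.sub
    simp only [Finsupp.sum]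
    exact Finset.measurable_sum _ fun i _ => (e_meas i).const_mul _
  have h4 : eLpNorm (fun x => a x - c.sum (fun l c => c * e l x)) (ENNReal.ofReal p) μT
      ≤ ENNReal.ofReal r :=
    (eLpNorm_le_eLpNorm_of_exponent_le (by
      rw [show (2 : ℝ≥0∞) = ENNReal.ofReal 2 by simp]
      exact ENNReal.ofReal_le_ofReal (by linarith)) hms).trans h2
  rw [eLpNorm_eq_lintegral_rpow_enorm_toReal (by simpa using hp) (by simp),
    ENNReal.toReal_ofReal hp.le] at h4
  refine le_trans ?_ hr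
  have h5 := ENNReal.rpow_le_rpow h4 hp.le
  rwa [← ENNReal.rpow_mul, one_div, inv_mul_cancel₀ hp.ne', ENNReal.rpow_one] at h5


lemma wv_sub (m : Z2) (c d : ℂ) (x : T2) : wv m (c - d) x = wv m c x - wv m d x := by
  simp only [wv, sub_mul, Complex.sub_re, Complex.sub_im, Prod.mk_sub_mk]
  push_cast
  rw [mul_sub]

lemma wv_sum {κ : Type*} (s : Finset κ) (m : Z2) (c : κ → ℂ) (x : T2) :
    wv m (∑ l ∈ s, c l) x = ∑ l ∈ s, wv m (c l) x := by
  classical
  induction s using Finset.induction_on with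
  | empty => simp [wv]
  | insert a s ha ih =>
    rw [Finset.sum_insert ha, Finset.sum_insert ha, ← ih]
    simp only [wv, add_mul, Complex.add_re, Complex.add_im, Prod.mk_add_mk]
    push_cast
    rw [mul_add]

lemma wv_meas {α : Type*} [MeasurableSpace α] (m : Z2) {a : α → ℂ} (ha : Measurable a)
    {z : α → T2} (hz : Measurable z) : Measurable fun q => wv m (a q) (z q) := by
  unfold wv
  have h : Measurable fun q => a q * e m (z q) := ha.mul ((e_meas m).comp hz)
  exact (Complex.measurable_re.comp h).prodMk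
    (measurable_const.mul (Complex.measurable_ofReal.comp (Complex.measurable_im.comp h)))

/-- comparison of the inserted field with the two-scale field -/
lemma block_bound {p : ℝ} (hp : 0 < p) (hp1 : p ≤ 1) (N : ℕ) (m : Z2) (b : Z2 →₀ ℂ) (α : ℂ)
    (x y : T2) :
    P p (∑ l ∈ b.support, wv (N • m + l) (b l * e m y) x - wv m α (N • x + y)) ≤
      ‖α - b.sum (fun l c => c * e l x)‖ₑ ^ p +
        ∑ l ∈ b.support, (ENNReal.ofReal (‖hat m - hat (N • m + l)‖ * ‖b l‖)) ^ p := by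
  have h1 : ∑ l ∈ b.support, wv (N • m + l) (b l * e m y) x - wv m α (N • x + y)
      = wv m (b.sum (fun l c => c * e l x) - α) (N • x + y) +
        ∑ l ∈ b.support, (wv (N • m + l) (b l * e m y) x - wv m (b l * e l x) (N • x + y)) := by
    rw [wv_sub, Finsupp.sum, wv_sum, Finset.sum_sub_distrib]
    abel
  rw [h1]
  refine (P_add hp.le hp1 _ _).trans (add_le_add ?_ ?_)
  · have := P_mono hp.le (wv_Nn m (b.sum (fun l c => c * e l x) - α) (N • x + y))
    refine this.trans (le_of_eq ?_)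
    rw [norm_sub_rev, ofReal_norm]
  · refine (P_sum hp hp1 _ _).trans (Finset.sum_le_sum fun l _ => ?_)
    apply P_mono hp.le
    have hz : b l * e m y * e (N • m + l) x = b l * e l x * e m (N • x + y) := by
      rw [e_add_left, e_add_right, e_nsmul]; ring
    have h2 : wv (N • m + l) (b l * e m y) x - wv m (b l * e l x) (N • x + y)
        = (0, (hat (N • m + l) - hat m) * (((b l * e l x * e m (N • x + y)).im : ℝ) : ℂ)) := by
      simp only [wv, hz, Prod.mk_sub_mk, sub_self, sub_mul]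
    rw [h2, Nn_snd, norm_mul, norm_sub_rev, Complex.norm_real]
    gcongr
    refine (Complex.abs_im_le_norm _).trans (le_of_eq ?_)
    rw [norm_mul, norm_mul, e_norm, e_norm, mul_one, mul_one]

theorem one_step {ι : Type} [Fintype ι] {p : ℝ} (hp : 0 < p) (hp1 : p ≤ 1)
    {Φ : V → ℝ≥0∞} (hΦ : Measurable Φ) {C : ℝ≥0∞} (hC : C ≠ ⊤)
    (hΦ2 : ∀ v w, Φ (v + w) ≤ Φ v + C * P p w)
    {F : T2 → V} (hF : Measurable F) (μ : ι → Z2) (hμ : ∀ i, μ i ≠ 0)
    (a : ι → T2 → ℂ) (ha : ∀ i, Measurable (a i)) {B : ℝ} (hB : ∀ i x, ‖a i x‖ ≤ B)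
    (Λ : ℝ) {ε : ℝ≥0∞} (hε : ε ≠ 0) :
    ∃ H ∈ 𝓕 Λ, ∫⁻ x, Φ (F x + H x) ∂μT ≤
      ∫⁻ x, ∫⁻ y, Φ (F x + ∑ i, wv (μ i) (a i x) y) ∂μT ∂μT + ε := by
  classical
  obtain ⟨δ, hδ0, hδ⟩ := ENNReal.exists_nnreal_pos_mul_lt
    (a := C * (Fintype.card ι + 1)) (b := ε) (by finiteness) hε
  have hδ' : (δ : ℝ≥0∞) ≠ 0 := by exact_mod_cast hδ0.ne'
  choose b hb using fun i => approx hp hp1 (ha i) (hB i) hδ'
  -- the tail
  have htail : Tendsto (fun N : ℕ => ∑ i, ∑ l ∈ (b i).support,
      (ENNReal.ofReal (‖hat (μ i) - hat (N • μ i + l)‖ * ‖b i l‖)) ^ p) atTop (𝓝 0) := by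
    rw [show (0 : ℝ≥0∞) = ∑ i : ι, ∑ l ∈ (b i).support, (0 : ℝ≥0∞) by simp]
    refine tendsto_finsetSum _ fun i _ => tendsto_finsetSum _ fun l _ => ?_
    have h1 : Tendsto (fun N : ℕ => ‖hat (μ i) - hat (N • μ i + l)‖ * ‖b i l‖) atTop (𝓝 0) := by
      have := ((tendsto_const_nhds (x := hat (μ i))).sub (hat_tendsto (hμ i) l)).norm
      simpa using this.mul_const ‖b i l‖
    have h2 := (ENNReal.continuous_rpow_const (y := p)).tendsto (ENNReal.ofReal 0) |>.comp
      ((ENNReal.continuous_ofReal.tendsto 0).comp h1)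
    rw [ENNReal.ofReal_zero, ENNReal.zero_rpow_of_pos hp] at h2
    exact h2
  have hfreq : ∀ᶠ N : ℕ in atTop, ∀ i, ∀ l ∈ (b i).support, max Λ 1 ≤ ‖cm (N • μ i + l)‖ := by
    rw [eventually_all]
    intro i
    rw [Finset.eventually_all]
    intro l _
    exact large_freq (hμ i) l _
  obtain ⟨N, hN1, hN2⟩ := ((htail.eventually_le_const (pos_iff_ne_zero.mpr hδ')).and hfreq).exists
  set T := ∑ i, ∑ l ∈ (b i).support,
      (ENNReal.ofReal (‖hat (μ i) - hat (N • μ i + l)‖ * ‖b i l‖)) ^ p with hT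
  -- the inserted fields
  set Hy : T2 → T2 → V := fun y x => ∑ i, ∑ l ∈ (b i).support,
    wv (N • μ i + l) (b i l * e (μ i) y) x with hHy
  have hmem : ∀ y, Hy y ∈ 𝓕 Λ := by
    intro y
    have : Hy y = ∑ i, ∑ l ∈ (b i).support, wv (N • μ i + l) (b i l * e (μ i) y) := by
      funext x
      simp [hHy, Finset.sum_apply]
    rw [this]
    refine Submodule.sum_mem _ fun i _ => Submodule.sum_mem _ fun l hl => ?_
    have h3 := hN2 i l hl
    refine wv_mem ?_ ((le_max_left _ _).trans h3) _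
    intro h0
    rw [h0] at h3
    have : cm 0 = 0 := by simp [cm]
    rw [this, norm_zero] at h3
    have := le_max_right Λ 1
    linarith
  have hpt : ∀ x y, Φ (F x + Hy y x) ≤ Φ (F x + ∑ i, wv (μ i) (a i x) (N • x + y)) +
      C * (∑ i, ‖a i x - (b i).sum (fun l c => c * e l x)‖ₑ ^ p + T) := by
    intro x y
    have h1 : F x + Hy y x = (F x + ∑ i, wv (μ i) (a i x) (N • x + y)) +
        ∑ i, (∑ l ∈ (b i).support, wv (N • μ i + l) (b i l * e (μ i) y) x
          - wv (μ i) (a i x) (N • x + y)) := by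
      rw [Finset.sum_sub_distrib]; simp only [hHy]; abel
    rw [h1]
    refine (hΦ2 _ _).trans ?_
    gcongr
    refine (P_sum hp hp1 _ _).trans ?_
    rw [hT, ← Finset.sum_add_distrib]
    exact Finset.sum_le_sum fun i _ => block_bound hp hp1 N (μ i) (b i) (a i x) x y
  -- measurability of the two-scale integrand
  have hmeas : Measurable fun q : T2 × T2 =>
      Φ (F q.2 + ∑ i, wv (μ i) (a i q.2) (N • q.2 + q.1)) := by
    apply hΦ.comp
    apply (hF.comp measurable_snd).add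
    refine Finset.measurable_sum _ fun i _ => ?_
    exact wv_meas _ ((ha i).comp measurable_snd) ((measurable_snd.const_smul N).add measurable_fst)
  have hGm : Measurable fun y : T2 =>
      ∫⁻ x, Φ (F x + ∑ i, wv (μ i) (a i x) (N • x + y)) ∂μT := hmeas.lintegral_prod_right'
  obtain ⟨y, hy⟩ := exists_le_lintegral (μ := μT) hGm.aemeasurable
  refine ⟨Hy y, hmem y, ?_⟩
  have hswap : ∫⁻ y, ∫⁻ x, Φ (F x + ∑ i, wv (μ i) (a i x) (N • x + y)) ∂μT ∂μT
      = ∫⁻ x, ∫⁻ y, Φ (F x + ∑ i, wv (μ i) (a i x) y) ∂μT ∂μT := by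
    rw [lintegral_lintegral_swap hmeas.aemeasurable]
    refine lintegral_congr fun x => ?_
    exact lintegral_add_left_eq_self (μ := μT) (fun z => Φ (F x + ∑ i, wv (μ i) (a i x) z)) (N • x)
  rw [hswap] at hy
  have hbm : ∀ i, Measurable fun x => ‖a i x - (b i).sum (fun l c => c * e l x)‖ₑ ^ p := by
    intro i
    apply Measurable.pow_const
    apply Measurable.enorm
    apply (ha i).sub
    simp only [Finsupp.sum]
    exact Finset.measurable_sum _ fun l _ => (e_meas l).const_mul _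
  calc ∫⁻ x, Φ (F x + Hy y x) ∂μT
      ≤ ∫⁻ x, (Φ (F x + ∑ i, wv (μ i) (a i x) (N • x + y)) +
        C * (∑ i, ‖a i x - (b i).sum (fun l c => c * e l x)‖ₑ ^ p + T)) ∂μT :=
        lintegral_mono fun x => hpt x y
    _ = ∫⁻ x, Φ (F x + ∑ i, wv (μ i) (a i x) (N • x + y)) ∂μT +
        C * (∑ i, ∫⁻ x, ‖a i x - (b i).sum (fun l c => c * e l x)‖ₑ ^ p ∂μT + T) := by
        rw [lintegral_add_right, lintegral_const_mul, lintegral_add_right, lintegral_finsetSum]
        · simp
        · exact fun i _ => hbm i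
        · exact measurable_const
        · exact (Finset.measurable_sum _ fun i _ => hbm i).add measurable_const
        · exact ((Finset.measurable_sum _ fun i _ => hbm i).add measurable_const).const_mul _
    _ ≤ _ + C * (∑ i : ι, (δ : ℝ≥0∞) + δ) := by
        gcongr with i
        exact hb i
    _ ≤ _ := by
        have h5 : C * (∑ i : ι, (δ : ℝ≥0∞) + δ) = δ * (C * (Fintype.card ι + 1)) := by
          simp; ring
        rw [h5]
        exact add_le_add hy hδ.le

end Pool.Agent.N310.HR
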