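import Pool.Agent.N310.HR.Torus

/-!
# The three-wave step: a perturbation lowering the logarithmic mean

We show that for small `p` there is a trigonometric field `G` with
`∫ |(1,0) + G|^p < cos (π p / 2)`.
-/

set_option autoImplicit false

open MeasureTheory Complex Set Filter Metric
open scoped ENNReal Topology Real

namespace Pool.Agent.N310.HR

noncomputable def c1 (y : T2) : ℝ := (fourier 1 (y 0) : ℂ).re
noncomputable def s1 (y : T2) : ℝ := (fourier 1 (y 0) : ℂ).im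
noncomputable def c2 (y : T2) : ℝ := (fourier 1 (y 1) : ℂ).re
noncomputable def s2 (y : T2) : ℝ := (fourier 1 (y 1) : ℂ).im

lemma c1_cont : Continuous c1 := by
  unfold c1
  exact Complex.continuous_re.comp ((fourier 1).continuous.comp (continuous_apply 0))
lemma s1_cont : Continuous s1 := by
  unfold s1
  exact Complex.continuous_im.comp ((fourier 1).continuous.comp (continuous_apply 0))
lemma c2_cont : Continuous c2 := by
  unfold c2
  exact Complex.continuous_re.comp ((fourier 1).continuous.comp (continuous_apply 1))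
lemma s2_cont : Continuous s2 := by
  unfold s2
  exact Complex.continuous_im.comp ((fourier 1).continuous.comp (continuous_apply 1))

lemma cs1 (y : T2) : c1 y ^ 2 + s1 y ^ 2 = 1 := by
  have h : ‖(fourier 1 (y 0) : ℂ)‖ ^ 2 = 1 := by
    rw [fourier_apply, Circle.norm_coe]; norm_num
  rw [← Complex.normSq_eq_norm_sq, Complex.normSq_apply] at h
  unfold c1 s1; nlinarith

lemma cs2 (y : T2) : c2 y ^ 2 + s2 y ^ 2 = 1 := by
  have h : ‖(fourier 1 (y 1) : ℂ)‖ ^ 2 = 1 := by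
    rw [fourier_apply, Circle.norm_coe]; norm_num
  rw [← Complex.normSq_eq_norm_sq, Complex.normSq_apply] at h
  unfold c2 s2; nlinarith

/-- quarter turn -/
noncomputable def qt : UnitAddCircle := ((1 / 4 : ℝ) : UnitAddCircle)

lemma fourier_qt (x : UnitAddCircle) : (fourier 1 (x + qt) : ℂ) = I * fourier 1 x := by
  have h1 : (fourier 1 (x + qt) : ℂ) = fourier 1 x * fourier 1 qt := by
    simp only [fourier_apply, one_smul, AddCircle.toCircle_add, Circle.coe_mul]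
  have h2 : (fourier 1 qt : ℂ) = I := by
    rw [qt, fourier_coe_apply]
    have : (2 * π * I * (1 : ℤ) * ((1 / 4 : ℝ) : ℂ) / (1 : ℝ) : ℂ) = (π / 2 : ℂ) * I := by
      push_cast; ring
    rw [this, Complex.exp_mul_I]
    simp
  rw [h1, h2, mul_comm]

noncomputable def g0 : T2 := ![qt, 0]
noncomputable def g1 : T2 := ![0, qt]

lemma sh0 (y : T2) : c1 (y + g0) = -s1 y ∧ s1 (y + g0) = c1 y ∧ c2 (y + g0) = c2 y ∧
    s2 (y + g0) = s2 y := by
  have h0 : (y + g0) 0 = y 0 + qt := by simp [g0]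
  have h1 : (y + g0) 1 = y 1 := by simp [g0]
  simp only [c1, s1, c2, s2, h0, h1, fourier_qt]
  simp

lemma sh1 (y : T2) : c2 (y + g1) = -s2 y ∧ s2 (y + g1) = c2 y ∧ c1 (y + g1) = c1 y ∧
    s1 (y + g1) = s1 y := by
  have h0 : (y + g1) 0 = y 0 := by simp [g1]
  have h1 : (y + g1) 1 = y 1 + qt := by simp [g1]
  simp only [c1, s1, c2, s2, h0, h1, fourier_qt]
  simp

/-- evaluation of a function of four real variables along the torus -/
noncomputable def ev (A : ℝ → ℝ → ℝ → ℝ → ℝ) (y : T2) : ℝ := A (c1 y) (s1 y) (c2 y) (s2 y)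

/-- joint continuity -/
def Jc (A : ℝ → ℝ → ℝ → ℝ → ℝ) : Prop :=
  Continuous fun q : ℝ × ℝ × ℝ × ℝ => A q.1 q.2.1 q.2.2.1 q.2.2.2

lemma ev_cont {A : ℝ → ℝ → ℝ → ℝ → ℝ} (h : Jc A) : Continuous (ev A) := by
  unfold ev
  exact h.comp (c1_cont.prodMk (s1_cont.prodMk (c2_cont.prodMk s2_cont)))

lemma ev_int {A : ℝ → ℝ → ℝ → ℝ → ℝ} (h : Jc A) : Integrable (ev A) μT :=
  (ev_cont h).integrable_of_hasCompactSupport (HasCompactSupport.of_compactSpace _)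

def R0 (A : ℝ → ℝ → ℝ → ℝ → ℝ) : ℝ → ℝ → ℝ → ℝ → ℝ := fun a b c d => A (-b) a c d
def R1 (A : ℝ → ℝ → ℝ → ℝ → ℝ) : ℝ → ℝ → ℝ → ℝ → ℝ := fun a b c d => A a b (-d) c

lemma R0_Jc {A : ℝ → ℝ → ℝ → ℝ → ℝ} (h : Jc A) : Jc (R0 A) := by
  unfold Jc R0
  exact h.comp (by fun_prop : Continuous fun q : ℝ × ℝ × ℝ × ℝ => (-q.2.1, q.1, q.2.2.1, q.2.2.2))
lemma R1_Jc {A : ℝ → ℝ → ℝ → ℝ → ℝ} (h : Jc A) : Jc (R1 A) := by
  unfold Jc R1
  exact h.comp (by fun_prop : Continuous fun q : ℝ × ℝ × ℝ × ℝ => (q.1, q.2.1, -q.2.2.2, q.2.2.1))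

lemma R0_int (A : ℝ → ℝ → ℝ → ℝ → ℝ) : ∫ y, ev (R0 A) y ∂μT = ∫ y, ev A y ∂μT := by
  rw [← integral_add_right_eq_self (μ := μT) (ev A) g0]
  congr 1
  funext y
  obtain ⟨h1, h2, h3, h4⟩ := sh0 y
  simp only [ev, R0, h1, h2, h3, h4]

lemma R1_int (A : ℝ → ℝ → ℝ → ℝ → ℝ) : ∫ y, ev (R1 A) y ∂μT = ∫ y, ev A y ∂μT := by
  rw [← integral_add_right_eq_self (μ := μT) (ev A) g1]
  congr 1
  funext y
  obtain ⟨h1, h2, h3, h4⟩ := sh1 y
  simp only [ev, R1, h1, h2, h3, h4]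

def S0 (A : ℝ → ℝ → ℝ → ℝ → ℝ) : ℝ → ℝ → ℝ → ℝ → ℝ := fun a b c d =>
  A a b c d + R0 A a b c d + (R0 (R0 A) a b c d + R0 (R0 (R0 A)) a b c d)
def S1 (A : ℝ → ℝ → ℝ → ℝ → ℝ) : ℝ → ℝ → ℝ → ℝ → ℝ := fun a b c d =>
  A a b c d + R1 A a b c d + (R1 (R1 A) a b c d + R1 (R1 (R1 A)) a b c d)

lemma S0_Jc {A : ℝ → ℝ → ℝ → ℝ → ℝ} (h : Jc A) : Jc (S0 A) :=
  (Continuous.add h (R0_Jc h)).add
    (Continuous.add (R0_Jc (R0_Jc h)) (R0_Jc (R0_Jc (R0_Jc h))))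

lemma S0_int {A : ℝ → ℝ → ℝ → ℝ → ℝ} (h : Jc A) :
    ∫ y, ev (S0 A) y ∂μT = 4 * ∫ y, ev A y ∂μT := by
  have i0 := ev_int h
  have i1 := ev_int (R0_Jc h)
  have i2 := ev_int (R0_Jc (R0_Jc h))
  have i3 := ev_int (R0_Jc (R0_Jc (R0_Jc h)))
  have : ev (S0 A) = (ev A + ev (R0 A)) + (ev (R0 (R0 A)) + ev (R0 (R0 (R0 A)))) := rfl
  rw [this, integral_add' (i0.add i1) (i2.add i3), integral_add' i0 i1, integral_add' i2 i3,
    R0_int, R0_int, R0_int, R0_int, R0_int, R0_int]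
  ring

lemma S1_int {A : ℝ → ℝ → ℝ → ℝ → ℝ} (h : Jc A) :
    ∫ y, ev (S1 A) y ∂μT = 4 * ∫ y, ev A y ∂μT := by
  have i0 := ev_int h
  have i1 := ev_int (R1_Jc h)
  have i2 := ev_int (R1_Jc (R1_Jc h))
  have i3 := ev_int (R1_Jc (R1_Jc (R1_Jc h)))
  have : ev (S1 A) = (ev A + ev (R1 A)) + (ev (R1 (R1 A)) + ev (R1 (R1 (R1 A)))) := rfl
  rw [this, integral_add' (i0.add i1) (i2.add i3), integral_add' i0 i1, integral_add' i2 i3,
    R1_int, R1_int, R1_int, R1_int, R1_int, R1_int]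
  ring

/-- the wave profile -/
def fw (a b c d : ℝ) : ℝ := a + c + (a * c - b * d)
/-- squared tangential part -/
def rw' (w a b c d : ℝ) : ℝ := (b + w * (b * c + a * d)) ^ 2 + (d + w * (b * c + a * d)) ^ 2

/-- low order part of the logarithm -/
noncomputable def Aw (h w : ℝ) (a b c d : ℝ) : ℝ :=
  2 * h * fw a b c d + h ^ 2 * (rw' w a b c d - fw a b c d ^ 2) +
    h ^ 3 * (2 / 3 * fw a b c d ^ 3 - 2 * fw a b c d * rw' w a b c d)

lemma Aw_sum (h w a b c d : ℝ) : S1 (S0 (Aw h w)) a b c d =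
    16 * (h ^ 2 * (((a ^ 2 + b ^ 2) + (c ^ 2 + d ^ 2)) / 2 + w ^ 2 * ((a ^ 2 + b ^ 2) * (c ^ 2 + d ^ 2))
      - ((a ^ 2 + b ^ 2) + (c ^ 2 + d ^ 2) + (a ^ 2 + b ^ 2) * (c ^ 2 + d ^ 2)) / 2)
      + h ^ 3 * ((a ^ 2 + b ^ 2) * (c ^ 2 + d ^ 2) * (1 - 2 * w))) := by
  unfold S1 S0 R1 R0 Aw fw rw'
  ring

lemma Aw_int (h : ℝ) {w : ℝ} (hw : w ^ 2 = 1 / 2) :
    ∫ y, ev (Aw h w) y ∂μT = h ^ 3 * (1 - 2 * w) := by
  have hJ : Jc (Aw h w) := by
    unfold Jc Aw fw rw'; fun_prop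
  have h1 := S1_int (S0_Jc hJ)
  rw [S0_int hJ] at h1
  have h2 : ev (S1 (S0 (Aw h w))) = fun _ => 16 * (h ^ 3 * (1 - 2 * w)) := by
    funext y
    rw [ev, Aw_sum, cs1, cs2, hw]; ring
  rw [h2] at h1
  simp only [integral_const, probReal_univ, one_smul] at h1
  linarith


lemma log_bound {t : ℝ} (ht : |t| ≤ 1 / 2) :
    Real.log (1 + t) ≤ t - t ^ 2 / 2 + t ^ 3 / 3 + 2 * t ^ 4 := by
  have h1 := Real.abs_log_sub_add_sum_range_le (x := -t) (by rw [abs_neg]; linarith) 3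
  simp only [Finset.sum_range_succ, Finset.sum_range_zero, sub_neg_eq_add, abs_neg] at h1
  norm_num at h1
  have h2 : |t| ^ 4 / (1 - |t|) ≤ 2 * t ^ 4 := by
    rw [div_le_iff₀ (by linarith)]
    have h3 : |t| ^ 4 = t ^ 4 := by rw [← abs_pow, abs_of_nonneg (by positivity)]
    have h4 : 0 ≤ t ^ 4 := by positivity
    rw [h3]; nlinarith
  have h5 := (abs_le.mp (h1.trans h2)).2
  linarith

lemma log_abs {t : ℝ} (ht : |t| ≤ 1 / 2) : |Real.log (1 + t)| ≤ 1 := by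
  have h := abs_le.mp ht
  have hpos : 0 < 1 + t := by linarith
  rw [abs_le]
  constructor
  · have h1 := Real.one_sub_inv_le_log_of_pos hpos
    have h2 : (1 + t)⁻¹ ≤ 2 := by
      rw [inv_le_comm₀ hpos (by norm_num)]; linarith
    linarith
  · have h1 := Real.log_le_sub_one_of_pos hpos
    linarith

/-- pointwise upper bound for the `p/2`-th power -/
lemma rpow_bound {t p : ℝ} (ht : |t| ≤ 1 / 2) (hp : 0 < p) (hp1 : p ≤ 1) :
    (1 + t) ^ (p / 2) ≤ 1 + p / 2 * (t - t ^ 2 / 2 + t ^ 3 / 3 + 2 * t ^ 4) + p ^ 2 / 4 := by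
  have h := abs_le.mp ht
  have hpos : 0 < 1 + t := by linarith
  have hL := log_bound ht
  have hA := log_abs ht
  rw [Real.rpow_def_of_pos hpos]
  have hx : |Real.log (1 + t) * (p / 2)| ≤ 1 := by
    rw [abs_mul, abs_of_pos (show 0 < p / 2 by positivity)]
    nlinarith [abs_nonneg (Real.log (1 + t))]
  have h1 := (abs_le.mp (Real.abs_exp_sub_one_sub_id_le hx)).2
  have h2 : (Real.log (1 + t) * (p / 2)) ^ 2 ≤ p ^ 2 / 4 := by
    have : Real.log (1 + t) ^ 2 ≤ 1 := by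
      rw [← sq_abs]; nlinarith [abs_nonneg (Real.log (1 + t))]
    nlinarith [sq_nonneg p, sq_nonneg (Real.log (1 + t))]
  nlinarith

lemma fw_bound {a b c d : ℝ} (h1 : a ^ 2 + b ^ 2 = 1) (h2 : c ^ 2 + d ^ 2 = 1) :
    |fw a b c d| ≤ 3 := by
  have ha : |a| ≤ 1 := abs_le_one_iff_mul_self_le_one.mpr (by nlinarith)
  have hc : |c| ≤ 1 := abs_le_one_iff_mul_self_le_one.mpr (by nlinarith)
  have h3 : |a * c - b * d| ≤ 1 := by
    rw [abs_le]; constructor <;> nlinarith [sq_nonneg (a - c), sq_nonneg (b + d), sq_nonneg (a + c), sq_nonneg (b - d)]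
  unfold fw
  calc |a + c + (a * c - b * d)| ≤ |a + c| + |a * c - b * d| := abs_add_le _ _
    _ ≤ |a| + |c| + |a * c - b * d| := by gcongr; exact abs_add_le _ _
    _ ≤ 3 := by linarith

lemma rw_bound {w a b c d : ℝ} (hw : w ^ 2 = 1 / 2) (h1 : a ^ 2 + b ^ 2 = 1)
    (h2 : c ^ 2 + d ^ 2 = 1) : rw' w a b c d ≤ 6 := by
  have h3 : (b * c + a * d) ^ 2 ≤ 1 := by
    have : (b * c + a * d) ^ 2 + (a * c - b * d) ^ 2 = (a ^ 2 + b ^ 2) * (c ^ 2 + d ^ 2) := by ring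
    rw [h1, h2] at this
    nlinarith [sq_nonneg (a * c - b * d)]
  have h4 : ∀ x, x ^ 2 ≤ 1 → (x + w * (b * c + a * d)) ^ 2 ≤ 3 := by
    intro x hx
    have h5 : (w * (b * c + a * d)) ^ 2 ≤ 1 / 2 := by rw [mul_pow, hw]; linarith
    nlinarith [sq_nonneg (x - 2 * (w * (b * c + a * d)))]
  have h6 := h4 b (by nlinarith [sq_nonneg a])
  have h7 := h4 d (by nlinarith [sq_nonneg c])
  unfold rw'; linarith

lemma rw_nonneg (w a b c d : ℝ) : 0 ≤ rw' w a b c d := by unfold rw'; positivity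

/-- the squared norm minus one -/
def tw (h w : ℝ) (a b c d : ℝ) : ℝ :=
  2 * h * fw a b c d + h ^ 2 * (fw a b c d ^ 2 + rw' w a b c d)

lemma tw_bound {h w a b c d : ℝ} (hh0 : 0 < h) (hh1 : h ≤ 1 / 1000) (hw : w ^ 2 = 1 / 2)
    (h1 : a ^ 2 + b ^ 2 = 1) (h2 : c ^ 2 + d ^ 2 = 1) : |tw h w a b c d| ≤ 7 * h := by
  have hf := fw_bound h1 h2
  have hr := rw_bound hw h1 h2
  have hr0 := rw_nonneg w a b c d
  have hf2 : fw a b c d ^ 2 ≤ 9 := by
    rw [← sq_abs]; nlinarith [abs_nonneg (fw a b c d)]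
  have hfl := abs_le.mp hf
  unfold tw
  rw [abs_le]
  constructor
  · nlinarith [sq_nonneg (fw a b c d), mul_nonneg (sq_nonneg h) (add_nonneg (sq_nonneg (fw a b c d)) hr0)]
  · nlinarith [sq_nonneg (fw a b c d), mul_nonneg (sq_nonneg h) (add_nonneg (sq_nonneg (fw a b c d)) hr0),
      mul_le_mul_of_nonneg_left (add_le_add hf2 hr) (sq_nonneg h)]

/-- comparison of the truncated logarithm with its low order part -/
lemma tw_log {h w a b c d : ℝ} (hh0 : 0 < h) (hh1 : h ≤ 1 / 1000) (hw : w ^ 2 = 1 / 2)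
    (h1 : a ^ 2 + b ^ 2 = 1) (h2 : c ^ 2 + d ^ 2 = 1) :
    tw h w a b c d - tw h w a b c d ^ 2 / 2 + tw h w a b c d ^ 3 / 3 + 2 * tw h w a b c d ^ 4
      ≤ Aw h w a b c d + 6000 * h ^ 4 := by
  have hf := fw_bound h1 h2
  have hr := rw_bound hw h1 h2
  have hr0 := rw_nonneg w a b c d
  have ht := tw_bound hh0 hh1 hw h1 h2
  have h4 : tw h w a b c d ^ 4 ≤ (7 * h) ^ 4 := by
    have : tw h w a b c d ^ 4 = |tw h w a b c d| ^ 4 := by
      rw [← abs_pow, abs_of_nonneg (by positivity)]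
    rw [this]
    exact pow_le_pow_left₀ (abs_nonneg _) ht 4
  set f := fw a b c d with hfdef
  set R := rw' w a b c d with hRdef
  set q := f ^ 2 + R with hq
  have hf2 : f ^ 2 ≤ 9 := by
    rw [← sq_abs]; nlinarith [abs_nonneg f]
  have hq0 : 0 ≤ q := by positivity
  have hq15 : q ≤ 15 := by linarith
  have hexp : tw h w a b c d - tw h w a b c d ^ 2 / 2 + tw h w a b c d ^ 3 / 3 =
      Aw h w a b c d + (-(h ^ 4 * q ^ 2) / 2 + 4 * h ^ 4 * (f ^ 2 * q) + 2 * h ^ 5 * (f * q ^ 2)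
        + h ^ 6 * q ^ 3 / 3) := by
    unfold tw Aw
    rw [← hfdef, ← hRdef, hq]
    ring
  have hfl := abs_le.mp hf
  have e1 : f ^ 2 * q ≤ 9 * 15 := by gcongr
  have e2 : f * q ^ 2 ≤ 3 * 15 ^ 2 := by
    have : q ^ 2 ≤ 15 ^ 2 := by gcongr
    calc f * q ^ 2 ≤ 3 * q ^ 2 := by nlinarith [sq_nonneg q]
      _ ≤ _ := by gcongr
  have e3 : q ^ 3 ≤ 15 ^ 3 := by gcongr
  have p4 : 0 ≤ h ^ 4 := by positivity
  have p5 : h ^ 5 ≤ h ^ 4 / 1000 := by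
    have : h ^ 5 = h ^ 4 * h := by ring
    rw [this]; nlinarith
  have p6 : h ^ 6 ≤ h ^ 4 / 1000 := by
    have : h ^ 6 = h ^ 4 * (h * h) := by ring
    rw [this]
    have : h * h ≤ 1 / 1000 := by nlinarith
    nlinarith
  have p5' : 0 ≤ h ^ 5 := by positivity
  have p6' : 0 ≤ h ^ 6 := by positivity
  have m1 : 4 * h ^ 4 * (f ^ 2 * q) ≤ 4 * h ^ 4 * (9 * 15) := by gcongr
  have m2 : 2 * h ^ 5 * (f * q ^ 2) ≤ 2 * h ^ 5 * (3 * 15 ^ 2) := by gcongr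
  have m3 : h ^ 6 * q ^ 3 / 3 ≤ h ^ 6 * 15 ^ 3 / 3 := by gcongr
  have m4 : 0 ≤ h ^ 4 * q ^ 2 := by positivity
  have h4' : 2 * tw h w a b c d ^ 4 ≤ 4802 * h ^ 4 := by
    have : (7 * h) ^ 4 = 2401 * h ^ 4 := by ring
    rw [this] at h4; linarith
  rw [hexp]
  clear_value f R q
  linarith

end Pool.Agent.N310.HR
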