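import Mathlib

/-!
# Trigonometric fields on the two-torus

A real Riesz field on the torus is a pair `(f, R f)` where `f` is real valued and
`R f = R₁ f + i R₂ f` collects the two Riesz transforms.  For `f = Re (c e_m)` one has
`R f = m̂ Im (c e_m)` with `m̂ = m / |m|`.
-/

set_option autoImplicit false

open MeasureTheory Complex Set
open scoped ENNReal

namespace Pool.Agent.N310.HR

/-- the two-torus -/
abbrev T2 : Type := UnitAddTorus (Fin 2)
/-- frequencies -/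
abbrev Z2 : Type := Fin 2 → ℤ
/-- values of a field: `(f, R₁ f + i R₂ f)` -/
abbrev V : Type := ℝ × ℂ

/-- Haar probability on the circle -/
noncomputable abbrev μC : Measure UnitAddCircle := AddCircle.haarAddCircle
/-- Haar probability on the torus -/
noncomputable abbrev μT : Measure T2 := Measure.pi (fun _ : Fin 2 => μC)

/-- characters -/
noncomputable def e (m : Z2) (x : T2) : ℂ := UnitAddTorus.mFourier m x

lemma e_eq (m : Z2) (x : T2) : e m x = fourier (m 0) (x 0) * fourier (m 1) (x 1) := by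
  simp [e, UnitAddTorus.mFourier, Fin.prod_univ_two]

lemma e_cont (m : Z2) : Continuous (e m) := (UnitAddTorus.mFourier m).continuous

lemma e_meas (m : Z2) : Measurable (e m) := (e_cont m).measurable

lemma e_norm (m : Z2) (x : T2) : ‖e m x‖ = 1 := by
  rw [e_eq, norm_mul]; simp only [fourier_apply, Circle.norm_coe, mul_one]

lemma e_add_left (m n : Z2) (x : T2) : e (m + n) x = e m x * e n x := by
  simp only [e]; exact UnitAddTorus.mFourier_add

lemma e_zero (x : T2) : e 0 x = 1 := by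
  simp [e, UnitAddTorus.mFourier_zero]

lemma e_add_right (m : Z2) (x y : T2) : e m (x + y) = e m x * e m y := by
  simp only [e_eq, fourier_apply, Pi.add_apply, smul_add, AddCircle.toCircle_add, Circle.coe_mul]
  ring

lemma e_nsmul (N : ℕ) (m : Z2) (x : T2) : e m (N • x) = e (N • m) x := by
  simp only [e_eq, fourier_apply, Pi.smul_apply]
  have h : ∀ (a : ℤ) (t : UnitAddCircle), a • (N • t) = (N • a) • t := by
    intro a t
    rw [← natCast_zsmul, smul_smul, nsmul_eq_mul]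
    congr 1
    ring
  rw [h, h]

/-- frequency as a complex number -/
noncomputable def cm (m : Z2) : ℂ := (m 0 : ℂ) + (m 1 : ℂ) * I

lemma cm_re (m : Z2) : (cm m).re = m 0 := by simp [cm]
lemma cm_im (m : Z2) : (cm m).im = m 1 := by simp [cm]

lemma cm_add (m n : Z2) : cm (m + n) = cm m + cm n := by
  simp [cm]; ring

lemma cm_nsmul (N : ℕ) (m : Z2) : cm (N • m) = N * cm m := by
  simp [cm]; ring

lemma cm_ne_zero {m : Z2} (hm : m ≠ 0) : cm m ≠ 0 := by
  intro h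
  apply hm
  have h0 : ((m 0 : ℤ) : ℝ) = 0 := by rw [← cm_re, h]; simp
  have h1 : ((m 1 : ℤ) : ℝ) = 0 := by rw [← cm_im, h]; simp
  funext i
  fin_cases i
  · simpa using h0
  · simpa using h1

/-- direction of a frequency -/
noncomputable def hat (m : Z2) : ℂ := cm m / (‖cm m‖ : ℂ)

lemma hat_norm {m : Z2} (hm : m ≠ 0) : ‖hat m‖ = 1 := by
  have h := norm_ne_zero_iff.mpr (cm_ne_zero hm)
  rw [hat, norm_div]
  simp [h]

lemma hat_norm_le (m : Z2) : ‖hat m‖ ≤ 1 := by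
  by_cases hm : m = 0
  · subst hm; simp [hat, cm]
  · rw [hat_norm hm]

lemma hat_nsmul {j : ℕ} (hj : 0 < j) (m : Z2) : hat (j • m) = hat m := by
  simp only [hat, cm_nsmul, norm_mul]
  have : (j : ℂ) ≠ 0 := by exact_mod_cast hj.ne'
  rw [show ‖(j : ℂ)‖ = (j : ℝ) by simp]
  push_cast
  rw [mul_div_mul_left _ _ this]

/-- Euclidean norm on `V` -/
noncomputable def Nn (v : V) : ℝ := √(v.1 ^ 2 + ‖v.2‖ ^ 2)

lemma Nn_nonneg (v : V) : 0 ≤ Nn v := Real.sqrt_nonneg _

lemma Nn_eq (v : V) : Nn v = ‖(WithLp.toLp 2 v : WithLp 2 (ℝ × ℂ))‖ := by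
  rw [WithLp.prod_norm_eq_of_L2]
  simp [Nn]

lemma Nn_add (v w : V) : Nn (v + w) ≤ Nn v + Nn w := by
  rw [Nn_eq, Nn_eq, Nn_eq, WithLp.toLp_add]
  exact norm_add_le _ _

lemma Nn_cont : Continuous Nn := by unfold Nn; fun_prop

lemma Nn_fst (u : ℝ) : Nn (u, 0) = |u| := by
  simp [Nn, Real.sqrt_sq_eq_abs]

lemma Nn_snd (t : ℂ) : Nn (0, t) = ‖t‖ := by
  simp [Nn]

lemma Nn_smul (c : ℝ) (v : V) : Nn (c • v) = |c| * Nn v := by
  rw [Nn_eq, Nn_eq, WithLp.toLp_smul, norm_smul, Real.norm_eq_abs]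

lemma abs_fst_le (v : V) : |v.1| ≤ Nn v := by
  unfold Nn
  apply Real.le_sqrt_of_sq_le
  nlinarith [sq_abs v.1, sq_nonneg ‖v.2‖]

lemma norm_snd_le (v : V) : ‖v.2‖ ≤ Nn v := by
  unfold Nn
  apply Real.le_sqrt_of_sq_le
  nlinarith [sq_nonneg v.1]

/-- `p`-th power of the Euclidean norm, as an extended nonnegative real -/
noncomputable def P (p : ℝ) (v : V) : ℝ≥0∞ := (ENNReal.ofReal (Nn v)) ^ p

lemma P_meas (p : ℝ) : Measurable (P p) := by
  unfold P
  exact (Nn_cont.measurable.ennreal_ofReal).pow_const p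

lemma P_add {p : ℝ} (hp : 0 ≤ p) (hp1 : p ≤ 1) (v w : V) : P p (v + w) ≤ P p v + P p w := by
  unfold P
  calc (ENNReal.ofReal (Nn (v + w))) ^ p
      ≤ (ENNReal.ofReal (Nn v) + ENNReal.ofReal (Nn w)) ^ p := by
        apply ENNReal.rpow_le_rpow _ hp
        rw [← ENNReal.ofReal_add (Nn_nonneg v) (Nn_nonneg w)]
        exact ENNReal.ofReal_le_ofReal (Nn_add v w)
    _ ≤ _ := ENNReal.rpow_add_le_add_rpow _ _ hp hp1

lemma P_mono {p : ℝ} (hp : 0 ≤ p) {v : V} {r : ℝ} (h : Nn v ≤ r) :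
    P p v ≤ (ENNReal.ofReal r) ^ p :=
  ENNReal.rpow_le_rpow (ENNReal.ofReal_le_ofReal h) hp

lemma P_sum {p : ℝ} (hp : 0 < p) (hp1 : p ≤ 1) {ι : Type*} (s : Finset ι) (v : ι → V) :
    P p (∑ i ∈ s, v i) ≤ ∑ i ∈ s, P p (v i) := by
  classical
  induction s using Finset.induction_on with
  | empty => simp [P, Nn, hp]
  | insert a s ha ih =>
    rw [Finset.sum_insert ha, Finset.sum_insert ha]
    exact (P_add hp.le hp1 _ _).trans (add_le_add le_rfl ih)

/-- field of `Re (c e_m)` -/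
noncomputable def wv (m : Z2) (c : ℂ) (x : T2) : V :=
  ((c * e m x).re, hat m * (((c * e m x).im : ℝ) : ℂ))

lemma wv_Nn (m : Z2) (c : ℂ) (x : T2) : Nn (wv m c x) ≤ ‖c‖ := by
  have h : ‖c * e m x‖ = ‖c‖ := by rw [norm_mul, e_norm, mul_one]
  rw [← h]
  unfold Nn wv
  simp only [norm_mul, Complex.norm_real]
  rw [← norm_mul]
  apply Real.sqrt_le_iff.mpr
  refine ⟨norm_nonneg _, ?_⟩
  rw [← Complex.normSq_eq_norm_sq (c * e m x), Complex.normSq_apply]
  have h1 := hat_norm_le m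
  have h2 := norm_nonneg (hat m)
  rw [mul_pow, Real.norm_eq_abs, sq_abs]
  have h3 : ‖hat m‖ ^ 2 ≤ 1 := by nlinarith
  nlinarith [sq_nonneg (c * e m x).im, sq_nonneg (c * e m x).re]

lemma wv_cont (m : Z2) (c : ℂ) : Continuous (wv m c) := by
  unfold wv
  have := e_cont m
  fun_prop

/-- the generating set of high frequency fields -/
def gen (Λ : ℝ) : Set (T2 → V) :=
  {F | ∃ (m : Z2) (c : ℂ), m ≠ 0 ∧ Λ ≤ ‖cm m‖ ∧ F = wv m c}

/-- real trigonometric Riesz fields with frequencies `≥ Λ` -/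
noncomputable def 𝓕 (Λ : ℝ) : Submodule ℝ (T2 → V) := Submodule.span ℝ (gen Λ)

lemma wv_mem {Λ : ℝ} {m : Z2} (hm : m ≠ 0) (h : Λ ≤ ‖cm m‖) (c : ℂ) : wv m c ∈ 𝓕 Λ :=
  Submodule.subset_span ⟨m, c, hm, h, rfl⟩

lemma 𝓕_cont {Λ : ℝ} {H : T2 → V} (hH : H ∈ 𝓕 Λ) : Continuous H := by
  refine Submodule.span_induction ?_ ?_ ?_ ?_ hH
  · rintro F ⟨m, c, _, _, rfl⟩
    exact wv_cont m c
  · exact continuous_const
  · intro F G _ _ hF hG
    exact hF.add hG
  · intro a F _ hF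
    exact hF.const_smul a

end Pool.Agent.N310.HR
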